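import Pool.Agent.GMD.Stmts

/-!
Module AUT: automorphisms in `M` do not change the generic extension.
-/

set_option autoImplicit false

namespace Pool.Agent.GMD

open Pool.Agent.CTM

namespace AUTM

section

variable {M : Set V} {P G : V} {π : V → V}

theorem inj (h : IsAut M P π) {p q : V} (hp : p ∈ P) (hq : q ∈ P) (e : π p = π q) : p = q := by
  have h1 : p ⊆ q := (h.sub_iff p hp q hq).1 (fun _ hx => e ▸ hx)
  have h2 : q ⊆ p := (h.sub_iff q hq p hp).1 (fun _ hx => e.symm ▸ hx)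
  ext x
  exact ⟨fun hx => h1 hx, fun hx => h2 hx⟩

theorem map_empty (h : IsAut M P π) (h0 : ∅ ∈ P) : π ∅ = ∅ := by
  obtain ⟨p, hp, e⟩ := h.surj ∅ h0
  have h1 : (∅ : V) ⊆ p := fun x hx => absurd hx (ZFSet.notMem_empty x)
  have h2 : π ∅ ⊆ π p := (h.sub_iff ∅ h0 p hp).2 h1
  rw [e] at h2
  exact (ZFSet.eq_empty _).2 fun z hz => ZFSet.notMem_empty z (h2 hz)

theorem mem_iff (h : IsAut M P π) (hG : G ⊆ P) {p : V} (hp : p ∈ P) :
    π p ∈ rep G π ↔ p ∈ G := by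
  rw [mem_rep]
  constructor
  · rintro ⟨x, hx, e⟩
    rwa [← inj h (hG hx) hp e]
  · intro hp'
    exact ⟨p, hp', rfl⟩

theorem pre_mem [ZFm M] (h : IsAut M P π) (hP : P ∈ M) {D : V} (hD : D ∈ M) :
    ZFSet.sep (fun p => app (gr π P) p ∈ D) P ∈ M := by
  have hg := h.gr_mem
  have hcg : ∀ {Γ : Type 1} [Ctx Γ], DMap M M (fun _ : Γ => gr π P) := DMap.const hg hg
  have hcD : ∀ {Γ : Type 1} [Ctx Γ], DMap M M (fun _ : Γ => D) := DMap.const hD hD
  refine ZFm.sep_mem ?_ hP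
  apply_rules (transparency := .reducible) (maxDepth := 999) only [hcg, hcD] using is_poly

theorem generic [ZFm M] (h : IsAut M P π) (hP : P ∈ M) (h0 : ∅ ∈ P) (hG : Generic M P G) :
    Generic M P (rep G π) := by
  refine ⟨?_, ?_, ?_, ?_, ?_⟩
  · intro x hx
    obtain ⟨p, hp, rfl⟩ := mem_rep.1 hx
    exact h.maps p (hG.sub hp)
  · exact mem_rep.2 ⟨∅, hG.empty_mem, map_empty h h0⟩
  · intro p hp q hq hqp
    obtain ⟨x, hx, rfl⟩ := mem_rep.1 hp
    obtain ⟨y, hy, rfl⟩ := h.surj q hq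
    exact mem_rep.2 ⟨y, hG.down x hx y hy ((h.sub_iff y hy x (hG.sub hx)).1 hqp), rfl⟩
  · intro p hp q hq
    obtain ⟨x, hx, rfl⟩ := mem_rep.1 hp
    obtain ⟨y, hy, rfl⟩ := mem_rep.1 hq
    obtain ⟨z, hz, h1, h2⟩ := hG.dir x hx y hy
    exact ⟨π z, mem_rep.2 ⟨z, hz, rfl⟩, (h.sub_iff x (hG.sub hx) z (hG.sub hz)).2 h1,
      (h.sub_iff y (hG.sub hy) z (hG.sub hz)).2 h2⟩
  · intro D hD hdense
    obtain ⟨p, hp, hpG⟩ := hG.meets _ (pre_mem h hP hD) (by
      refine ⟨fun x hx => (ZFSet.mem_sep.1 hx).1, fun p hp => ?_⟩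
      obtain ⟨q, hq, hpq⟩ := hdense.2 (π p) (h.maps p hp)
      obtain ⟨y, hy, rfl⟩ := h.surj q (hdense.1 hq)
      refine ⟨y, ZFSet.mem_sep.2 ⟨hy, ?_⟩, (h.sub_iff p hp y hy).1 hpq⟩
      rw [Chk.app_gr hy]
      exact hq)
    have h1 := ZFSet.mem_sep.1 hp
    rw [Chk.app_gr h1.1] at h1
    exact ⟨π p, h1.2, mem_rep.2 ⟨p, hpG, rfl⟩⟩

end

end AUTM

open AUTM in
theorem AUT_thm : Stmt_AUT := by
  intro hval M _ hM P hP h0 π h G hG
  have hG' := generic h hP h0 hG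
  refine ⟨hG', ?_, fun p hp => mem_iff h hG.sub hp⟩
  obtain ⟨hZ, hMN, hGN, -, -⟩ := stmt_ext M hM P hP h0 G hG
  obtain ⟨hZ', hMN', hGN', -, -⟩ := stmt_ext M hM P hP h0 (rep G π) hG'
  apply Set.Subset.antisymm
  · refine hval M (Ext M G) (rep G π) hMN ?_
    have hg : gr π P ∈ Ext M G := hMN h.gr_mem
    have hcg : ∀ {Γ : Type 1} [Ctx Γ], DMap (Ext M G) (Ext M G) (fun _ : Γ => gr π P) :=
      DMap.const hg hg
    have h1 : rep G (fun p => app (gr π P) p) ∈ Ext M G := by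
      refine ZFm.rep_mem (A := Ext M G) ?_ hGN
      apply_rules (transparency := .reducible) (maxDepth := 999) only [hcg] using is_poly
    have h2 : rep G (fun p => app (gr π P) p) = rep G π :=
      Chk.rep_congr fun x hx => Chk.app_gr (hG.sub hx)
    rwa [h2] at h1
  · refine hval M (Ext M (rep G π)) G hMN' ?_
    have hg : gr π P ∈ Ext M (rep G π) := hMN' h.gr_mem
    have hcg : ∀ {Γ : Type 1} [Ctx Γ],
        DMap (Ext M (rep G π)) (Ext M (rep G π)) (fun _ : Γ => gr π P) := DMap.const hg hg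
    have hcG : ∀ {Γ : Type 1} [Ctx Γ],
        DMap (Ext M (rep G π)) (Ext M (rep G π)) (fun _ : Γ => rep G π) := DMap.const hGN' hGN'
    have h1 : ZFSet.sep (fun p => app (gr π P) p ∈ rep G π) P ∈ Ext M (rep G π) := by
      refine ZFm.sep_mem ?_ (hMN' hP)
      apply_rules (transparency := .reducible) (maxDepth := 999) only [hcg, hcG] using is_poly
    have h2 : ZFSet.sep (fun p => app (gr π P) p ∈ rep G π) P = G := by
      ext x
      rw [ZFSet.mem_sep]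
      constructor
      · rintro ⟨hx, h3⟩
        rw [Chk.app_gr hx] at h3
        exact (mem_iff h hG.sub hx).1 h3
      · intro hx
        refine ⟨hG.sub hx, ?_⟩
        rw [Chk.app_gr (hG.sub hx)]
        exact (mem_iff h hG.sub (hG.sub hx)).2 hx
    rwa [h2] at h1

end Pool.Agent.GMD
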