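import Pool.Agent.GMD.Pub
import Pool.Agent.CTM.SO1
import Pool.Agent.CTM.ZFCAx

/-!
The transitive models of `Pub` satisfy the axioms used in the library `CTM`.
-/

set_option autoImplicit false

namespace Pool.Agent.GMD

open Pool.Agent.CTM

universe u v

/-- Translation of formulas. -/
def toFm : ∀ {n : ℕ}, SetFormula n → Fm Empty n
  | _, .mem i j => .mem (.inr i) (.inr j)
  | _, .eq i j => .eq (.inr i) (.inr j)
  | _, .not φ => .neg (toFm φ)
  | _, .and φ ψ => .and (toFm φ) (toFm ψ)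
  | _, .all φ => .all (toFm φ)

/-- A variable or an (impossible) constant. -/
def vr {n : ℕ} : Empty ⊕ Fin n → Fin n := Sum.elim Empty.elim id

/-- Translation of formulas, inverse. -/
def ofFm : ∀ {n : ℕ}, Fm Empty n → SetFormula n
  | _, .mem s t => .mem (vr s) (vr t)
  | _, .eq s t => .eq (vr s) (vr t)
  | _, .neg φ => .not (ofFm φ)
  | _, .and φ ψ => .and (ofFm φ) (ofFm ψ)
  | _, .all φ => .all (ofFm φ)

theorem vr_eq {n : ℕ} (v : Fin n → V) (s : Empty ⊕ Fin n) : v (vr s) = Sum.elim Empty.elim v s := by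
  rcases s with s | s
  · exact s.elim
  · rfl

theorem ofFm_iff (N : Set V) {n : ℕ} (φ : Fm Empty n) :
    ∀ v : Fin n → V, (ofFm φ).Holds N v ↔ φ.Sat N (fun x y => x ∈ y) Empty.elim v := by
  induction φ with
  | mem s t =>
    intro v
    show v (vr s) ∈ v (vr t) ↔ _
    rw [vr_eq v s, vr_eq v t]
    rfl
  | eq s t =>
    intro v
    show v (vr s) = v (vr t) ↔ _
    rw [vr_eq v s, vr_eq v t]
    rfl
  | neg φ ih => intro v; exact not_congr (ih v)
  | and φ ψ ih ih' => intro v; exact and_congr (ih v) (ih' v)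
  | all φ ih => intro v; exact forall_congr' fun x => imp_congr Iff.rfl (ih _)

/-! ### Elimination of constants -/

section

variable {C : Type u} {α : Type v} (D : Set α) (E : α → α → Prop) (c : C → α)

/-- renamings for the merging of parameters -/
def r1 (k1 k2 n : ℕ) : Fin (k1 + n) → Fin (k1 + k2 + n) :=
  Fin.addCases (fun i => Fin.castAdd n (Fin.castAdd k2 i)) fun j => Fin.natAdd (k1 + k2) j

def r2 (k1 k2 n : ℕ) : Fin (k2 + n) → Fin (k1 + k2 + n) :=
  Fin.addCases (fun i => Fin.castAdd n (Fin.natAdd k1 i)) fun j => Fin.natAdd (k1 + k2) j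

theorem r1_eq {k1 k2 n : ℕ} (τ1 : Fin k1 → C) (τ2 : Fin k2 → C) (v : Fin n → α) :
    (Fin.append (c ∘ Fin.append τ1 τ2) v) ∘ r1 k1 k2 n = Fin.append (c ∘ τ1) v := by
  funext i
  refine Fin.addCases (fun i => ?_) (fun j => ?_) i
  · simp [r1]
  · simp [r1]

theorem r2_eq {k1 k2 n : ℕ} (τ1 : Fin k1 → C) (τ2 : Fin k2 → C) (v : Fin n → α) :
    (Fin.append (c ∘ Fin.append τ1 τ2) v) ∘ r2 k1 k2 n = Fin.append (c ∘ τ2) v := by
  funext i
  refine Fin.addCases (fun i => ?_) (fun j => ?_) i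
  · simp [r2]
  · simp [r2]

theorem append_snoc' {k n : ℕ} (a : Fin k → α) (v : Fin n → α) (x : α) :
    (Fin.append a (Fin.snoc v x : Fin (n + 1) → α) : Fin (k + (n + 1)) → α) =
      (Fin.snoc (Fin.append a v) x : Fin (k + n + 1) → α) := by
  funext i
  refine Fin.lastCases (n := k + n) ?_ (fun i => ?_) i
  · have h : (Fin.last (k + n) : Fin (k + n + 1)) = Fin.natAdd k (Fin.last n) := rfl
    rw [Fin.snoc_last, h, Fin.append_right, Fin.snoc_last]
  · rw [Fin.snoc_castSucc]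
    refine Fin.addCases (fun i => ?_) (fun j => ?_) i
    · have h : ((Fin.castAdd n i).castSucc : Fin (k + n + 1)) = Fin.castAdd (n + 1) i := rfl
      rw [h, Fin.append_left, Fin.append_left]
    · have h : ((Fin.natAdd k j).castSucc : Fin (k + n + 1)) = Fin.natAdd k j.castSucc := rfl
      rw [h, Fin.append_right, Fin.append_right, Fin.snoc_castSucc]

theorem term_elim {n : ℕ} (s : C ⊕ Fin n) : ∃ (k : ℕ) (τ : Fin k → C) (i : Fin (k + n)),
    ∀ v : Fin n → α, Sum.elim c v s = Fin.append (c ∘ τ) v i := by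
  rcases s with a | i
  · refine ⟨1, fun _ => a, Fin.castAdd n 0, fun v => ?_⟩
    rw [Fin.append_left]
    rfl
  · refine ⟨0, Fin.elim0, Fin.natAdd 0 i, fun v => ?_⟩
    rw [Fin.append_right]
    rfl

theorem elim_const {n : ℕ} (φ : Fm C n) : ∃ (k : ℕ) (τ : Fin k → C) (ψ : Fm Empty (k + n)),
    ∀ v : Fin n → α, φ.Sat D E c v ↔ ψ.Sat D E Empty.elim (Fin.append (c ∘ τ) v) := by
  induction φ with
  | @mem n s t =>
    obtain ⟨k1, τ1, i1, h1⟩ := term_elim c s
    obtain ⟨k2, τ2, i2, h2⟩ := term_elim c t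
    refine ⟨k1 + k2, Fin.append τ1 τ2, .mem (.inr (r1 k1 k2 n i1)) (.inr (r2 k1 k2 n i2)),
      fun v => ?_⟩
    show E (Sum.elim c v s) (Sum.elim c v t) ↔
      E (((Fin.append (c ∘ Fin.append τ1 τ2) v) ∘ r1 k1 k2 n) i1)
        (((Fin.append (c ∘ Fin.append τ1 τ2) v) ∘ r2 k1 k2 n) i2)
    rw [r1_eq, r2_eq, h1, h2]
  | @eq n s t =>
    obtain ⟨k1, τ1, i1, h1⟩ := term_elim c s
    obtain ⟨k2, τ2, i2, h2⟩ := term_elim c t
    refine ⟨k1 + k2, Fin.append τ1 τ2, .eq (.inr (r1 k1 k2 n i1)) (.inr (r2 k1 k2 n i2)),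
      fun v => ?_⟩
    show (Sum.elim c v s) = (Sum.elim c v t) ↔
      (((Fin.append (c ∘ Fin.append τ1 τ2) v) ∘ r1 k1 k2 n) i1) =
        (((Fin.append (c ∘ Fin.append τ1 τ2) v) ∘ r2 k1 k2 n) i2)
    rw [r1_eq, r2_eq, h1, h2]
  | neg φ ih =>
    obtain ⟨k, τ, ψ, h⟩ := ih
    exact ⟨k, τ, ψ.neg, fun v => not_congr (h v)⟩
  | @and n φ ψ ih ih' =>
    obtain ⟨k1, τ1, ψ1, h1⟩ := ih
    obtain ⟨k2, τ2, ψ2, h2⟩ := ih'
    refine ⟨k1 + k2, Fin.append τ1 τ2, .and (ψ1.ren (r1 k1 k2 n)) (ψ2.ren (r2 k1 k2 n)),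
      fun v => ?_⟩
    refine and_congr ?_ ?_
    · rw [h1, Fm.sat_ren, r1_eq]
    · rw [h2, Fm.sat_ren, r2_eq]
  | @all n φ ih =>
    obtain ⟨k, τ, ψ, h⟩ := ih
    refine ⟨k, τ, Fm.all (n := k + n) ψ, fun v => ?_⟩
    refine forall_congr' fun x => imp_congr Iff.rfl ?_
    rw [h, append_snoc']

end

/-! ### The axioms -/

section

variable {N : Set V} (h : ModelB N)

theorem numeral_eq (n : ℕ) : numeral n = nn n := by
  induction n with
  | zero => rfl
  | succ n ih => show (insert (numeral n) (numeral n) : V) = insert (nn n) (nn n); rw [ih]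

include h

theorem trC : TrC N := ⟨fun {x y} hx hy => h.transitive x hx y hy⟩

theorem eq_of {x y : V} (hx : x ∈ N) (hy : ∀ t ∈ y, t ∈ N) (e : ∀ t ∈ N, t ∈ x ↔ t ∈ y) :
    x = y := by
  ext t
  exact ⟨fun ht => (e t (h.transitive x hx t ht)).1 ht, fun ht => (e t (hy t ht)).2 ht⟩

theorem upair_mem {x y : V} (hx : x ∈ N) (hy : y ∈ N) : ({x, y} : V) ∈ N := by
  obtain ⟨z, hz, e⟩ := h.pairing x hx y hy
  rw [← eq_of h hz (y := {x, y}) (fun t ht => by
    rcases ZFSet.mem_pair.1 ht with rfl | rfl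
    · exact hx
    · exact hy) (fun t ht => (e t ht).trans ZFSet.mem_pair.symm)]
  exact hz

theorem sUnion_mem {x : V} (hx : x ∈ N) : (ZFSet.sUnion x : V) ∈ N := by
  obtain ⟨z, hz, e⟩ := h.union x hx
  rw [← eq_of h hz (y := ZFSet.sUnion x) (fun t ht => by
    obtain ⟨y, hy, hty⟩ := ZFSet.mem_sUnion.1 ht
    exact h.transitive y (h.transitive x hx y hy) t hty) (fun t ht => by
      rw [e t ht, ZFSet.mem_sUnion]
      constructor
      · rintro ⟨y, _, hy, hty⟩
        exact ⟨y, hy, hty⟩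
      · rintro ⟨y, hy, hty⟩
        exact ⟨y, h.transitive x hx y hy, hy, hty⟩)]
  exact hz

theorem empty_mem : (∅ : V) ∈ N := by
  obtain ⟨x, hx, ⟨e, he, h1, _⟩, _⟩ := h.infinity
  have : e = ∅ := by
    rw [ZFSet.eq_empty]
    intro y hy
    exact h1 y (h.transitive e he y hy) hy
  rw [← this]
  exact he

theorem insert_mem {x y : V} (hx : x ∈ N) (hy : y ∈ N) : (insert x y : V) ∈ N := by
  have h1 : (ZFSet.sUnion {{x, x}, y} : V) ∈ N :=
    sUnion_mem h (upair_mem h (upair_mem h hx hx) hy)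
  have h2 : (ZFSet.sUnion {{x, x}, y} : V) = insert x y := by
    ext t
    rw [ZFSet.mem_sUnion, ZFSet.mem_insert_iff]
    constructor
    · rintro ⟨s, hs, ht⟩
      rcases ZFSet.mem_pair.1 hs with rfl | rfl
      · left
        simpa using ht
      · exact Or.inr ht
    · rintro (rfl | ht)
      · exact ⟨{t, t}, by simp, by simp⟩
      · exact ⟨y, by simp, ht⟩
  rw [← h2]
  exact h1

theorem sep_mem {P : V → Prop} (hP : Dfn N N P) {a : V} (ha : a ∈ N) : ZFSet.sep P a ∈ N := by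
  obtain ⟨φ, hφ⟩ := hP
  obtain ⟨k, τ, ψ, hψ⟩ := elim_const N (fun x y : V => x ∈ y)
    (fun a : (N ∩ N : Set V) => a.1) φ
  obtain ⟨y, hy, e⟩ := h.separation k (ofFm ψ) (fun i => (τ i).1) (fun i => (τ i).2.1) a ha
  rw [← eq_of h hy (y := ZFSet.sep P a) (fun t ht =>
    h.transitive a ha t (ZFSet.mem_sep.1 ht).1) (fun t ht => ?_)]
  · exact hy
  · rw [e t ht, ZFSet.mem_sep, ofFm_iff]
    refine and_congr_right fun _ => ?_
    have h1 := hφ (fun _ => t) (fun _ => ht)
    have h2 := hψ (fun _ : Fin 1 => t)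
    rw [append_one] at h2
    exact h2.symm.trans h1

theorem omega_mem : (ZFSet.omega : V) ∈ N := by
  have := trC h
  obtain ⟨x, hx, ⟨e, he, h1, hex⟩, hs⟩ := h.infinity
  have he0 : e = ∅ := by
    rw [ZFSet.eq_empty]
    intro y hy
    exact h1 y (h.transitive e he y hy) hy
  subst he0
  have hsucc : ∀ y ∈ x, (insert y y : V) ∈ x := by
    intro y hy
    have hyN := h.transitive x hx y hy
    obtain ⟨s, hsN, hsx, hst⟩ := hs y hyN hy
    have : s = insert y y := eq_of h hsN (fun t ht => by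
      rcases ZFSet.mem_insert_iff.1 ht with rfl | ht
      · exact hyN
      · exact h.transitive y hyN t ht) (fun t ht => by
        rw [hst t ht, ZFSet.mem_insert_iff]
        exact or_comm)
    rw [← this]
    exact hsx
  have hnn : ∀ n, nn n ∈ x := by
    intro n
    induction n with
    | zero => exact hex
    | succ n ih => exact hsucc _ ih
  -- the natural numbers are defined by an absolute formula
  have hD : Dfn N N (fun z : V => z.IsOrdinal ∧ (∀ y ∈ z, y = ∅ ∨ ∃ u ∈ z, y = insert u u) ∧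
      (z = ∅ ∨ ∃ u ∈ z, z = insert u u)) := by
    have : D0 (fun z : V => z.IsOrdinal ∧ (∀ y ∈ z, y = ∅ ∨ ∃ u ∈ z, y = insert u u) ∧
      (z = ∅ ∨ ∃ u ∈ z, z = insert u u)) := by
      refine D0.congr' (P := fun z : V => z.IsOrdinal ∧ (∀ y ∈ z, (∀ t ∈ y, False) ∨
        ∃ u ∈ z, u ∈ y ∧ (∀ t ∈ u, t ∈ y) ∧ ∀ t ∈ y, t = u ∨ t ∈ u) ∧
        ((∀ t ∈ z, False) ∨ ∃ u ∈ z, (∀ t ∈ u, t ∈ z) ∧ ∀ t ∈ z, t = u ∨ t ∈ u))
        (fun z => ?_) ?_
      · have h3 : ∀ y : V, y = ∅ ↔ ∀ t ∈ y, False := fun y => by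
          rw [ZFSet.eq_empty]
        have h4 : ∀ y u : V, y = insert u u ↔ u ∈ y ∧ (∀ t ∈ u, t ∈ y) ∧
            ∀ t ∈ y, t = u ∨ t ∈ u := by
          intro y u
          constructor
          · rintro rfl
            refine ⟨ZFSet.mem_insert _ _, fun t ht => ZFSet.mem_insert_of_mem _ ht, fun t ht =>
              ZFSet.mem_insert_iff.1 ht⟩
          · rintro ⟨h5, h6, h7⟩
            ext t
            rw [ZFSet.mem_insert_iff]
            constructor
            · exact h7 t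
            · rintro (rfl | ht)
              · exact h5
              · exact h6 t ht
        simp only [h3, h4]
        refine and_congr_right fun _ => and_congr_right fun _ => or_congr Iff.rfl ?_
        constructor
        · rintro ⟨u, hu, _, h8⟩
          exact ⟨u, hu, h8⟩
        · rintro ⟨u, hu, h8⟩
          exact ⟨u, hu, hu, h8⟩
      · refine D0.and (D0.isOrdinal Prj.id) ?_
        apply_rules (transparency := .reducible) (maxDepth := 999) only using is_poly
    exact this.dfn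
  have h2 := sep_mem h hD hx
  have h3 : ZFSet.sep (fun z : V => z.IsOrdinal ∧ (∀ y ∈ z, y = ∅ ∨ ∃ u ∈ z, y = insert u u) ∧
      (z = ∅ ∨ ∃ u ∈ z, z = insert u u)) x = ZFSet.omega := by
    ext z
    rw [ZFSet.mem_sep, mem_omega]
    constructor
    · rintro ⟨_, ho, h5, h6⟩
      have key : ∀ y : V, (y = z ∨ y ∈ z) → ∃ n, y = nn n := by
        intro y
        induction y using ZFSet.inductionOn with
        | _ y ih =>
          intro hy
          have h7 : y = ∅ ∨ ∃ u ∈ z, y = insert u u := by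
            rcases hy with rfl | hy
            · exact h6
            · exact h5 y hy
          rcases h7 with rfl | ⟨u, hu, rfl⟩
          · exact ⟨0, rfl⟩
          · obtain ⟨n, hn⟩ := ih u (ZFSet.mem_insert _ _) (Or.inr hu)
            exact ⟨n + 1, by rw [hn]; rfl⟩
      exact key z (Or.inl rfl)
    · rintro ⟨n, rfl⟩
      refine ⟨hnn n, nn_isOrdinal n, fun y hy => ?_, ?_⟩
      · obtain ⟨m, hm, rfl⟩ := mem_nn.1 hy
        cases m with
        | zero => exact Or.inl rfl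
        | succ m => exact Or.inr ⟨nn m, nn_mem_nn.2 (by omega), rfl⟩
      · cases n with
        | zero => exact Or.inl rfl
        | succ m => exact Or.inr ⟨nn m, nn_mem_nn.2 (by omega), rfl⟩
  rw [← h3]
  exact h2

theorem power_mem {x : V} (hx : x ∈ N) : ZFSet.sep (fun y => y ∈ N) (ZFSet.powerset x) ∈ N := by
  obtain ⟨p, hp, e⟩ := h.power x hx
  rw [← eq_of h hp (y := ZFSet.sep (fun y => y ∈ N) (ZFSet.powerset x)) (fun t ht =>
    (ZFSet.mem_sep.1 ht).2) (fun t ht => ?_)]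
  · exact hp
  · rw [e t ht, ZFSet.mem_sep, ZFSet.mem_powerset]
    constructor
    · intro h1
      exact ⟨fun z hz => h1 z (h.transitive t ht z hz) hz, ht⟩
    · rintro ⟨h1, _⟩ z _ hz
      exact h1 hz

end

theorem coll_mem {N : Set V} (h : ModelC N) {P : V → V → Prop} (hP : Dfn N N (fun p : V × V => P p.1 p.2)) {a : V}
    (ha : a ∈ N) (hex : ∀ x ∈ a, ∃ y ∈ N, P x y) : ∃ b ∈ N, ∀ x ∈ a, ∃ y ∈ b, P x y := by
  obtain ⟨φ, hφ⟩ := hP
  obtain ⟨k, τ, ψ, hψ⟩ := elim_const N (fun x y : V => x ∈ y)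
    (fun a : (N ∩ N : Set V) => a.1) φ
  have key : ∀ x ∈ N, ∀ y ∈ N, ((ofFm ψ).Holds N (Fin.snoc (Fin.snoc (fun i => (τ i).1) x :
      Fin (k + 1) → V) y) ↔ P x y) := by
    intro x hx y hy
    rw [ofFm_iff]
    have h1 := hφ (Fin.snoc (fun _ : Fin 1 => x) y : Fin 2 → V) (fun i => by
      refine Fin.lastCases (n := 1) ?_ (fun i => ?_) i
      · rw [Fin.snoc_last]
        exact hy
      · rw [Fin.snoc_castSucc]
        exact hx)
    have h2 := hψ (Fin.snoc (fun _ : Fin 1 => x) y : Fin 2 → V)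
    rw [append_two] at h2
    refine h2.symm.trans (h1.trans ?_)
    exact Iff.rfl
  obtain ⟨b, hb, e⟩ := h.collection k (ofFm ψ) (fun i => (τ i).1) (fun i => (τ i).2.1) a ha
    (fun x hx hxa => by
      obtain ⟨y, hy, hP⟩ := hex x hxa
      exact ⟨y, hy, (key x hx y hy).2 hP⟩)
  refine ⟨b, hb, fun x hx => ?_⟩
  have hxN := h.transitive a ha x hx
  obtain ⟨y, hy, hyb, hP⟩ := e x hxN hx
  exact ⟨y, hyb, (key x hxN y hy).1 hP⟩

theorem zfm {N : Set V} (h : ModelC N) : ZFm N :=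
  { toTrC := trC h.toModelB
    empty_mem := empty_mem h.toModelB
    upair_mem := fun hx hy => upair_mem h.toModelB hx hy
    sUnion_mem := fun hx => sUnion_mem h.toModelB hx
    omega_mem := omega_mem h.toModelB
    sep_mem := fun hP _ ha => sep_mem h.toModelB hP ha
    coll := fun hP _ ha hex => coll_mem h hP ha hex }

end Pool.Agent.GMD
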