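import Pool.Agent.GMD.Stmts

/-!
Replacement implies collection, with power sets. Instead of the rank hierarchy indexed by ordinals
we use levels (sets that are the union of the power sets of the smaller levels), which are defined
in `N` without recursion by means of histories.
-/

set_option autoImplicit false

namespace Pool.Agent.GMD

open Pool.Agent.CTM

namespace COLM

/-- `h` is a history in `N`: each element of `h` is the set of all subsets (in `N`) of the elements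
of `h` that belong to it. -/
def Hist (N : Set V) (h : V) : Prop := ∀ r ∈ h, ∀ x ∈ N, (x ∈ r ↔ ∃ c ∈ h, c ∈ r ∧ x ⊆ c)

/-- `L` is a level of `N`. -/
def Lev (N : Set V) (L : V) : Prop := ∃ h ∈ N, Hist N h ∧ ∀ x ∈ N, (x ∈ L ↔ ∃ c ∈ h, x ⊆ c)

/-- `L` contains all elements of `N` whose rank is at most the rank of an element of `L`. -/
def RC (N : Set V) (L : V) : Prop := ∀ x ∈ L, ∀ y ∈ N, ZFSet.rank y ≤ ZFSet.rank x → y ∈ L

section

variable {N : Set V} [TrC N]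

theorem rc_of_pot {L : V} (hL : L ∈ N) {s : V → Prop} (hs : ∀ c, s c → RC N c)
    (h : ∀ x ∈ N, (x ∈ L ↔ ∃ c, s c ∧ x ⊆ c)) : RC N L := by
  intro x hx y hy hyx
  have hxN : x ∈ N := TrC.trans hL hx
  obtain ⟨c, hc, hxc⟩ := (h x hxN).1 hx
  refine (h y hy).2 ⟨c, hc, fun z hz => ?_⟩
  have h1 : ZFSet.rank z < ZFSet.rank x := (ZFSet.rank_lt_of_mem hz).trans_le hyx
  obtain ⟨w, hw, hzw⟩ := ZFSet.lt_rank_iff.1 h1
  exact hs c hc w (hxc hw) z (TrC.trans hy hz) hzw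

theorem rc_of_hist {h : V} (hh : h ∈ N) (H : Hist N h) (r : V) : r ∈ h → RC N r := by
  induction r using ZFSet.mem_wf.induction with
  | _ r ih =>
    intro hr
    refine rc_of_pot (TrC.trans hh hr) (s := fun c => c ∈ h ∧ c ∈ r)
      (fun c hc => ih c hc.2 hc.1) fun x hx => ?_
    rw [H r hr x hx]
    simp only [and_assoc]

theorem rc_of_lev {L : V} (hL : L ∈ N) (h : Lev N L) : RC N L := by
  obtain ⟨h, hh, H, e⟩ := h
  exact rc_of_pot hL (s := fun c => c ∈ h) (fun c hc => rc_of_hist hh H c hc) e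

theorem RC.tr {L x y : V} (h : RC N L) (hL : L ∈ N) (hx : x ∈ L) (hy : y ∈ x) : y ∈ L :=
  h x hx y (TrC.trans (TrC.trans hL hx) hy) (ZFSet.rank_lt_of_mem hy).le

theorem sub_of_rank {L L' : V} (hL : L ∈ N) (h : RC N L')
    (hr : ZFSet.rank L ≤ ZFSet.rank L') : L ⊆ L' := by
  intro x hx
  by_contra hx'
  have h1 : ZFSet.rank L' ≤ ZFSet.rank x := ZFSet.rank_le_iff.2 fun y hy =>
    lt_of_not_ge fun hge => hx' (h y hy x (TrC.trans hL hx) hge)
  exact absurd (ZFSet.rank_lt_of_mem hx) (not_lt.2 (hr.trans h1))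

/-- Separation in `N`. -/
def Sp (N : Set V) : Prop := ∀ P : V → Prop, Dfn N N P → ∀ a ∈ N, ZFSet.sep P a ∈ N

theorem lev_mem (sp : Sp N) {L : V} (hL : L ∈ N) (h : Lev N L) {x : V} (hx : x ∈ L) :
    ∃ c ∈ L, Lev N c ∧ x ⊆ c := by
  obtain ⟨h, hh, H, e⟩ := h
  obtain ⟨c, hc, hxc⟩ := (e x (TrC.trans hL hx)).1 hx
  have hcN : c ∈ N := TrC.trans hh hc
  have hrc : RC N c := rc_of_hist hh H c hc
  have hs : ZFSet.sep (fun z => z ∈ c) h ∈ N :=
    sp _ (Dfn.mem DMap.id (DMap.const hcN hcN)) h hh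
  refine ⟨c, (e c hcN).2 ⟨c, hc, fun _ h => h⟩, ⟨_, hs, ?_, ?_⟩, hxc⟩
  · intro r hr y hy
    rw [ZFSet.mem_sep] at hr
    rw [H r hr.1 y hy]
    constructor
    · rintro ⟨c', h1, h2, h3⟩
      exact ⟨c', ZFSet.mem_sep.2 ⟨h1, hrc.tr hcN hr.2 h2⟩, h2, h3⟩
    · rintro ⟨c', h1, h2, h3⟩
      exact ⟨c', (ZFSet.mem_sep.1 h1).1, h2, h3⟩
  · intro y hy
    rw [H c hc y hy]
    constructor
    · rintro ⟨c', h1, h2, h3⟩
      exact ⟨c', ZFSet.mem_sep.2 ⟨h1, h2⟩, h3⟩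
    · rintro ⟨c', h1, h3⟩
      exact ⟨c', (ZFSet.mem_sep.1 h1).1, (ZFSet.mem_sep.1 h1).2, h3⟩

theorem dfn_hist : Dfn N N (fun h : V => Hist N h) := by
  unfold Hist
  apply_rules (transparency := .reducible) (maxDepth := 999) only using is_poly

theorem dfn_lev : Dfn N N (fun L : V => Lev N L) := by
  unfold Lev
  refine Dfn.ex (Dfn.and (dfn_hist.comp (DMap.snd DMap.id)) ?_)
  apply_rules (transparency := .reducible) (maxDepth := 999) only using is_poly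

/-- `U` is a union of levels. -/
def UL (N : Set V) (U : V) : Prop := ∀ x ∈ U, ∃ L ∈ N, L ⊆ U ∧ Lev N L ∧ x ∈ L

theorem rc_of_ul {U : V} (h : UL N U) : RC N U := by
  intro x hx y hy hyx
  obtain ⟨L, hL, hLU, hlev, hxL⟩ := h x hx
  exact hLU (rc_of_lev hL hlev x hxL y hy hyx)

theorem lev_next (sp : Sp N) (up : ∀ x y : V, x ∈ N → y ∈ N → ({x, y} : V) ∈ N)
    (un : ∀ x ∈ N, (ZFSet.sUnion x : V) ∈ N)
    (pw : ∀ x ∈ N, ZFSet.sep (fun y => y ∈ N) (ZFSet.powerset x) ∈ N)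
    {U : V} (hU : U ∈ N) (hu : UL N U) : ∃ L ∈ N, Lev N L ∧ ∀ x ∈ N, x ⊆ U → x ∈ L := by
  have hrc : RC N U := rc_of_ul hu
  have hs : ZFSet.sep (Lev N) U ∈ N := sp _ dfn_lev U hU
  have hh : (ZFSet.sUnion ({({U, U} : V), ZFSet.sep (Lev N) U} : V) : V) ∈ N :=
    un _ (up _ _ (up _ _ hU hU) hs)
  have hm : ∀ c, c ∈ (ZFSet.sUnion ({({U, U} : V), ZFSet.sep (Lev N) U} : V) : V) ↔
      c = U ∨ (c ∈ U ∧ Lev N c) := by
    intro c
    simp only [ZFSet.mem_sUnion, ZFSet.mem_pair, exists_eq_or_imp, exists_eq_left,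
      ZFSet.mem_sep, or_self]
  refine ⟨_, pw U hU, ⟨_, hh, ?_, ?_⟩, fun x hx hxU =>
    ZFSet.mem_sep.2 ⟨ZFSet.mem_powerset.2 hxU, hx⟩⟩
  · intro r hr x hx
    rcases (hm r).1 hr with rfl | ⟨hrU, hrl⟩
    · constructor
      · intro hxU
        obtain ⟨L, hL, hLU, hlev, hxL⟩ := hu x hxU
        obtain ⟨c, hc, hcl, hxc⟩ := lev_mem sp hL hlev hxL
        exact ⟨c, (hm c).2 (Or.inr ⟨hLU hc, hcl⟩), hLU hc, hxc⟩
      · rintro ⟨c, _, hc, hxc⟩
        exact hrc c hc x hx (ZFSet.rank_mono hxc)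
    · have hrN : r ∈ N := TrC.trans hU hrU
      constructor
      · intro hxr
        obtain ⟨c, hc, hcl, hxc⟩ := lev_mem sp hrN hrl hxr
        exact ⟨c, (hm c).2 (Or.inr ⟨hrc.tr hU hrU hc, hcl⟩), hc, hxc⟩
      · rintro ⟨c, _, hc, hxc⟩
        exact rc_of_lev hrN hrl c hc x hx (ZFSet.rank_mono hxc)
  · intro x hx
    rw [ZFSet.mem_sep, ZFSet.mem_powerset]
    constructor
    · rintro ⟨h1, _⟩
      exact ⟨U, (hm U).2 (Or.inl rfl), h1⟩
    · rintro ⟨c, hc, hxc⟩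
      rcases (hm c).1 hc with rfl | ⟨hcU, _⟩
      · exact ⟨hxc, hx⟩
      · exact ⟨fun z hz => hrc.tr hU hcU (hxc hz), hx⟩

/-- Collection for levels. -/
theorem lev_coll (em : (∅ : V) ∈ N) (un : ∀ x ∈ N, (ZFSet.sUnion x : V) ∈ N)
    (rp : ∀ F : V → V, DMap N N F → ∀ a ∈ N, rep a F ∈ N) {Q : V → V → Prop}
    (hQ : Dfn N N (fun p : V × V => Q p.1 p.2)) {a : V} (ha : a ∈ N)
    (h : ∀ x ∈ a, ∃ L ∈ N, Lev N L ∧ Q x L) :
    ∃ U ∈ N, UL N U ∧ ∀ x ∈ a, ∃ L ∈ N, L ⊆ U ∧ Lev N L ∧ Q x L := by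
  classical
  let R : V → V → Prop := fun x z => z ∈ N ∧ Lev N z ∧ Q x z ∧
    ∀ L ∈ N, Lev N L → Q x L → z ⊆ L
  have hR : ∀ x z z', R x z → R x z' → z = z' := by
    intro x z z' h1 h2
    ext w
    exact ⟨fun hw => h1.2.2.2 z' h2.1 h2.2.1 h2.2.2.1 hw,
      fun hw => h2.2.2.2 z h1.1 h1.2.1 h1.2.2.1 hw⟩
  have hex : ∀ x, (∃ L ∈ N, Lev N L ∧ Q x L) → ∃ z, R x z := by
    rintro x ⟨L, hL, h1, h2⟩
    obtain ⟨z, hz, hmin⟩ := (InvImage.wf (ZFSet.rank : V → _) Ordinal.lt_wf).has_min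
      {L | L ∈ N ∧ Lev N L ∧ Q x L} ⟨L, hL, h1, h2⟩
    refine ⟨z, hz.1, hz.2.1, hz.2.2, fun L' hL' h3 h4 => ?_⟩
    exact sub_of_rank hz.1 (rc_of_lev hL' h3) (not_lt.1 (hmin L' ⟨hL', h3, h4⟩))
  let f : V → V := fun x => if hx : ∃ z, R x z then hx.choose else ∅
  have hf1 : ∀ x, (∃ z, R x z) → R x (f x) := by
    intro x hx
    show R x (if hx : ∃ z, R x z then hx.choose else ∅)
    rw [dif_pos hx]
    exact hx.choose_spec
  have hf2 : ∀ x, (¬ ∃ z, R x z) → f x = ∅ := fun x hx => dif_neg hx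
  have hF : DMap N N f := by
    refine DMap.of_graph (fun x _ => ?_) ?_
    · by_cases hx : ∃ z, R x z
      · exact (hf1 x hx).1
      · rw [hf2 x hx]
        exact em
    · refine Dfn.congr' (P := fun p : V × V => (Lev N p.2 ∧ Q p.1 p.2 ∧
        ∀ L ∈ N, (Lev N L → (Q p.1 L → p.2 ⊆ L))) ∨
        ((¬ ∃ L ∈ N, (Lev N L ∧ Q p.1 L)) ∧ p.2 = ∅)) (fun p hp => ?_) ?_
      · have hp2 : p.2 ∈ N := (inM_prod.1 hp).2
        constructor
        · intro e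
          by_cases hx : ∃ z, R p.1 z
          · left
            rw [e]
            exact (hf1 _ hx).2
          · right
            exact ⟨fun h' => hx (hex _ h'), by rw [e, hf2 _ hx]⟩
        · rintro (h1 | ⟨h1, h2⟩)
          · have h2 : R p.1 p.2 := ⟨hp2, h1⟩
            exact hR _ _ _ h2 (hf1 _ ⟨_, h2⟩)
          · rw [h2, hf2]
            rintro ⟨z, hz⟩
            exact h1 ⟨z, hz.1, hz.2.1, hz.2.2.1⟩
      · have hQ1 : Dfn N N (fun p : (V × V) × V => Q p.1.1 p.2) :=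
          hQ.comp (DMap.prodMk (DMap.fst (DMap.fst DMap.id)) (DMap.snd DMap.id))
        have hL1 : Dfn N N (fun p : (V × V) × V => Lev N p.2) := dfn_lev.comp (DMap.snd DMap.id)
        have hL2 : Dfn N N (fun p : V × V => Lev N p.2) := dfn_lev.comp (DMap.snd DMap.id)
        refine Dfn.or (Dfn.and hL2 (Dfn.and hQ (Dfn.all (Dfn.imp hL1 (Dfn.imp hQ1 ?_)))))
          (Dfn.and (Dfn.not (Dfn.ex (Dfn.and hL1 hQ1)))
            (Dfn.eq (DMap.snd DMap.id) (DMap.const em em)))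
        exact Dfn.subset (DMap.snd (DMap.fst DMap.id)) (DMap.snd DMap.id)
  have hfR : ∀ x ∈ a, R x (f x) := fun x hx => hf1 x (hex x (h x hx))
  have hsub : ∀ x ∈ a, f x ⊆ (ZFSet.sUnion (rep a f) : V) := by
    intro x hx z hz
    rw [ZFSet.mem_sUnion]
    exact ⟨f x, mem_rep.2 ⟨x, hx, rfl⟩, hz⟩
  refine ⟨ZFSet.sUnion (rep a f), un _ (rp f hF a ha), ?_, ?_⟩
  · intro z hz
    rw [ZFSet.mem_sUnion] at hz
    obtain ⟨y, hy, hz⟩ := hz
    obtain ⟨x, hx, rfl⟩ := mem_rep.1 hy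
    exact ⟨f x, (hfR x hx).1, hsub x hx, (hfR x hx).2.1, hz⟩
  · intro x hx
    exact ⟨f x, (hfR x hx).1, hsub x hx, (hfR x hx).2.1, (hfR x hx).2.2.1⟩

end

end COLM

open COLM in
/-- Replacement implies collection. -/
theorem COL_thm : Stmt_COL := by
  intro N inst em up un _ sp pw rp P hP a ha h
  have all : ∀ x : V, x ∈ N → ∃ L ∈ N, Lev N L ∧ x ∈ L := by
    intro x
    induction x using ZFSet.mem_wf.induction with
    | _ x ih =>
      intro hx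
      obtain ⟨U, hU, hu, h1⟩ := lev_coll em un rp (Q := fun y L => y ∈ L)
        (Dfn.mem (DMap.fst DMap.id) (DMap.snd DMap.id)) hx
        (fun y hy => ih y hy (TrC.trans hx hy))
      obtain ⟨L, hL, hlev, h2⟩ := lev_next sp up un pw hU hu
      refine ⟨L, hL, hlev, h2 x hx fun y hy => ?_⟩
      obtain ⟨L', _, hL'U, _, hyL'⟩ := h1 y hy
      exact hL'U hyL'
  obtain ⟨U, hU, _, h1⟩ := lev_coll em un rp (Q := fun x L => ∃ y ∈ L, P x y) (by
      have hP1 : Dfn N N (fun p : (V × V) × V => P p.1.1 p.2) :=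
        hP.comp (DMap.prodMk (DMap.fst (DMap.fst DMap.id)) (DMap.snd DMap.id))
      exact Dfn.ex_mem (DMap.snd DMap.id) hP1) ha
    (fun x hx => by
      obtain ⟨y, hy, hxy⟩ := h x hx
      obtain ⟨L, hL, hlev, hyL⟩ := all y hy
      exact ⟨L, hL, hlev, y, hyL, hxy⟩)
  refine ⟨U, hU, fun x hx => ?_⟩
  obtain ⟨L, _, hLU, _, y, hy, hxy⟩ := h1 x hx
  exact ⟨y, hLU hy, hxy⟩

end Pool.Agent.GMD
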