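import Pool.Agent.GMD.Bridge

/-!
Partial recursive functions are definable in transitive models.
-/

set_option autoImplicit false

namespace Pool.Agent.GMD

open Pool.Agent.CTM Pool.Agent.CTM.SO1

/-- The value of a partial number, as a set with at most one element. -/
noncomputable def pv (o : Part ℕ) : V := ZFSet.sep (fun z => ∃ m ∈ o, z = nn m) ZFSet.omega

theorem mem_pv {o : Part ℕ} {z : V} : z ∈ pv o ↔ ∃ m ∈ o, z = nn m := by
  unfold pv
  rw [ZFSet.mem_sep]
  constructor
  · exact fun h => h.2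
  · rintro ⟨m, hm, rfl⟩
    exact ⟨nn_mem_omega m, m, hm, rfl⟩

theorem nn_mem_pv {o : Part ℕ} {m : ℕ} : nn m ∈ pv o ↔ m ∈ o := by
  rw [mem_pv]
  constructor
  · rintro ⟨k, hk, e⟩
    rw [nn_inj e]
    exact hk
  · intro h
    exact ⟨m, h, rfl⟩

theorem pv_some (m : ℕ) : pv (Part.some m) = {nn m} := by
  ext z
  rw [mem_pv, ZFSet.mem_singleton]
  constructor
  · rintro ⟨k, hk, rfl⟩
    rw [Part.mem_some_iff.1 hk]
  · rintro rfl
    exact ⟨m, Part.mem_some m, rfl⟩

theorem pv_bind (o : Part ℕ) (g : ℕ → Part ℕ) :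
    pv (o.bind g) = ZFSet.sUnion (rep (pv o) fun z => pv (g (num z))) := by
  ext z
  rw [mem_pv, ZFSet.mem_sUnion]
  constructor
  · rintro ⟨m, hm, rfl⟩
    obtain ⟨a, ha, hm⟩ := Part.mem_bind_iff.1 hm
    exact ⟨pv (g a), mem_rep.2 ⟨nn a, nn_mem_pv.2 ha, by rw [num_nn]⟩, nn_mem_pv.2 hm⟩
  · rintro ⟨y, hy, hz⟩
    obtain ⟨w, hw, rfl⟩ := mem_rep.1 hy
    obtain ⟨a, ha, rfl⟩ := mem_pv.1 hw
    rw [num_nn] at hz
    obtain ⟨m, hm, rfl⟩ := mem_pv.1 hz
    exact ⟨m, Part.mem_bind_iff.2 ⟨a, ha, hm⟩, rfl⟩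

section

variable {Γ : Type 1} [Ctx Γ] {A N : Set V} [ZFm N]

theorem dmap_natpair {f g : Γ → V} (hf : DMap A N f) (hg : DMap A N g) :
    DMap A N (fun γ => nn (Nat.pair (num (f γ)) (num (g γ)))) := by
  classical
  have h1 : DMap A N (fun γ => nn (num (g γ) * num (g γ) + num (f γ))) :=
    (DMap.add (DMap.mul hg hg) hf).congr fun γ _ => by rw [num_nn]
  have h2 : DMap A N (fun γ => nn (num (f γ) * num (f γ) + num (f γ) + num (g γ))) :=
    (DMap.add (DMap.add (DMap.mul hf hf) hf) hg).congr fun γ _ => by rw [num_nn, num_nn]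
  refine (DMap.ite (P := fun γ => nn (num (f γ)) ∈ nn (num (g γ)))
    (Dfn.mem (DMap.nnum hf) (DMap.nnum hg)) h1 h2).congr fun γ _ => ?_
  unfold Nat.pair
  by_cases h : num (f γ) < num (g γ)
  · rw [if_pos (nn_mem_nn.2 h), if_pos h]
  · rw [if_neg (fun h' => h (nn_mem_nn.1 h')), if_neg h]

theorem dmap_unpair1 {f : Γ → V} (hf : DMap A N f) :
    DMap A N (fun γ => nn (num (f γ)).unpair.1) := by
  refine DMap.of_graph (fun γ _ => nn_mem _) ?_
  have hf' : DMap A N (fun p : (Γ × V) × V => f p.1.1) :=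
    hf.comp (DMap.fst (DMap.fst DMap.id))
  refine Dfn.congr' (P := fun p : Γ × V => p.2 ∈ (ZFSet.omega : V) ∧ ∃ b ∈ (ZFSet.omega : V),
    nn (Nat.pair (num p.2) (num b)) = nn (num (f p.1))) (fun p _ => ?_) ?_
  · constructor
    · intro e
      rw [e]
      refine ⟨nn_mem_omega _, nn (num (f p.1)).unpair.2, nn_mem_omega _, ?_⟩
      rw [num_nn, num_nn, Nat.pair_unpair]
    · rintro ⟨h1, b, hb, e⟩
      rw [← nn_inj e, Nat.unpair_pair, nn_num h1]
  · refine Dfn.and (Dfn.mem (DMap.snd DMap.id) DMap.omega) (Dfn.ex_mem DMap.omega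
      (Dfn.eq (dmap_natpair (DMap.snd (DMap.fst DMap.id)) (DMap.snd DMap.id)) ?_))
    exact DMap.nnum hf'

theorem dmap_unpair2 {f : Γ → V} (hf : DMap A N f) :
    DMap A N (fun γ => nn (num (f γ)).unpair.2) := by
  refine DMap.of_graph (fun γ _ => nn_mem _) ?_
  have hf' : DMap A N (fun p : (Γ × V) × V => f p.1.1) :=
    hf.comp (DMap.fst (DMap.fst DMap.id))
  refine Dfn.congr' (P := fun p : Γ × V => p.2 ∈ (ZFSet.omega : V) ∧ ∃ b ∈ (ZFSet.omega : V),
    nn (Nat.pair (num b) (num p.2)) = nn (num (f p.1))) (fun p _ => ?_) ?_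
  · constructor
    · intro e
      rw [e]
      refine ⟨nn_mem_omega _, nn (num (f p.1)).unpair.1, nn_mem_omega _, ?_⟩
      rw [num_nn, num_nn, Nat.pair_unpair]
    · rintro ⟨h1, b, hb, e⟩
      rw [← nn_inj e, Nat.unpair_pair, nn_num h1]
  · refine Dfn.and (Dfn.mem (DMap.snd DMap.id) DMap.omega) (Dfn.ex_mem DMap.omega
      (Dfn.eq (dmap_natpair (DMap.snd DMap.id) (DMap.snd (DMap.fst DMap.id))) ?_))
    exact DMap.nnum hf'

end

/-- The partial function `f` is definable without parameters. -/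
def PD (N : Set V) (f : ℕ →. ℕ) : Prop := DMap ∅ N (fun x : V => pv (f (num x)))

theorem PD.app {N : Set V} {f : ℕ →. ℕ} (hf : PD N f) {Γ : Type 1} [Ctx Γ] {g : Γ → V}
    (hg : DMap ∅ N g) : DMap ∅ N (fun γ => pv (f (num (g γ)))) := hf.comp hg

theorem pd_of_partrec {N : Set V} [ZFm N] {f : ℕ →. ℕ} (h : Nat.Partrec f) : PD N f := by
  classical
  induction h with
  | zero =>
    refine (DMap.sing (DMap.nn 0)).congr fun x _ => ?_
    exact (pv_some 0).symm
  | succ =>
    refine (DMap.sing (DMap.add DMap.id (DMap.nn 1))).congr fun x _ => ?_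
    rw [num_nn]
    exact (pv_some _).symm
  | left =>
    refine (DMap.sing (dmap_unpair1 DMap.id)).congr fun x _ => ?_
    exact (pv_some _).symm
  | right =>
    refine (DMap.sing (dmap_unpair2 DMap.id)).congr fun x _ => ?_
    exact (pv_some _).symm
  | @pair f g _ _ hf hg =>
    have h1 : DMap ∅ N (fun x : V => ZFSet.sUnion (rep (pv (f (num x))) fun z =>
        ZFSet.sUnion (rep (pv (g (num x))) fun w =>
          {nn (Nat.pair (num z) (num w))}) : V)) := by
      refine DMap.sUnion (DMap.rep (hf.app DMap.id) (DMap.sUnion (DMap.rep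
        (hg.app (DMap.fst DMap.id)) (DMap.sing (dmap_natpair ?_ (DMap.snd DMap.id))))))
      exact DMap.snd (DMap.fst DMap.id)
    refine h1.congr fun x _ => ?_
    have e : (Nat.pair <$> f (num x) <*> g (num x)) =
        (f (num x)).bind fun a => (g (num x)).bind fun b => Part.some (Nat.pair a b) := by
      simp [Seq.seq, Part.bind_some_eq_map, Part.map_eq_map]
    show _ = pv (Nat.pair <$> f (num x) <*> g (num x))
    rw [e, pv_bind]
    congr 1
    ext y
    simp only [mem_rep, pv_bind, pv_some]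
  | @comp f g _ _ hf hg =>
    have h1 : DMap ∅ N (fun x : V => ZFSet.sUnion (rep (pv (g (num x))) fun z =>
        pv (f (num z)) : V)) := by
      refine DMap.sUnion (DMap.rep (hg.app DMap.id) ?_)
      exact hf.app (DMap.snd DMap.id)
    refine h1.congr fun x _ => ?_
    exact (pv_bind _ _).symm
  | @prec f g _ _ hf hg =>
    -- the recursion, with the parameter `a`
    let F : V → V → V := fun a n => pv (Nat.rec (f (num a))
      (fun y IH => IH.bind fun i => g (Nat.pair (num a) (Nat.pair y i))) (num n))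
    have hF : DMap ∅ N (fun p : V × V => F p.1 p.2) := by
      refine DMap.recΓ (D := fun _ n => n)
        (H := fun a n s => if n ∈ (ZFSet.omega : V) ∧ ¬ n = ∅ then
          ZFSet.sUnion (rep (CTM.app s (ZFSet.sUnion n)) fun i =>
            pv (g (num (nn (Nat.pair (num a) (num (nn (Nat.pair (num (ZFSet.sUnion n))
              (num i)))))))))
          else pv (f (num a))) (DMap.snd DMap.id) ?_ ?_ (· ∈ ·) ZFSet.mem_wf
          (fun _ _ _ _ _ h => h)
      · refine DMap.ite ?_ ?_ ?_
        · apply_rules (transparency := .reducible) (maxDepth := 999) only [DMap.omega] using is_poly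
        · refine DMap.sUnion (DMap.rep ?_ ?_)
          · apply_rules (transparency := .reducible) (maxDepth := 999) only using is_poly
          · refine hg.app (dmap_natpair ?_ (dmap_natpair ?_ ?_))
            · exact DMap.fst (DMap.fst (DMap.fst DMap.id))
            · apply_rules (transparency := .reducible) (maxDepth := 999) only using is_poly
            · exact DMap.snd DMap.id
        · exact hf.app (DMap.fst (DMap.fst DMap.id))
      · intro a _ n _
        by_cases hn : n ∈ (ZFSet.omega : V)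
        · obtain ⟨m, rfl⟩ := mem_omega.1 hn
          cases m with
          | zero =>
            rw [if_neg (fun h => h.2 rfl)]
            show pv (Nat.rec _ _ (num (nn 0))) = _
            rw [num_nn]
            rfl
          | succ m =>
            have hne : ¬ nn (m + 1) = ∅ := by
              intro h
              have h1 : nn m ∈ nn (m + 1) := nn_mem_nn.2 (Nat.lt_succ_self m)
              rw [h] at h1
              exact ZFSet.notMem_empty _ h1
            rw [if_pos ⟨hn, hne⟩, sUnion_nn_succ, CTM.app_gr (nn_mem_nn.2 (Nat.lt_succ_self m))]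
            show pv (Nat.rec _ _ (num (nn (m + 1)))) = _
            rw [num_nn]
            show pv (Part.bind _ _) = _
            rw [pv_bind]
            have e : F a (nn m) = pv (Nat.rec (f (num a))
              (fun y IH => IH.bind fun i => g (Nat.pair (num a) (Nat.pair y i))) m) := by
              show pv (Nat.rec _ _ (num (nn m))) = _
              rw [num_nn]
            rw [e]
            congr 1
            ext y
            simp only [mem_rep, num_nn]
        · rw [if_neg (fun h => hn h.1)]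
          show pv (Nat.rec _ _ (num n)) = _
          rw [SO1.num_of_notMem hn]
          rfl
    have h1 := hF.comp (g := fun x : V => (nn (num x).unpair.1, nn (num x).unpair.2))
      (DMap.prodMk (dmap_unpair1 DMap.id) (dmap_unpair2 DMap.id))
    refine h1.congr fun x _ => ?_
    show pv (Nat.rec (f (num (nn (num x).unpair.1))) _ (num (nn (num x).unpair.2))) = _
    rw [num_nn, num_nn]
    rfl
  | @rfind f _ hf =>
    have h1 : DMap ∅ N (fun x : V => ZFSet.sep (fun z =>
        (∅ : V) ∈ pv (f (num (nn (Nat.pair (num x) (num z))))) ∧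
        ∀ k ∈ z, ∃ v ∈ pv (f (num (nn (Nat.pair (num x) (num k))))), ¬ v = ∅) ZFSet.omega) := by
      refine DMap.sep DMap.omega (Dfn.and (Dfn.mem DMap.empty ?_) (Dfn.all_mem
        (DMap.snd DMap.id) (Dfn.ex_mem ?_ ?_)))
      · exact hf.app (dmap_natpair (DMap.fst DMap.id) (DMap.snd DMap.id))
      · exact hf.app (dmap_natpair (DMap.fst (DMap.fst DMap.id)) (DMap.snd DMap.id))
      · exact Dfn.not (Dfn.eq (DMap.snd DMap.id) DMap.empty)
    refine h1.congr fun x _ => ?_
    ext z
    rw [ZFSet.mem_sep]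
    constructor
    · rintro ⟨hz, h2, h3⟩
      obtain ⟨m, rfl⟩ := mem_omega.1 hz
      refine mem_pv.2 ⟨m, ?_, rfl⟩
      rw [num_nn, num_nn] at h2
      refine Nat.mem_rfind.2 ⟨?_, fun {k} hk => ?_⟩
      · have h4 : (0 : ℕ) ∈ f (Nat.pair (num x) m) := nn_mem_pv.1 h2
        exact (Part.mem_map_iff _).2 ⟨0, h4, by simp⟩
      · obtain ⟨v, hv, hv0⟩ := h3 (nn k) (nn_mem_nn.2 hk)
        rw [num_nn, num_nn] at hv
        obtain ⟨c, hc, rfl⟩ := mem_pv.1 hv
        refine (Part.mem_map_iff _).2 ⟨c, hc, ?_⟩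
        have : c ≠ 0 := by
          rintro rfl
          exact hv0 rfl
        simp [this]
    · intro hz
      obtain ⟨m, hm, rfl⟩ := mem_pv.1 hz
      have hm := Nat.mem_rfind.1 hm
      refine ⟨nn_mem_omega m, ?_, fun k hk => ?_⟩
      · rw [num_nn, num_nn]
        obtain ⟨c, hc, e⟩ := (Part.mem_map_iff _).1 hm.1
        have : c = 0 := by simpa using e
        subst this
        exact nn_mem_pv.2 hc
      · obtain ⟨j, hj, rfl⟩ := mem_nn.1 hk
        obtain ⟨c, hc, e⟩ := (Part.mem_map_iff _).1 (hm.2 hj)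
        have hc0 : c ≠ 0 := by simpa using e
        rw [num_nn, num_nn]
        refine ⟨nn c, nn_mem_pv.2 hc, fun h => hc0 ?_⟩
        exact nn_inj (h.trans (rfl : (∅ : V) = nn 0))

end Pool.Agent.GMD
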