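import Pool.Agent.GMD.Stmts2

/-!
Module DIC (MP_3241a1_lc): a dichotomy for the reals defined in generic extensions.
-/

set_option autoImplicit false

namespace Pool.Agent.GMD

open Pool.Agent.CTM

namespace DICM

section

variable {M : Set V} {P : V} {n : ℕ}

/-- The names for the parameters and for `z`. -/
noncomputable def nmv (v : Fin n → V) (z : V) : Fin (n + 1) → V :=
  Fin.snoc (fun i => chk (v i)) (chk z)

/-- `p ∈ P` forces `φ(v, z)`. -/
def FF (M : Set V) (P : V) (φ : Fm Empty (n + 1)) (v : Fin n → V) (z p : V) : Prop :=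
  p ∈ P ∧ Frc M P p φ (nmv v z)

/-- `φ(v, z)` holds in the extension. -/
def TT (M : Set V) (φ : Fm Empty (n + 1)) (v : Fin n → V) (G z : V) : Prop :=
  φ.Sat (Ext M G) (fun x y => x ∈ y) Empty.elim (Fin.snoc v z)

theorem val_nmv {G : V} (hG : ∅ ∈ G) (v : Fin n → V) (z : V) :
    (fun i => val G (nmv v z i)) = (Fin.snoc v z : Fin (n + 1) → V) := by
  funext i
  refine Fin.lastCases ?_ (fun i => ?_) i
  · simp [nmv, val_chk hG]
  · simp [nmv, val_chk hG]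

variable {φ : Fm Empty (n + 1)} {v : Fin n → V}

theorem FF.holds {G z p : V} (hG : Generic M P G) (hp : p ∈ G) (h : FF M P φ v z p) :
    TT M φ v G z := by
  have h1 := h.2 G hG hp
  rw [val_nmv hG.empty_mem] at h1
  exact h1

theorem FF.fails {G z p : V} (hG : Generic M P G) (hp : p ∈ G) (h : FF M P φ.neg v z p) :
    ¬ TT M φ v G z := FF.holds hG hp h

theorem FF.mono {z p q : V} (h : FF M P φ v z p) (hq : q ∈ P) (hpq : p ⊆ q) :
    FF M P φ v z q :=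
  ⟨hq, fun G hG hqG => h.2 G hG (hG.down q hqG p h.1 hpq)⟩

theorem chk_mem [ZFm M] {z : V} (hz : z ∈ M) : chk z ∈ M :=
  (DMap_chk M M).mem (inM_V.2 hz)

theorem nmv_mem [ZFm M] (hv : ∀ i, v i ∈ M) {z : V} (hz : z ∈ M) (i : Fin (n + 1)) :
    nmv v z i ∈ M := by
  refine Fin.lastCases ?_ (fun i => ?_) i
  · simpa [nmv] using chk_mem hz
  · simpa [nmv] using chk_mem (hv i)

theorem truth [ZFCm M] (hM : M.Countable) (hP : P ∈ M) (h0 : ∅ ∈ P) (hv : ∀ i, v i ∈ M)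
    {G z : V} (hG : Generic M P G) (hz : z ∈ M) (h : TT M φ v G z) :
    ∃ p ∈ G, FF M P φ v z p := by
  obtain ⟨p, hp, h1⟩ := (stmt_forcing M hM P hP h0 (n + 1) φ).2 G hG (nmv v z)
    (nmv_mem hv hz) (by rw [val_nmv hG.empty_mem]; exact h)
  exact ⟨p, hp, hG.sub hp, h1⟩

theorem truth_neg [ZFCm M] (hM : M.Countable) (hP : P ∈ M) (h0 : ∅ ∈ P) (hv : ∀ i, v i ∈ M)
    {G z : V} (hG : Generic M P G) (hz : z ∈ M) (h : ¬ TT M φ v G z) :
    ∃ p ∈ G, FF M P φ.neg v z p := truth hM hP h0 hv hG hz h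

theorem dfn_FF [ZFCm M] (hM : M.Countable) (hP : P ∈ M) (h0 : ∅ ∈ P) (hv : ∀ i, v i ∈ M)
    (φ : Fm Empty (n + 1)) : Dfn M M (fun q : V × V => FF M P φ v q.1 q.2) := by
  have h := (stmt_forcing M hM P hP h0 (n + 1) φ).1
  have h1 := DP.ren h (Fin.natAdd 2)
  have hc : DMap M M (fun q : V × V => chk q.1) :=
    DMap.comp (f := chk) (g := fun q : V × V => q.1) (DMap_chk M M) (DMap.fst DMap.id)
  have h2 := DP.subst (n := 2) (k := n + 1 + 1)
    (R := fun _ u => u (Fin.last (n + 1)) ∈ P ∧ Frc M P (u (Fin.last (n + 1))) φ (Fin.init u)) h1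
    (g := Fin.snoc (Fin.snoc (fun i _ => chk (v i)) (fun w => chk (w 0))) (fun w => w 1)) (by
      intro i
      refine Fin.lastCases ?_ (fun i => ?_) i
      · simp only [Fin.snoc_last]
        exact DF.proj 1
      · simp only [Fin.snoc_castSucc]
        refine Fin.lastCases ?_ (fun i => ?_) i
        · simp only [Fin.snoc_last]
          exact (hc 0).congr fun w _ => rfl
        · simp only [Fin.snoc_castSucc]
          exact (DMap.const (Γ := V × V) (chk_mem (hv i)) (chk_mem (hv i))) 0)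
  refine DP.congr h2 fun w _ => ?_
  have e : Fin.init (fun i => (Fin.snoc (Fin.snoc (fun i (_ : Fin 2 → V) => chk (v i))
      (fun w => chk (w 0)) : Fin (n + 1) → (Fin 2 → V) → V) (fun w => w 1) :
      Fin (n + 1 + 1) → (Fin 2 → V) → V) i w) = nmv v (Ctx.of w : V × V).1 := by
    funext i
    unfold Fin.init nmv
    simp only [Fin.snoc_castSucc]
    refine Fin.lastCases ?_ (fun i => ?_) i
    · simp only [Fin.snoc_last]
      rfl
    · simp only [Fin.snoc_castSucc]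
  rw [e]
  simp only [Fin.snoc_last]
  rfl

end

/-! ### The tree of conditions -/

section

variable {M : Set V} {P : V}

open Classical in
/-- Enter `e n` if it is dense. -/
noncomputable def gs (e : ℕ → V) (P : V) (n : ℕ) (q : V) : V :=
  if DenseIn P (e n) then GenPf.step (e n) q else q

/-- The condition at the node `x 0, .., x (n - 1)`. -/
noncomputable def pt (e : ℕ → V) (P : V) (rr : Bool → V → V) (p : V) (x : ℕ → Bool) : ℕ → V
  | 0 => p
  | n + 1 => rr (x n) (gs e P n (pt e P rr p x n))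

/-- The filter of the branch `x`. -/
noncomputable def fl (e : ℕ → V) (P : V) (rr : Bool → V → V) (p : V) (x : ℕ → Bool) : V :=
  ZFSet.sep (fun q => ∃ n, q ⊆ pt e P rr p x n) P

variable {e : ℕ → V} {rr : Bool → V → V} {p : V}

theorem gs_sub (n : ℕ) (q : V) : q ⊆ gs e P n q := by
  unfold gs
  split
  · exact GenPf.step_sub _ _
  · exact fun _ h => h

theorem gs_dense {n : ℕ} {q : V} (hq : q ∈ P) (h : DenseIn P (e n)) : gs e P n q ∈ e n := by
  unfold gs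
  rw [if_pos h]
  exact GenPf.step_mem (h.2 _ hq)

theorem gs_mem {n : ℕ} {q : V} (hq : q ∈ P) : gs e P n q ∈ P := by
  by_cases h : DenseIn P (e n)
  · exact h.1 (gs_dense hq h)
  · unfold gs
    rw [if_neg h]
    exact hq

theorem pt_mem (hrr : ∀ q ∈ P, p ⊆ q → ∀ b, rr b q ∈ P ∧ q ⊆ rr b q) (hp : p ∈ P)
    (x : ℕ → Bool) : ∀ n, pt e P rr p x n ∈ P ∧ p ⊆ pt e P rr p x n
  | 0 => ⟨hp, fun _ h => h⟩
  | n + 1 => by
    obtain ⟨h1, h2⟩ := pt_mem hrr hp x n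
    have h3 : p ⊆ gs e P n (pt e P rr p x n) := fun _ h => gs_sub n _ (h2 h)
    obtain ⟨h4, h5⟩ := hrr _ (gs_mem (e := e) (n := n) h1) h3 (x n)
    exact ⟨h4, fun _ h => h5 (h3 h)⟩

theorem gs_pt (hrr : ∀ q ∈ P, p ⊆ q → ∀ b, rr b q ∈ P ∧ q ⊆ rr b q) (hp : p ∈ P)
    (x : ℕ → Bool) (n : ℕ) :
    gs e P n (pt e P rr p x n) ∈ P ∧ p ⊆ gs e P n (pt e P rr p x n) :=
  ⟨gs_mem (pt_mem hrr hp x n).1, fun _ h => gs_sub n _ ((pt_mem hrr hp x n).2 h)⟩

theorem gs_sub_pt (hrr : ∀ q ∈ P, p ⊆ q → ∀ b, rr b q ∈ P ∧ q ⊆ rr b q) (hp : p ∈ P)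
    (x : ℕ → Bool) (n : ℕ) : gs e P n (pt e P rr p x n) ⊆ pt e P rr p x (n + 1) :=
  (hrr _ (gs_pt hrr hp x n).1 (gs_pt hrr hp x n).2 (x n)).2

theorem pt_succ (hrr : ∀ q ∈ P, p ⊆ q → ∀ b, rr b q ∈ P ∧ q ⊆ rr b q) (hp : p ∈ P)
    (x : ℕ → Bool) (n : ℕ) : pt e P rr p x n ⊆ pt e P rr p x (n + 1) :=
  fun _ h => gs_sub_pt hrr hp x n (gs_sub n _ h)

theorem pt_mono (hrr : ∀ q ∈ P, p ⊆ q → ∀ b, rr b q ∈ P ∧ q ⊆ rr b q) (hp : p ∈ P)
    (x : ℕ → Bool) {m n : ℕ} (h : m ≤ n) : pt e P rr p x m ⊆ pt e P rr p x n := by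
  induction n, h using Nat.le_induction with
  | base => exact fun _ h => h
  | succ n _ ih => exact fun _ h => pt_succ hrr hp x n (ih h)

theorem pt_congr {x y : ℕ → Bool} : ∀ {k : ℕ}, (∀ i < k, y i = x i) →
    pt e P rr p y k = pt e P rr p x k
  | 0, _ => rfl
  | k + 1, h => by
    rw [pt, pt, pt_congr (fun i hi => h i (by omega)), h k (by omega)]

theorem pt_mem_fl (hrr : ∀ q ∈ P, p ⊆ q → ∀ b, rr b q ∈ P ∧ q ⊆ rr b q) (hp : p ∈ P)
    (x : ℕ → Bool) (n : ℕ) : pt e P rr p x n ∈ fl e P rr p x :=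
  ZFSet.mem_sep.2 ⟨(pt_mem hrr hp x n).1, n, fun _ h => h⟩

theorem generic_fl (hM : M = Set.range e)
    (hrr : ∀ q ∈ P, p ⊆ q → ∀ b, rr b q ∈ P ∧ q ⊆ rr b q) (hp : p ∈ P) (h0 : ∅ ∈ P)
    (x : ℕ → Bool) : Generic M P (fl e P rr p x) := by
  subst hM
  refine ⟨?_, ?_, ?_, ?_, ?_⟩
  · exact fun q hq => (ZFSet.mem_sep.1 hq).1
  · exact ZFSet.mem_sep.2 ⟨h0, 0, fun x hx => absurd hx (ZFSet.notMem_empty x)⟩
  · intro q hq r hr hrq
    obtain ⟨n, hn⟩ := (ZFSet.mem_sep.1 hq).2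
    exact ZFSet.mem_sep.2 ⟨hr, n, fun x hx => hn (hrq hx)⟩
  · intro q hq r hr
    obtain ⟨m, hm⟩ := (ZFSet.mem_sep.1 hq).2
    obtain ⟨n, hn⟩ := (ZFSet.mem_sep.1 hr).2
    exact ⟨_, pt_mem_fl hrr hp x (max m n), fun _ hx => pt_mono hrr hp x (le_max_left m n) (hm hx),
      fun _ hx => pt_mono hrr hp x (le_max_right m n) (hn hx)⟩
  · rintro _ ⟨n, rfl⟩ hD
    exact ⟨_, gs_dense (pt_mem hrr hp x n).1 hD, ZFSet.mem_sep.2 ⟨(gs_pt hrr hp x n).1, n + 1,
      gs_sub_pt hrr hp x n⟩⟩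

end

end DICM

open DICM in
/-- **Module DIC.** -/
theorem DIC_thm : Stmt_DIC := by
  intro M _ hM P hP h0 n φ v hv
  by_cases hA : ∀ G, Generic M P G → ZFSet.sep (fun z =>
    φ.Sat (Ext M G) (fun x y => x ∈ y) Empty.elim (Fin.snoc v z)) ZFSet.omega ∈ M
  · exact Or.inl hA
  right
  push Not at hA
  obtain ⟨G, hG, hGM⟩ := hA
  have hω : (ZFSet.omega : V) ∈ M := ZFm.omega_mem
  have hωM : ∀ {z : V}, z ∈ (ZFSet.omega : V) → z ∈ M := fun h => TrC.trans hω h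
  have hcP : ∀ {Γ : Type 1} [Ctx Γ], DMap M M (fun _ : Γ => P) := DMap.const hP hP
  have hcω : ∀ {Γ : Type 1} [Ctx Γ], DMap M M (fun _ : Γ => (ZFSet.omega : V)) :=
    DMap.const hω hω
  have hF1 : ∀ {Γ : Type 1} [Ctx Γ] {f g : Γ → V}, DMap M M f → DMap M M g →
      Dfn M M (fun γ => FF M P φ v (f γ) (g γ)) := fun {Γ} _ {f g} h h' =>
    Dfn.comp (P := fun q : V × V => FF M P φ v q.1 q.2) (g := fun γ => (f γ, g γ))
      (dfn_FF hM hP h0 hv φ) (h.prodMk h')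
  have hF0 : ∀ {Γ : Type 1} [Ctx Γ] {f g : Γ → V}, DMap M M f → DMap M M g →
      Dfn M M (fun γ => FF M P φ.neg v (f γ) (g γ)) := fun {Γ} _ {f g} h h' =>
    Dfn.comp (P := fun q : V × V => FF M P φ.neg v q.1 q.2) (g := fun γ => (f γ, g γ))
      (dfn_FF hM hP h0 hv φ.neg) (h.prodMk h')
  -- below some condition nothing decides everything
  have hD : Dfn M M (fun r : V => (∀ z ∈ (ZFSet.omega : V), FF M P φ v z r ∨ FF M P φ.neg v z r) ∨
      ∀ s ∈ P, r ⊆ s → ¬ ∀ z ∈ (ZFSet.omega : V), FF M P φ v z s ∨ FF M P φ.neg v z s) := by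
    apply_rules (transparency := .reducible) (maxDepth := 999) only [hcP, hcω, hF1, hF0] using is_poly
  obtain ⟨p, hp, hpG⟩ := hG.meets _ (ZFm.sep_mem hD hP) ⟨fun r hr => (ZFSet.mem_sep.1 hr).1, by
    intro r hr
    by_cases h1 : ∃ s ∈ P, r ⊆ s ∧ ∀ z ∈ (ZFSet.omega : V), FF M P φ v z s ∨ FF M P φ.neg v z s
    · obtain ⟨s, hs, h2, h3⟩ := h1
      exact ⟨s, ZFSet.mem_sep.2 ⟨hs, Or.inl h3⟩, h2⟩
    · exact ⟨r, ZFSet.mem_sep.2 ⟨hr, Or.inr fun s hs h2 h3 => h1 ⟨s, hs, h2, h3⟩⟩, fun _ h => h⟩⟩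
  obtain ⟨hpP, hp1⟩ := ZFSet.mem_sep.1 hp
  have hp2 : ∀ s ∈ P, p ⊆ s → ¬ ∀ z ∈ (ZFSet.omega : V), FF M P φ v z s ∨ FF M P φ.neg v z s := by
    rcases hp1 with h1 | h1
    · exfalso
      apply hGM
      have hpM : p ∈ M := TrC.trans hP hpP
      have hcp : ∀ {Γ : Type 1} [Ctx Γ], DMap M M (fun _ : Γ => p) := DMap.const hpM hpM
      have h2 : Dfn M M (fun z : V => FF M P φ v z p) := by
        apply_rules (transparency := .reducible) (maxDepth := 999) only [hcp, hF1] using is_poly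
      have h3 := ZFm.sep_mem h2 hω
      have h4 : ZFSet.sep (fun z => FF M P φ v z p) ZFSet.omega = ZFSet.sep (fun z =>
          φ.Sat (Ext M G) (fun x y => x ∈ y) Empty.elim (Fin.snoc v z)) ZFSet.omega := by
        ext z
        rw [ZFSet.mem_sep, ZFSet.mem_sep]
        refine and_congr_right fun hz => ?_
        constructor
        · intro h5
          exact h5.holds hG hpG
        · intro h5
          rcases h1 z hz with h6 | h6
          · exact h6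
          · exact absurd h5 (h6.fails hG hpG)
      rw [← h4]
      exact h3
    · exact h1
  -- splitting
  have hsp : ∀ q : V, ∃ (m : ℕ) (r0 r1 : V), q ∈ P → p ⊆ q → (r0 ∈ P ∧ q ⊆ r0 ∧
      FF M P φ.neg v (nn m) r0) ∧ (r1 ∈ P ∧ q ⊆ r1 ∧ FF M P φ v (nn m) r1) := by
    intro q
    by_cases hq : q ∈ P ∧ p ⊆ q
    · have h1 := hp2 q hq.1 hq.2
      push Not at h1
      obtain ⟨z, hz, h2, h3⟩ := h1
      obtain ⟨m, rfl⟩ := mem_omega_iff.1 hz
      -- a generic filter for the opposite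
      have h4 : ∃ r0, r0 ∈ P ∧ q ⊆ r0 ∧ FF M P φ.neg v (nn m) r0 := by
        have h5 : ∃ G, Generic M P G ∧ q ∈ G ∧ ¬ TT M φ v G (nn m) := by
          by_contra hc
          push Not at hc
          refine h2 ⟨hq.1, fun G hG hqG => ?_⟩
          rw [val_nmv hG.empty_mem]
          exact hc G hG hqG
        obtain ⟨G', hG', hqG', h6⟩ := h5
        obtain ⟨r, hr, h7⟩ := truth_neg hM hP h0 hv hG' (hωM hz) h6
        obtain ⟨s, hs, h8, h9⟩ := hG'.dir q hqG' r hr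
        exact ⟨s, hG'.sub hs, h8, h7.mono (hG'.sub hs) h9⟩
      have h5 : ∃ r1, r1 ∈ P ∧ q ⊆ r1 ∧ FF M P φ v (nn m) r1 := by
        have h5 : ∃ G, Generic M P G ∧ q ∈ G ∧ TT M φ v G (nn m) := by
          by_contra hc
          push Not at hc
          refine h3 ⟨hq.1, fun G hG hqG => ?_⟩
          rw [val_nmv hG.empty_mem]
          exact hc G hG hqG
        obtain ⟨G', hG', hqG', h6⟩ := h5
        obtain ⟨r, hr, h7⟩ := truth hM hP h0 hv hG' (hωM hz) h6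
        obtain ⟨s, hs, h8, h9⟩ := hG'.dir q hqG' r hr
        exact ⟨s, hG'.sub hs, h8, h7.mono (hG'.sub hs) h9⟩
      obtain ⟨r0, h6⟩ := h4
      obtain ⟨r1, h7⟩ := h5
      exact ⟨m, r0, r1, fun _ _ => ⟨h6, h7⟩⟩
    · exact ⟨0, q, q, fun h1 h2 => absurd ⟨h1, h2⟩ hq⟩
  choose mm r0 r1 hr using hsp
  set rr : Bool → V → V := fun b q => if b then r1 q else r0 q with hrrdef
  have hrr : ∀ q ∈ P, p ⊆ q → ∀ b, rr b q ∈ P ∧ q ⊆ rr b q := by
    intro q hq hpq b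
    obtain ⟨h1, h2⟩ := hr q hq hpq
    cases b
    · exact ⟨h1.1, h1.2.1⟩
    · exact ⟨h2.1, h2.2.1⟩
  obtain ⟨e, he⟩ := hM.exists_eq_range ⟨P, hP⟩
  have hrange : ∀ z ∈ M, ∃ k, e k = z := by
    rw [he]
    rintro _ ⟨k, rfl⟩
    exact ⟨k, rfl⟩
  have hgen : ∀ x, Generic M P (fl e P rr p x) := fun x => generic_fl he hrr hpP h0 x
  refine ⟨fl e P rr p, hgen, ?_, ?_⟩
  · intro x m
    have hmω : nn m ∈ (ZFSet.omega : V) := mem_omega_iff.2 ⟨m, rfl⟩
    have hmM : nn m ∈ M := hωM hmω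
    have hcm : ∀ {Γ : Type 1} [Ctx Γ], DMap M M (fun _ : Γ => nn m) := DMap.const hmM hmM
    have hE : Dfn M M (fun q : V => FF M P φ v (nn m) q ∨ FF M P φ.neg v (nn m) q) := by
      apply_rules (transparency := .reducible) (maxDepth := 999) only [hcm, hF1, hF0] using is_poly
    have hEM := ZFm.sep_mem hE hP
    have hEd : DenseIn P (ZFSet.sep (fun q : V => FF M P φ v (nn m) q ∨
        FF M P φ.neg v (nn m) q) P) := by
      refine ⟨fun r hr => (ZFSet.mem_sep.1 hr).1, ?_⟩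
      intro q hq
      obtain ⟨G', hG', hqG'⟩ := stmt_generic M hM P hP q hq h0
      by_cases h6 : TT M φ v G' (nn m)
      · obtain ⟨r, hr, h7⟩ := truth hM hP h0 hv hG' hmM h6
        obtain ⟨s, hs, h8, h9⟩ := hG'.dir q hqG' r hr
        exact ⟨s, ZFSet.mem_sep.2 ⟨hG'.sub hs, Or.inl (h7.mono (hG'.sub hs) h9)⟩, h8⟩
      · obtain ⟨r, hr, h7⟩ := truth_neg hM hP h0 hv hG' hmM h6
        obtain ⟨s, hs, h8, h9⟩ := hG'.dir q hqG' r hr
        exact ⟨s, ZFSet.mem_sep.2 ⟨hG'.sub hs, Or.inr (h7.mono (hG'.sub hs) h9)⟩, h8⟩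
    obtain ⟨k, hk⟩ := hrange _ hEM
    rw [← hk] at hEd
    refine ⟨k + 1, fun y hy => ?_⟩
    have h1 := gs_dense (pt_mem (e := e) hrr hpP x k).1 hEd
    rw [hk] at h1
    have h2 : pt e P rr p y (k + 1) = pt e P rr p x (k + 1) := pt_congr hy
    have h3 := (pt_mem (e := e) hrr hpP x (k + 1)).1
    have h4 := gs_sub_pt (e := e) hrr hpP x k
    have h5 := pt_mem_fl (e := e) hrr hpP x (k + 1)
    have h6 := pt_mem_fl (e := e) hrr hpP y (k + 1)
    rw [h2] at h6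
    rcases (ZFSet.mem_sep.1 h1).2 with h7 | h7
    · have h8 := h7.mono h3 h4
      exact iff_of_true (h8.holds (hgen y) h6) (h8.holds (hgen x) h5)
    · have h8 := h7.mono h3 h4
      exact iff_of_false (h8.fails (hgen y) h6) (h8.fails (hgen x) h5)
  · intro x y hxy
    by_contra hne
    have hex : ∃ k, x k ≠ y k := by
      by_contra hc
      push Not at hc
      exact hne (funext hc)
    classical
    have hk := Nat.find_spec hex
    have hmin : ∀ i < Nat.find hex, y i = x i := fun i hi => by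
      have := Nat.find_min hex hi
      push Not at this
      exact this.symm
    generalize Nat.find hex = k at hk hmin
    have h1 : pt e P rr p y k = pt e P rr p x k := pt_congr hmin
    obtain ⟨h2, h3⟩ := gs_pt (e := e) hrr hpP x k
    obtain ⟨h4, h5⟩ := hr _ h2 h3
    have h6 := pt_mem_fl (e := e) hrr hpP x (k + 1)
    have h7 := pt_mem_fl (e := e) hrr hpP y (k + 1)
    rw [pt] at h6 h7
    rw [h1] at h7
    have h8 := hxy (mm (gs e P k (pt e P rr p x k)))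
    cases hxk : x k <;> cases hyk : y k
    · exact hk (hxk.trans hyk.symm)
    · rw [hxk] at h6
      rw [hyk] at h7
      exact h4.2.2.fails (hgen x) h6 (h8.2 (h5.2.2.holds (hgen y) h7))
    · rw [hxk] at h6
      rw [hyk] at h7
      exact h4.2.2.fails (hgen y) h7 (h8.1 (h5.2.2.holds (hgen x) h6))
    · exact hk (hxk.trans hyk.symm)

end Pool.Agent.GMD
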