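import Mathlib

/-!
Definitions for the hand-in GroundModelDepends of MP_3241a1_lc (patterns of lightface
`Σ¹ₙ`-uniformization in transitive models of ZFC, and forcing). This file uses only Mathlib.
-/

set_option autoImplicit false

namespace Pool.Agent.GMD

/-! ### Transitive models of ZFC -/

/-- Formulas of the language of set theory, with free variables among the first `n`. -/
inductive SetFormula : ℕ → Type
  | mem {n : ℕ} (i j : Fin n) : SetFormula n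
  | eq {n : ℕ} (i j : Fin n) : SetFormula n
  | not {n : ℕ} (φ : SetFormula n) : SetFormula n
  | and {n : ℕ} (φ ψ : SetFormula n) : SetFormula n
  | all {n : ℕ} (φ : SetFormula (n + 1)) : SetFormula n

/-- Truth in the structure `(N, ∈)`: quantifiers range over `N`. In `all φ` the quantified
variable is the last one. -/
def SetFormula.Holds (N : Set ZFSet.{0}) : ∀ {n : ℕ}, SetFormula n → (Fin n → ZFSet.{0}) → Prop
  | _, .mem i j, v => v i ∈ v j
  | _, .eq i j, v => v i = v j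
  | _, .not φ, v => ¬ φ.Holds N v
  | _, .and φ ψ, v => φ.Holds N v ∧ ψ.Holds N v
  | _, .all φ, v => ∀ x ∈ N, φ.Holds N (Fin.snoc v x)

/-- `N` is a transitive class of sets and `(N, ∈)` is a model of ZFC. All principles are stated in
first-order form, with all quantifiers bounded by `N`; separation and replacement are schemes over
all formulas, with parameters. (`N` may be a set or a proper class. Extensionality and foundation
hold in all transitive classes and are listed for completeness.) -/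
structure ModelZFC (N : Set ZFSet.{0}) : Prop where
  transitive : ∀ x ∈ N, ∀ y ∈ x, y ∈ N
  extensionality : ∀ x ∈ N, ∀ y ∈ N, (∀ z ∈ N, z ∈ x ↔ z ∈ y) → x = y
  foundation : ∀ x ∈ N, (∃ y ∈ N, y ∈ x) → ∃ y ∈ N, y ∈ x ∧ ∀ z ∈ N, z ∈ x → z ∉ y
  pairing : ∀ x ∈ N, ∀ y ∈ N, ∃ z ∈ N, ∀ t ∈ N, t ∈ z ↔ t = x ∨ t = y
  union : ∀ x ∈ N, ∃ u ∈ N, ∀ t ∈ N, t ∈ u ↔ ∃ z ∈ N, z ∈ x ∧ t ∈ z
  power : ∀ x ∈ N, ∃ p ∈ N, ∀ t ∈ N, t ∈ p ↔ ∀ z ∈ N, z ∈ t → z ∈ x
  infinity : ∃ x ∈ N, (∃ e ∈ N, (∀ z ∈ N, z ∉ e) ∧ e ∈ x) ∧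
    ∀ y ∈ N, y ∈ x → ∃ s ∈ N, s ∈ x ∧ ∀ t ∈ N, t ∈ s ↔ t ∈ y ∨ t = y
  separation : ∀ (n : ℕ) (φ : SetFormula (n + 1)) (v : Fin n → ZFSet.{0}), (∀ i, v i ∈ N) →
    ∀ x ∈ N, ∃ y ∈ N, ∀ t ∈ N, t ∈ y ↔ t ∈ x ∧ φ.Holds N (Fin.snoc v t)
  replacement : ∀ (n : ℕ) (φ : SetFormula (n + 2)) (v : Fin n → ZFSet.{0}), (∀ i, v i ∈ N) →
    ∀ a ∈ N, (∀ x ∈ N, x ∈ a → ∃! y, y ∈ N ∧
      φ.Holds N (Fin.snoc (Fin.snoc v x : Fin (n + 1) → ZFSet.{0}) y)) →
    ∃ b ∈ N, ∀ y ∈ N, y ∈ b ↔ ∃ x ∈ N, x ∈ a ∧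
      φ.Holds N (Fin.snoc (Fin.snoc v x : Fin (n + 1) → ZFSet.{0}) y)
  choice : ∀ x ∈ N, (∀ y ∈ N, y ∈ x → ∃ z ∈ N, z ∈ y) →
    (∀ y ∈ N, ∀ y' ∈ N, y ∈ x → y' ∈ x → (∃ z ∈ N, z ∈ y ∧ z ∈ y') → y = y') →
    ∃ c ∈ N, ∀ y ∈ N, y ∈ x → ∃! z, z ∈ N ∧ z ∈ y ∧ z ∈ c

/-! ### Reals of a model and the lightface projective classes -/

/-- The von Neumann numeral of `n`. -/
noncomputable def numeral : ℕ → ZFSet.{0}
  | 0 => ∅
  | n + 1 => insert (numeral n) (numeral n)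

/-- The function `x : ℕ → ℕ` as a set: the set of the ordered pairs `(n, x n)`. -/
noncomputable def code (x : ℕ → ℕ) : ZFSet.{0} :=
  ZFSet.range fun n : ℕ => ZFSet.pair (numeral n) (numeral (x n))

/-- The Baire space of `N`: the functions `x : ℕ → ℕ` that belong to `N`. -/
def Baire (N : Set ZFSet.{0}) : Set (ℕ → ℕ) := {x | code x ∈ N}

/-- The real that codes the pair `(x, y)`: `x` at the even places, `y` at the odd places. This is a
recursive homeomorphism between the square of the Baire space and the Baire space. -/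
def join (x y : ℕ → ℕ) : ℕ → ℕ := fun n => if n % 2 = 0 then x (n / 2) else y (n / 2)

/-- Effectively open (lightface `Σ⁰₁`) sets: there is a recursively enumerable set `W` of finite
sequences such that `x` belongs to `U` if and only if some initial segment of `x` belongs
to `W`. -/
def EffOpen (U : Set (ℕ → ℕ)) : Prop :=
  ∃ W : List ℕ → Prop, REPred W ∧ ∀ x : ℕ → ℕ, x ∈ U ↔ ∃ k : ℕ, W ((List.range k).map x)

/-- The lightface classes of subsets of the Baire space `R` of a model. For `n = 0`: the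
effectively open sets. For `n + 1`: the projections of the complements of the sets of the class
`n`. So `Sigma R n` is the lightface class `Σ¹ₙ` of the model, for `n ≥ 1`. -/
def Sigma (R : Set (ℕ → ℕ)) : ℕ → Set (ℕ → ℕ) → Prop
  | 0, A => ∃ U, EffOpen U ∧ A = U ∩ R
  | n + 1, A => ∃ B, Sigma R n B ∧ A = {x | x ∈ R ∧ ∃ y ∈ R, join x y ∉ B}

/-- A subset of the plane is in the class if the set of the codes of its points is. -/
def SigmaPlane (R : Set (ℕ → ℕ)) (n : ℕ) (A : Set ((ℕ → ℕ) × (ℕ → ℕ))) : Prop :=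
  (∀ p ∈ A, p.1 ∈ R ∧ p.2 ∈ R) ∧ Sigma R n {z | ∃ p ∈ A, z = join p.1 p.2}

/-- The (lightface) `Σ¹ₙ`-uniformization property in a model with Baire space `R`: every plane
`Σ¹ₙ` set `A` includes a plane `Σ¹ₙ` set `F` that is the graph of a function with the domain
`{x : ∃ y, (x, y) ∈ A}`. -/
def Unif (R : Set (ℕ → ℕ)) (n : ℕ) : Prop :=
  ∀ A, SigmaPlane R n A → ∃ F, SigmaPlane R n F ∧ F ⊆ A ∧
    ∀ x, (∃ y, (x, y) ∈ A) → ∃! y, (x, y) ∈ F

/-- `N` realizes the pattern `r`: for all `n ≥ 1`, `Σ¹ₙ`-uniformization holds in `N` if and only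
if `r n = 1`. -/
def Realizes (N : Set ZFSet.{0}) (r : ℕ → Bool) : Prop :=
  ∀ n, 1 ≤ n → (Unif (Baire N) n ↔ r n = true)

/-- The pattern `r` as a set, an element of `2 ^ ω`. -/
noncomputable def pcode (r : ℕ → Bool) : ZFSet.{0} := code fun n => (r n).toNat

/-! ### Forcing -/

/-- `(P, ≤)` is a forcing notion in `M`: `P` is a set in `M`, the set `L ∈ M` of ordered pairs gives a
preorder on `P` (`(p, q) ∈ L` means `p ≤ q`, that is `p` is stronger than `q`), and `t` is a largest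
element. -/
structure Forcing (M : Set ZFSet.{0}) (P L t : ZFSet.{0}) : Prop where
  P_mem : P ∈ M
  L_mem : L ∈ M
  top_mem : t ∈ P
  refl : ∀ p ∈ P, ZFSet.pair p p ∈ L
  trans : ∀ p ∈ P, ∀ q ∈ P, ∀ s ∈ P, ZFSet.pair p q ∈ L → ZFSet.pair q s ∈ L → ZFSet.pair p s ∈ L
  top : ∀ p ∈ P, ZFSet.pair p t ∈ L

/-- `G` is a generic filter over `M` for the forcing notion `(P, ≤)`: a filter on `P` that meets every
dense subset of `P` that belongs to `M`. -/
structure GenericFilter (M : Set ZFSet.{0}) (P L G : ZFSet.{0}) : Prop where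
  sub : G ⊆ P
  nonempty : ∃ p, p ∈ G
  up : ∀ p ∈ G, ∀ q ∈ P, ZFSet.pair p q ∈ L → q ∈ G
  dir : ∀ p ∈ G, ∀ q ∈ G, ∃ s ∈ G, ZFSet.pair s p ∈ L ∧ ZFSet.pair s q ∈ L
  meets : ∀ D ∈ M, D ⊆ P → (∀ p ∈ P, ∃ q ∈ D, ZFSet.pair q p ∈ L) → ∃ p ∈ G, p ∈ D

/-- `N` is the generic extension `M[G]`: the least transitive model of ZFC that includes `M` and
contains `G`. -/
structure IsExtension (M : Set ZFSet.{0}) (G : ZFSet.{0}) (N : Set ZFSet.{0}) : Prop where
  model : ModelZFC N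
  sub : M ⊆ N
  gen : G ∈ N
  least : ∀ N', ModelZFC N' → M ⊆ N' → G ∈ N' → N ⊆ N'

/-- `π` is an automorphism of `(P, ≤)` that belongs to `M`. -/
structure Automorphism (M : Set ZFSet.{0}) (P L : ZFSet.{0}) (π : ZFSet.{0} → ZFSet.{0}) :
    Prop where
  mem : ∃ f ∈ M, ∀ z, z ∈ f ↔ ∃ p ∈ P, z = ZFSet.pair p (π p)
  maps : ∀ p ∈ P, π p ∈ P
  inj : ∀ p ∈ P, ∀ q ∈ P, π p = π q → p = q
  surj : ∀ q ∈ P, ∃ p ∈ P, π p = q
  le_iff : ∀ p ∈ P, ∀ q ∈ P, (ZFSet.pair (π p) (π q) ∈ L ↔ ZFSet.pair p q ∈ L)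

/-- `(P, ≤)` is weakly homogeneous in `M`: for all `p, q ∈ P` there is an automorphism `π` in `M` such
that `π p` and `q` are compatible. -/
def WeaklyHomogeneous (M : Set ZFSet.{0}) (P L : ZFSet.{0}) : Prop :=
  ∀ p ∈ P, ∀ q ∈ P, ∃ π, Automorphism M P L π ∧
    ∃ s ∈ P, ZFSet.pair s (π p) ∈ L ∧ ZFSet.pair s q ∈ L

end Pool.Agent.GMD
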