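import Pool.Agent.GMD.Pat

/-!
One formula (with fixed hereditarily countable parameters) expresses uniformization at the level
`n` in all transitive models.
-/

set_option autoImplicit false

namespace Pool.Agent.GMD

open Pool.Agent.CTM Pool.Agent.CTM.SO1

/-! ### Uniformly definable predicates -/

section

variable {Γ : Type 1} [Ctx Γ]

/-- One formula defines `P N` in all transitive classes `N`. -/
def UDf (P : Set V → Γ → Prop) : Prop :=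
  ∃ φ : Fm Empty (Ctx.n Γ), ∀ (N : Set V) [TrC N] (γ : Γ), InM N γ →
    (φ.Sat N (fun x y => x ∈ y) Empty.elim (Ctx.get γ) ↔ P N γ)

theorem UDf.of {P : Γ → Prop} (h : D0 P) : UDf (fun _ => P) := h

theorem UDf.and {P Q : Set V → Γ → Prop} (h : UDf P) (h' : UDf Q) :
    UDf (fun N γ => P N γ ∧ Q N γ) := by
  obtain ⟨φ, h⟩ := h
  obtain ⟨ψ, h'⟩ := h'
  exact ⟨φ.and ψ, fun N _ γ hγ => and_congr (h N γ hγ) (h' N γ hγ)⟩

theorem UDf.not {P : Set V → Γ → Prop} (h : UDf P) : UDf (fun N γ => ¬ P N γ) := by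
  obtain ⟨φ, h⟩ := h
  exact ⟨φ.neg, fun N _ γ hγ => not_congr (h N γ hγ)⟩

theorem UDf.all {P : Set V → Γ × V → Prop} (h : UDf P) :
    UDf (fun N (γ : Γ) => ∀ x ∈ N, P N (γ, x)) := by
  obtain ⟨φ, h⟩ := h
  refine ⟨Fm.all (n := Ctx.n Γ) φ, fun N _ γ hγ => ?_⟩
  refine forall_congr' fun x => ?_
  exact ⟨fun H hx => (h N (γ, x) (inM_prod.2 ⟨hγ, hx⟩)).1 (H hx),
    fun H hx => (h N (γ, x) (inM_prod.2 ⟨hγ, hx⟩)).2 (H hx)⟩

theorem UDf.ex {P : Set V → Γ × V → Prop} (h : UDf P) :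
    UDf (fun N (γ : Γ) => ∃ x ∈ N, P N (γ, x)) := by
  obtain ⟨φ, h⟩ := (UDf.all (P := fun N p => ¬ P N p) h.not).not
  refine ⟨φ, fun N _ γ hγ => (h N γ hγ).trans ?_⟩
  push Not
  rfl

end

/-! ### Absolute predicates -/

/-- `x` is a function from `w` to `w`. -/
def MapD (w x : V) : Prop := IsFn x ∧ (∀ q ∈ x, ∃ n ∈ w, ∃ v ∈ w, q = ZFSet.pair n v) ∧
  ∀ n ∈ w, ∃ v ∈ w, ∃ q ∈ x, q = ZFSet.pair n v

theorem mapD_d0 : D0 (fun p : V × V => MapD p.1 p.2) := by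
  unfold MapD
  refine D0.and (D0.isFn (Prj.snd Prj.id)) ?_
  apply_rules (transparency := .reducible) (maxDepth := 999) only using is_poly

theorem mapD_iff {x : V} : MapD ZFSet.omega x ↔ IsMap x ZFSet.omega ZFSet.omega := by
  constructor
  · rintro ⟨h1, h2, h3⟩
    have hd : dom x = ZFSet.omega := by
      ext n
      rw [mem_dom]
      constructor
      · rintro ⟨v, hv⟩
        obtain ⟨n', hn', v', _, e⟩ := h2 _ hv
        obtain ⟨rfl, _⟩ := ZFSet.pair_injective e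
        exact hn'
      · intro hn
        obtain ⟨v, _, q, hq, rfl⟩ := h3 n hn
        exact ⟨v, hq⟩
    refine ⟨h1, hd, fun n hn => ?_⟩
    obtain ⟨v, hv, q, hq, rfl⟩ := h3 n hn
    rw [h1.app_eq hq]
    exact hv
  · intro h
    obtain ⟨f, rfl⟩ := isMap_iff.1 h
    refine ⟨isFn_code f, fun q hq => ?_, fun n hn => ?_⟩
    · rw [code_eq, mem_gr] at hq
      obtain ⟨n, hn, rfl⟩ := hq
      exact ⟨n, hn, _, nn_mem_omega _, rfl⟩
    · obtain ⟨n, rfl⟩ := mem_omega.1 hn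
      exact ⟨nn (f n), nn_mem_omega _, _, pair_mem_code.2 rfl, rfl⟩

/-- Membership in the effectively open set with the index `e`. -/
def InU (w E T e x : V) : Prop := ∃ m ∈ w, (∃ q ∈ E, q = ZFSet.pair e m) ∧ ∀ i ∈ w, ∀ j ∈ w,
  (∃ t ∈ T, ∃ s ∈ t, ∃ q ∈ s, q = ZFSet.pair m i ∧ t = ZFSet.pair q j) →
    ∃ q ∈ x, q = ZFSet.pair i j

theorem inU_d0 : D0 (fun p : (((V × V) × V) × V) × V =>
    InU p.1.1.1.1 p.1.1.1.2 p.1.1.2 p.1.2 p.2) := by
  unfold InU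
  apply_rules (transparency := .reducible) (maxDepth := 999) only using is_poly

/-- `z` is the join of `x` and `y`. -/
def IsJ (w E1 E2 x y z : V) : Prop := ∀ h ∈ w, ∀ n ∈ w, ∀ v ∈ w,
  ((∃ q ∈ E1, q = ZFSet.pair h n) →
    ((∃ q ∈ z, q = ZFSet.pair n v) ↔ ∃ q ∈ x, q = ZFSet.pair h v)) ∧
  ((∃ q ∈ E2, q = ZFSet.pair h n) →
    ((∃ q ∈ z, q = ZFSet.pair n v) ↔ ∃ q ∈ y, q = ZFSet.pair h v))

theorem isJ_d0 : D0 (fun p : ((((V × V) × V) × V) × V) × V =>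
    IsJ p.1.1.1.1.1 p.1.1.1.1.2 p.1.1.1.2 p.1.1.2 p.1.2 p.2) := by
  unfold IsJ
  apply_rules (transparency := .reducible) (maxDepth := 999) only using is_poly

section

variable {Γ : Type 1} [Ctx Γ]

theorem D0inU {w E T e x : Γ → V} (hw : Prj w) (hE : Prj E) (hT : Prj T) (he : Prj e)
    (hx : Prj x) : D0 (fun γ => InU (w γ) (E γ) (T γ) (e γ) (x γ)) :=
  D0.comp (P := fun p : (((V × V) × V) × V) × V =>
    InU p.1.1.1.1 p.1.1.1.2 p.1.1.2 p.1.2 p.2) inU_d0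
    (g := fun γ => ((((w γ, E γ), T γ), e γ), x γ))
    ((((hw.prodMk hE).prodMk hT).prodMk he).prodMk hx)

theorem D0isJ {w E1 E2 x y z : Γ → V} (hw : Prj w) (h1 : Prj E1) (h2 : Prj E2) (hx : Prj x)
    (hy : Prj y) (hz : Prj z) : D0 (fun γ => IsJ (w γ) (E1 γ) (E2 γ) (x γ) (y γ) (z γ)) :=
  D0.comp (P := fun p : ((((V × V) × V) × V) × V) × V =>
    IsJ p.1.1.1.1.1 p.1.1.1.1.2 p.1.1.1.2 p.1.1.2 p.1.2 p.2) isJ_d0
    (g := fun γ => (((((w γ, E1 γ), E2 γ), x γ), y γ), z γ))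
    (((((hw.prodMk h1).prodMk h2).prodMk hx).prodMk hy).prodMk hz)

end

/-- `A` is the effectively open subset of `R` with the index `e`. -/
def IsU (w E T R e A : V) : Prop := A ⊆ R ∧ ∀ x ∈ R, (x ∈ A ↔ InU w E T e x)

theorem isU_d0 : D0 (fun p : ((((V × V) × V) × V) × V) × V =>
    IsU p.1.1.1.1.1 p.1.1.1.1.2 p.1.1.1.2 p.1.1.2 p.1.2 p.2) := by
  unfold IsU
  apply_rules (transparency := .reducible) (maxDepth := 999) only [D0inU] using is_poly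

/-- `A` is the projection of the complement of `B`. -/
def IsS (w E1 E2 R B A : V) : Prop := A ⊆ R ∧ ∀ x ∈ R, (x ∈ A ↔
  ∃ y ∈ R, ∃ z ∈ R, IsJ w E1 E2 x y z ∧ ¬ z ∈ B)

theorem isS_d0 : D0 (fun p : ((((V × V) × V) × V) × V) × V =>
    IsS p.1.1.1.1.1 p.1.1.1.1.2 p.1.1.1.2 p.1.1.2 p.1.2 p.2) := by
  unfold IsS
  apply_rules (transparency := .reducible) (maxDepth := 999) only [D0isJ] using is_poly

section

variable {Γ : Type 1} [Ctx Γ]

theorem D0isU {w E T R e A : Γ → V} (hw : Prj w) (h1 : Prj E) (h2 : Prj T) (hx : Prj R)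
    (hy : Prj e) (hz : Prj A) : D0 (fun γ => IsU (w γ) (E γ) (T γ) (R γ) (e γ) (A γ)) :=
  D0.comp (P := fun p : ((((V × V) × V) × V) × V) × V =>
    IsU p.1.1.1.1.1 p.1.1.1.1.2 p.1.1.1.2 p.1.1.2 p.1.2 p.2) isU_d0
    (g := fun γ => (((((w γ, E γ), T γ), R γ), e γ), A γ))
    (((((hw.prodMk h1).prodMk h2).prodMk hx).prodMk hy).prodMk hz)

theorem D0isS {w E T R e A : Γ → V} (hw : Prj w) (h1 : Prj E) (h2 : Prj T) (hx : Prj R)
    (hy : Prj e) (hz : Prj A) : D0 (fun γ => IsS (w γ) (E γ) (T γ) (R γ) (e γ) (A γ)) :=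
  D0.comp (P := fun p : ((((V × V) × V) × V) × V) × V =>
    IsS p.1.1.1.1.1 p.1.1.1.1.2 p.1.1.1.2 p.1.1.2 p.1.2 p.2) isS_d0
    (g := fun γ => (((((w γ, E γ), T γ), R γ), e γ), A γ))
    (((((hw.prodMk h1).prodMk h2).prodMk hx).prodMk hy).prodMk hz)

end

/-- `S` is the set of the pairs `(n, A)` with `A` in the class `n`. -/
def HierS (w E T E1 E2 R S : V) : Prop :=
  (∀ q ∈ S, ∀ t ∈ q, ∀ A ∈ t, ∀ n ∈ w, q = ZFSet.pair n A →
    ((∀ u ∈ n, False) → ∃ e ∈ w, IsU w E T R e A) ∧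
    ∀ k ∈ n, (∀ u ∈ n, u ∈ k ∨ u = k) →
      ∃ q' ∈ S, ∃ t' ∈ q', ∃ B ∈ t', q' = ZFSet.pair k B ∧ IsS w E1 E2 R B A) ∧
  (∀ n ∈ w, (∀ u ∈ n, False) → ∀ e ∈ w, ∃ q ∈ S, ∃ t ∈ q, ∃ A ∈ t, q = ZFSet.pair n A ∧
    IsU w E T R e A) ∧
  ∀ q ∈ S, ∀ t ∈ q, ∀ B ∈ t, ∀ n ∈ w, ∀ k ∈ n, (∀ u ∈ n, u ∈ k ∨ u = k) →
    q = ZFSet.pair k B → ∃ q' ∈ S, ∃ t' ∈ q', ∃ A ∈ t', q' = ZFSet.pair n A ∧
      IsS w E1 E2 R B A

/-- Uniformization at the level `n`. -/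
def UnS (w E1 E2 R S n : V) : Prop :=
  ∀ q ∈ S, ∀ t ∈ q, ∀ A ∈ t, q = ZFSet.pair n A →
    ∃ q' ∈ S, ∃ t' ∈ q', ∃ F ∈ t', q' = ZFSet.pair n F ∧
      (∀ x ∈ R, ∀ y ∈ R, ∀ z ∈ R, IsJ w E1 E2 x y z → z ∈ F → z ∈ A) ∧
      ∀ x ∈ R, (∃ y ∈ R, ∃ z ∈ R, IsJ w E1 E2 x y z ∧ z ∈ A) →
        ∃ y ∈ R, (∃ z ∈ R, IsJ w E1 E2 x y z ∧ z ∈ F) ∧
          ∀ y' ∈ R, (∃ z ∈ R, IsJ w E1 E2 x y' z ∧ z ∈ F) → y' = y

/-- The contexts of the parameters `ω`, `E`, `T`, `E1`, `E2`. -/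
abbrev G5 : Type 1 := (((V × V) × V) × V) × V

theorem hierS_d0 : D0 (fun p : ((G5 × V) × V) × V =>
    HierS p.1.1.1.1.1.1.1 p.1.1.1.1.1.1.2 p.1.1.1.1.1.2 p.1.1.1.1.2 p.1.1.1.2 p.1.2 p.2) := by
  unfold HierS
  apply_rules (transparency := .reducible) (maxDepth := 999) only [D0isU, D0isS] using is_poly

theorem unS_d0 : D0 (fun p : ((G5 × V) × V) × V =>
    UnS p.1.1.1.1.1.1.1 p.1.1.1.1.2 p.1.1.1.2 p.1.2 p.2 p.1.1.2) := by
  unfold UnS
  apply_rules (transparency := .reducible) (maxDepth := 999) only [D0isJ] using is_poly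

/-- The statement that is expressed by the formula. -/
def Bas (N : Set V) (p : G5 × V) : Prop := ∃ R ∈ N, ∃ S ∈ N,
  (∀ x ∈ N, (x ∈ R ↔ MapD p.1.1.1.1.1 x)) ∧
  HierS p.1.1.1.1.1 p.1.1.1.1.2 p.1.1.1.2 p.1.1.2 p.1.2 R S ∧
  UnS p.1.1.1.1.1 p.1.1.2 p.1.2 R S p.2

theorem bas_udf : UDf Bas := by
  have h1 : UDf (fun (_ : Set V) (p : (((G5 × V) × V) × V) × V) =>
      (p.2 ∈ p.1.1.2 ↔ MapD p.1.1.1.1.1.1.1.1 p.2)) := by
    refine UDf.of (D0.iff ?_ ?_)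
    · apply_rules (transparency := .reducible) (maxDepth := 999) only using is_poly
    · exact D0.comp (P := fun q : V × V => MapD q.1 q.2) mapD_d0
        (g := fun p : (((G5 × V) × V) × V) × V => (p.1.1.1.1.1.1.1.1, p.2)) (by
          apply_rules (transparency := .reducible) (maxDepth := 999) only using is_poly)
  have h2 := UDf.all (Γ := ((G5 × V) × V) × V) (P := fun (_ : Set V) p =>
      (p.2 ∈ p.1.1.2 ↔ MapD p.1.1.1.1.1.1.1.1 p.2)) h1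
  have h3 := UDf.and h2 (UDf.and (UDf.of hierS_d0) (UDf.of unS_d0))
  exact UDf.ex (UDf.ex (Γ := (G5 × V) × V) h3)

/-! ### The parameters -/

noncomputable def Es : V := ZFSet.sep (fun q => ∃ e ∈ (ZFSet.omega : V), ∃ m ∈ (ZFSet.omega : V),
  q = ZFSet.pair e m ∧ ¬ pv (uni (num (nn (Nat.pair (num e) (num m))))) = ∅)
  (ZFSet.prod ZFSet.omega ZFSet.omega)

noncomputable def Ts : V := ZFSet.sep (fun t => ∃ m ∈ (ZFSet.omega : V), ∃ i ∈ (ZFSet.omega : V),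
  ∃ j ∈ pv (ent (num (nn (Nat.pair (num m) (num i))))), t = ZFSet.pair (ZFSet.pair m i) j)
  (ZFSet.prod (ZFSet.prod ZFSet.omega ZFSet.omega) ZFSet.omega)

noncomputable def E1s : V := ZFSet.sep (fun q => ∃ h ∈ (ZFSet.omega : V),
  q = ZFSet.pair h (nn (2 * num h))) (ZFSet.prod ZFSet.omega ZFSet.omega)

noncomputable def E2s : V := ZFSet.sep (fun q => ∃ h ∈ (ZFSet.omega : V),
  q = ZFSet.pair h (nn (2 * num h + 1))) (ZFSet.prod ZFSet.omega ZFSet.omega)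

theorem pv_sub {o : Part ℕ} {z : V} (h : z ∈ pv o) : z ∈ (ZFSet.omega : V) := by
  obtain ⟨m, _, rfl⟩ := mem_pv.1 h
  exact nn_mem_omega m

theorem mem_Es {e m : V} (he : e ∈ (ZFSet.omega : V)) (hm : m ∈ (ZFSet.omega : V)) :
    ZFSet.pair e m ∈ Es ↔ ¬ pv (uni (num (nn (Nat.pair (num e) (num m))))) = ∅ := by
  unfold Es
  rw [ZFSet.mem_sep, ZFSet.pair_mem_prod]
  constructor
  · rintro ⟨_, e', _, m', _, e1, h⟩
    obtain ⟨rfl, rfl⟩ := ZFSet.pair_injective e1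
    exact h
  · intro h
    exact ⟨⟨he, hm⟩, e, he, m, hm, rfl, h⟩

theorem mem_Ts {m i j : V} (hm : m ∈ (ZFSet.omega : V)) (hi : i ∈ (ZFSet.omega : V)) :
    ZFSet.pair (ZFSet.pair m i) j ∈ Ts ↔ j ∈ pv (ent (num (nn (Nat.pair (num m) (num i))))) := by
  unfold Ts
  rw [ZFSet.mem_sep, ZFSet.pair_mem_prod, ZFSet.pair_mem_prod]
  constructor
  · rintro ⟨_, m', _, i', _, j', hj, e1⟩
    obtain ⟨e2, rfl⟩ := ZFSet.pair_injective e1
    obtain ⟨rfl, rfl⟩ := ZFSet.pair_injective e2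
    exact hj
  · intro h
    exact ⟨⟨⟨hm, hi⟩, pv_sub h⟩, m, hm, i, hi, j, h, rfl⟩

theorem mem_E1s {h n : ℕ} : ZFSet.pair (nn h) (nn n) ∈ E1s ↔ n = 2 * h := by
  unfold E1s
  rw [ZFSet.mem_sep, ZFSet.pair_mem_prod]
  constructor
  · rintro ⟨_, h', _, e⟩
    obtain ⟨rfl, e2⟩ := ZFSet.pair_injective e
    rw [num_nn] at e2
    exact nn_inj e2
  · rintro rfl
    exact ⟨⟨nn_mem_omega _, nn_mem_omega _⟩, nn h, nn_mem_omega _, by rw [num_nn]⟩

theorem mem_E2s {h n : ℕ} : ZFSet.pair (nn h) (nn n) ∈ E2s ↔ n = 2 * h + 1 := by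
  unfold E2s
  rw [ZFSet.mem_sep, ZFSet.pair_mem_prod]
  constructor
  · rintro ⟨_, h', _, e⟩
    obtain ⟨rfl, e2⟩ := ZFSet.pair_injective e
    rw [num_nn] at e2
    exact nn_inj e2
  · rintro rfl
    exact ⟨⟨nn_mem_omega _, nn_mem_omega _⟩, nn h, nn_mem_omega _, by rw [num_nn]⟩

section

variable {N : Set V} [ZFm N]

theorem prod_mem : (ZFSet.prod ZFSet.omega ZFSet.omega : V) ∈ N ∧
    (ZFSet.prod (ZFSet.prod ZFSet.omega ZFSet.omega) ZFSet.omega : V) ∈ N := by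
  have h1 : DMap ∅ N (fun _ : PUnit.{2} => (ZFSet.prod ZFSet.omega ZFSet.omega : V)) := by
    apply_rules (transparency := .reducible) (maxDepth := 999) only [DMap.omega, DMap.prod] using is_poly
  have h2 : DMap ∅ N (fun _ : PUnit.{2} =>
      (ZFSet.prod (ZFSet.prod ZFSet.omega ZFSet.omega) ZFSet.omega : V)) := by
    apply_rules (transparency := .reducible) (maxDepth := 999) only [DMap.omega, DMap.prod] using is_poly
  exact ⟨h1.mem (γ := PUnit.unit) inM_unit, h2.mem (γ := PUnit.unit) inM_unit⟩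

theorem Es_mem : Es ∈ N := by
  have h1 : DMap ∅ N (fun p : (V × V) × V =>
      pv (uni (num (nn (Nat.pair (num p.1.2) (num p.2)))))) :=
    (pd_of_partrec uni_partrec).app (dmap_natpair (DMap.snd (DMap.fst DMap.id))
      (DMap.snd DMap.id))
  have h2 : Dfn ∅ N (fun q : V => ∃ e ∈ (ZFSet.omega : V), ∃ m ∈ (ZFSet.omega : V),
      q = ZFSet.pair e m ∧ ¬ pv (uni (num (nn (Nat.pair (num e) (num m))))) = ∅) := by
    refine Dfn.ex_mem DMap.omega (Dfn.ex_mem DMap.omega (Dfn.and (Dfn.eq ?_ (DMap.pair ?_ ?_))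
      (Dfn.not (Dfn.eq h1 DMap.empty))))
    · exact DMap.fst (DMap.fst DMap.id)
    · exact DMap.snd (DMap.fst DMap.id)
    · exact DMap.snd DMap.id
  exact ZFm.sep_mem' h2 prod_mem.1

theorem Ts_mem : Ts ∈ N := by
  have h1 : DMap ∅ N (fun p : (V × V) × V =>
      pv (ent (num (nn (Nat.pair (num p.1.2) (num p.2)))))) :=
    (pd_of_partrec ent_partrec).app (dmap_natpair (DMap.snd (DMap.fst DMap.id))
      (DMap.snd DMap.id))
  have h2 : Dfn ∅ N (fun t : V => ∃ m ∈ (ZFSet.omega : V), ∃ i ∈ (ZFSet.omega : V),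
      ∃ j ∈ pv (ent (num (nn (Nat.pair (num m) (num i))))),
        t = ZFSet.pair (ZFSet.pair m i) j) := by
    refine Dfn.ex_mem DMap.omega (Dfn.ex_mem DMap.omega (Dfn.ex_mem h1 (Dfn.eq ?_ (DMap.pair
      (DMap.pair ?_ ?_) ?_))))
    · exact DMap.fst (DMap.fst (DMap.fst DMap.id))
    · exact DMap.snd (DMap.fst (DMap.fst DMap.id))
    · exact DMap.snd (DMap.fst DMap.id)
    · exact DMap.snd DMap.id
  exact ZFm.sep_mem' h2 prod_mem.2

theorem E1s_mem : E1s ∈ N := by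
  have h1 : DMap ∅ N (fun p : V × V => nn (2 * num p.2)) :=
    dmap_comp (f := fun n => 2 * n) computable_dbl (DMap.snd DMap.id)
  have h2 : Dfn ∅ N (fun q : V => ∃ h ∈ (ZFSet.omega : V),
      q = ZFSet.pair h (nn (2 * num h))) :=
    Dfn.ex_mem DMap.omega (Dfn.eq (DMap.fst DMap.id) (DMap.pair (DMap.snd DMap.id) h1))
  exact ZFm.sep_mem' h2 prod_mem.1

theorem E2s_mem : E2s ∈ N := by
  have h1 : DMap ∅ N (fun p : V × V => nn (2 * num p.2 + 1)) :=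
    dmap_comp (f := fun n => 2 * n + 1) computable_dbl1 (DMap.snd DMap.id)
  have h2 : Dfn ∅ N (fun q : V => ∃ h ∈ (ZFSet.omega : V),
      q = ZFSet.pair h (nn (2 * num h + 1))) :=
    Dfn.ex_mem DMap.omega (Dfn.eq (DMap.fst DMap.id) (DMap.pair (DMap.snd DMap.id) h1))
  exact ZFm.sep_mem' h2 prod_mem.1

end

/-! ### Correctness -/

theorem pair_all {S n : V} {Q : V → Prop} :
    (∀ q ∈ S, ∀ t ∈ q, ∀ A ∈ t, q = ZFSet.pair n A → Q A) ↔
      ∀ A, ZFSet.pair n A ∈ S → Q A := by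
  constructor
  · intro h A hA
    exact h _ hA {n, A} (by simp [ZFSet.pair]) A (by simp) rfl
  · rintro h q hq t _ A _ rfl
    exact h A hq

theorem pair_ex {S n : V} {Q : V → Prop} :
    (∃ q ∈ S, ∃ t ∈ q, ∃ A ∈ t, q = ZFSet.pair n A ∧ Q A) ↔
      ∃ A, ZFSet.pair n A ∈ S ∧ Q A := by
  constructor
  · rintro ⟨q, hq, t, _, A, _, rfl, h⟩
    exact ⟨A, hq, h⟩
  · rintro ⟨A, hA, h⟩
    exact ⟨_, hA, {n, A}, by simp [ZFSet.pair], A, by simp, rfl, h⟩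

theorem mem_ex {x a b : V} : (∃ q ∈ x, q = ZFSet.pair a b) ↔ ZFSet.pair a b ∈ x := by
  constructor
  · rintro ⟨q, hq, rfl⟩
    exact hq
  · intro h
    exact ⟨_, h, rfl⟩

/-- The step of the hierarchy. -/
noncomputable def stV (N : Set V) (B : V) : V :=
  ZFSet.sep (fun x => ∃ y ∈ RB N, ¬ Jn x y ∈ B) (RB N)

section

variable {N : Set V} [ZFm N]

theorem inU_iff {e x : V} (he : e ∈ (ZFSet.omega : V)) : InU ZFSet.omega Es Ts e x ↔
    ∃ m ∈ (ZFSet.omega : V), ¬ pv (uni (num (nn (Nat.pair (num e) (num m))))) = ∅ ∧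
    ∀ i ∈ (ZFSet.omega : V), ∀ j ∈ pv (ent (num (nn (Nat.pair (num m) (num i))))),
      ZFSet.pair i j ∈ x := by
  unfold InU
  refine exists_congr fun m => and_congr_right fun hm => ?_
  rw [mem_ex, mem_Es he hm]
  refine and_congr_right fun _ => forall_congr' fun i => imp_congr_right fun hi => ?_
  constructor
  · intro h j hj
    have h1 := h j (pv_sub hj) ⟨_, (mem_Ts hm hi).2 hj, {ZFSet.pair m i}, by simp [ZFSet.pair],
      ZFSet.pair m i, by simp, rfl, rfl⟩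
    exact mem_ex.1 h1
  · rintro h j _ ⟨t, ht, s, _, q, _, rfl, rfl⟩
    exact mem_ex.2 (h j ((mem_Ts hm hi).1 ht))

theorem isU_iff {e A : V} (he : e ∈ (ZFSet.omega : V)) :
    IsU ZFSet.omega Es Ts (RB N) e A ↔ A = U0 N e := by
  unfold IsU
  constructor
  · rintro ⟨h1, h2⟩
    ext x
    unfold U0
    rw [ZFSet.mem_sep]
    constructor
    · intro hx
      exact ⟨h1 hx, (inU_iff he).1 ((h2 x (h1 hx)).1 hx)⟩
    · rintro ⟨hx, h3⟩
      exact (h2 x hx).2 ((inU_iff he).2 h3)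
  · rintro rfl
    refine ⟨fun x hx => (ZFSet.mem_sep.1 hx).1, fun x hx => ?_⟩
    unfold U0
    rw [ZFSet.mem_sep, inU_iff he]
    exact ⟨fun h => h.2, fun h => ⟨hx, h⟩⟩

theorem isJ_iff {f g k : ℕ → ℕ} :
    IsJ ZFSet.omega E1s E2s (code f) (code g) (code k) ↔ k = join f g := by
  unfold IsJ
  simp only [mem_ex]
  constructor
  · intro h
    funext n
    unfold join
    by_cases hn : n % 2 = 0
    · rw [if_pos hn]
      have h1 := (h (nn (n / 2)) (nn_mem_omega _) (nn n) (nn_mem_omega _) (nn (k n))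
        (nn_mem_omega _)).1 (mem_E1s.2 (by omega))
      rw [pair_mem_code, pair_mem_code] at h1
      exact (h1.1 rfl).symm
    · rw [if_neg hn]
      have h1 := (h (nn (n / 2)) (nn_mem_omega _) (nn n) (nn_mem_omega _) (nn (k n))
        (nn_mem_omega _)).2 (mem_E2s.2 (by omega))
      rw [pair_mem_code, pair_mem_code] at h1
      exact (h1.1 rfl).symm
  · rintro rfl h hh n hn v hv
    obtain ⟨h, rfl⟩ := mem_omega.1 hh
    obtain ⟨n, rfl⟩ := mem_omega.1 hn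
    obtain ⟨v, rfl⟩ := mem_omega.1 hv
    rw [mem_E1s, mem_E2s, pair_mem_code, pair_mem_code, pair_mem_code]
    constructor
    · rintro rfl
      have h1 : join f g (2 * h) = f h := congrFun (lft_join f g) h
      rw [h1]
    · rintro rfl
      have h1 : join f g (2 * h + 1) = g h := congrFun (rgt_join f g) h
      rw [h1]

theorem Jn_mem {x y : V} (hx : x ∈ RB N) (hy : y ∈ RB N) : Jn x y ∈ RB N := by
  obtain ⟨f, hf, rfl⟩ := ex_of_mem_RB hx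
  obtain ⟨g, hg, rfl⟩ := ex_of_mem_RB hy
  rw [Jn_code, code_mem_RB]
  exact join_mem hf hg

theorem isJ_RB {x y z : V} (hx : x ∈ RB N) (hy : y ∈ RB N) (hz : z ∈ RB N) :
    IsJ ZFSet.omega E1s E2s x y z ↔ z = Jn x y := by
  obtain ⟨f, hf, rfl⟩ := ex_of_mem_RB hx
  obtain ⟨g, hg, rfl⟩ := ex_of_mem_RB hy
  obtain ⟨k, hk, rfl⟩ := ex_of_mem_RB hz
  rw [isJ_iff, Jn_code]
  exact ⟨fun h => by rw [h], fun h => code_inj h⟩

theorem ex_J {x y : V} (hx : x ∈ RB N) (hy : y ∈ RB N) {Q : V → Prop} :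
    (∃ z ∈ RB N, IsJ ZFSet.omega E1s E2s x y z ∧ Q z) ↔ Q (Jn x y) := by
  constructor
  · rintro ⟨z, hz, h1, h2⟩
    rw [← (isJ_RB hx hy hz).1 h1]
    exact h2
  · intro h
    exact ⟨Jn x y, Jn_mem hx hy, (isJ_RB hx hy (Jn_mem hx hy)).2 rfl, h⟩

theorem isS_iff {A B : V} : IsS ZFSet.omega E1s E2s (RB N) B A ↔ A = stV N B := by
  have key : ∀ x ∈ RB N, ((∃ y ∈ RB N, ∃ z ∈ RB N, IsJ ZFSet.omega E1s E2s x y z ∧ ¬ z ∈ B) ↔
      ∃ y ∈ RB N, ¬ Jn x y ∈ B) := by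
    intro x hx
    refine exists_congr fun y => and_congr_right fun hy => ?_
    exact ex_J hx hy
  unfold IsS stV
  constructor
  · rintro ⟨h1, h2⟩
    ext x
    rw [ZFSet.mem_sep]
    constructor
    · intro hx
      exact ⟨h1 hx, (key x (h1 hx)).1 ((h2 x (h1 hx)).1 hx)⟩
    · rintro ⟨hx, h3⟩
      exact (h2 x hx).2 ((key x hx).2 h3)
  · rintro rfl
    refine ⟨fun x hx => (ZFSet.mem_sep.1 hx).1, fun x hx => ?_⟩
    rw [ZFSet.mem_sep, key x hx]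
    exact ⟨fun h => h.2, fun h => ⟨hx, h⟩⟩

theorem Dn_zero : Dn N 0 = rep ZFSet.omega (U0 N) := rfl

theorem Dn_succ (n : ℕ) : Dn N (n + 1) = rep (Dn N n) (stV N) :=
  Function.iterate_succ_apply' (Gs N) n (D0s N)

theorem succ_iff {n k : ℕ} : (nn k ∈ nn n ∧ ∀ u ∈ nn n, u ∈ nn k ∨ u = nn k) ↔ n = k + 1 := by
  constructor
  · rintro ⟨h1, h2⟩
    have h3 := nn_mem_nn.1 h1
    rcases Nat.lt_or_ge (k + 1) n with h4 | h4
    · rcases h2 (nn (k + 1)) (nn_mem_nn.2 h4) with h5 | h5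
      · have := nn_mem_nn.1 h5
        omega
      · have := nn_inj h5
        omega
    · omega
  · rintro rfl
    refine ⟨nn_mem_nn.2 (by omega), fun u hu => ?_⟩
    obtain ⟨m, hm, rfl⟩ := mem_nn.1 hu
    rcases Nat.lt_or_ge m k with h | h
    · exact Or.inl (nn_mem_nn.2 h)
    · exact Or.inr (by rw [show m = k by omega])

theorem empty_iff {n : ℕ} : (∀ u ∈ nn n, False) ↔ n = 0 := by
  constructor
  · intro h
    by_contra hn
    exact h (nn 0) (nn_mem_nn.2 (Nat.pos_of_ne_zero hn))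
  · rintro rfl u hu
    obtain ⟨m, hm, _⟩ := mem_nn.1 hu
    omega

theorem hierS_spec {S : V} (h : HierS ZFSet.omega Es Ts E1s E2s (RB N) S) (m : ℕ) :
    ∀ A, ZFSet.pair (nn m) A ∈ S ↔ A ∈ Dn N m := by
  obtain ⟨h1, h2, h3⟩ := h
  have h1' : ∀ (m : ℕ) (A : V), ZFSet.pair (nn m) A ∈ S →
      ((∀ u ∈ nn m, False) → ∃ e ∈ (ZFSet.omega : V), IsU ZFSet.omega Es Ts (RB N) e A) ∧
      ∀ k ∈ nn m, (∀ u ∈ nn m, u ∈ k ∨ u = k) →
        ∃ q' ∈ S, ∃ t' ∈ q', ∃ B ∈ t', q' = ZFSet.pair k B ∧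
          IsS ZFSet.omega E1s E2s (RB N) B A := fun m A hA =>
    h1 _ hA {nn m, A} (by simp [ZFSet.pair]) A (by simp) (nn m) (nn_mem_omega m) rfl
  induction m with
  | zero =>
    intro A
    rw [Dn_zero, mem_rep]
    constructor
    · intro hA
      obtain ⟨e, he, h4⟩ := (h1' 0 A hA).1 (empty_iff.2 rfl)
      exact ⟨e, he, ((isU_iff he).1 h4).symm⟩
    · rintro ⟨e, he, rfl⟩
      obtain ⟨A, hA, h4⟩ := pair_ex.1 (h2 (nn 0) (nn_mem_omega 0) (empty_iff.2 rfl) e he)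
      rw [← (isU_iff he).1 h4]
      exact hA
  | succ m ih =>
    intro A
    rw [Dn_succ, mem_rep]
    have hs := succ_iff.2 (rfl : m + 1 = m + 1)
    constructor
    · intro hA
      obtain ⟨B, hB, h4⟩ := pair_ex.1 ((h1' (m + 1) A hA).2 (nn m) hs.1 hs.2)
      exact ⟨B, (ih B).1 hB, (isS_iff.1 h4).symm⟩
    · rintro ⟨B, hB, rfl⟩
      obtain ⟨A, hA, h4⟩ := pair_ex.1 (h3 _ ((ih B).2 hB) {nn m, B} (by simp [ZFSet.pair]) B
        (by simp) (nn (m + 1)) (nn_mem_omega _) (nn m) hs.1 hs.2 rfl)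
      rw [← isS_iff.1 h4]
      exact hA

theorem hierS_exists (hp : Pow N) :
    ∃ S ∈ N, HierS ZFSet.omega Es Ts E1s E2s (RB N) S := by
  have h1 : DMap ∅ N (fun _ : V => (ZFSet.sUnion (rep ZFSet.omega fun n =>
      rep (Dn N (num n)) fun A => ZFSet.pair n A) : V)) := by
    refine DMap.sUnion (DMap.rep (F := fun (_ : V) n => rep (Dn N (num n)) fun A =>
      ZFSet.pair n A) DMap.omega (DMap.rep (F := fun (p : V × V) A => ZFSet.pair p.2 A)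
      (dmap_Dn hp (DMap.snd DMap.id)) (DMap.pair ?_ (DMap.snd DMap.id))))
    exact DMap.snd (DMap.fst DMap.id)
  refine ⟨_, h1.mem (γ := ∅) (inM_V.2 ZFm.empty_mem), ?_⟩
  have hS : ∀ (n A : V), n ∈ (ZFSet.omega : V) → (ZFSet.pair n A ∈
      (ZFSet.sUnion (rep ZFSet.omega fun n => rep (Dn N (num n)) fun A => ZFSet.pair n A) : V) ↔
        A ∈ Dn N (num n)) := by
    intro n A hn
    rw [ZFSet.mem_sUnion]
    constructor
    · rintro ⟨y, hy, h2⟩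
      obtain ⟨n', _, rfl⟩ := mem_rep.1 hy
      obtain ⟨A', hA', e⟩ := mem_rep.1 h2
      obtain ⟨rfl, rfl⟩ := ZFSet.pair_injective e
      exact hA'
    · intro hA
      exact ⟨_, mem_rep.2 ⟨n, hn, rfl⟩, mem_rep.2 ⟨A, hA, rfl⟩⟩
  refine ⟨?_, ?_, ?_⟩
  · rintro q hq t _ A _ n hn rfl
    rw [hS n A hn] at hq
    obtain ⟨m, rfl⟩ := mem_omega.1 hn
    rw [num_nn] at hq
    constructor
    · intro h0
      obtain rfl := empty_iff.1 h0
      rw [Dn_zero, mem_rep] at hq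
      obtain ⟨e, he, rfl⟩ := hq
      exact ⟨e, he, (isU_iff he).2 rfl⟩
    · intro k hk h0
      obtain ⟨k, _, rfl⟩ := mem_nn.1 hk
      obtain rfl := succ_iff.1 ⟨hk, h0⟩
      rw [Dn_succ, mem_rep] at hq
      obtain ⟨B, hB, rfl⟩ := hq
      refine pair_ex.2 ⟨B, ?_, isS_iff.2 rfl⟩
      rw [hS _ _ (nn_mem_omega k), num_nn]
      exact hB
  · intro n hn h0 e he
    obtain ⟨m, rfl⟩ := mem_omega.1 hn
    obtain rfl := empty_iff.1 h0
    refine pair_ex.2 ⟨U0 N e, ?_, (isU_iff he).2 rfl⟩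
    rw [hS _ _ hn, num_nn, Dn_zero, mem_rep]
    exact ⟨e, he, rfl⟩
  · rintro q hq t _ B _ n hn k hk h0 rfl
    obtain ⟨m, rfl⟩ := mem_omega.1 hn
    obtain ⟨k, _, rfl⟩ := mem_nn.1 hk
    obtain rfl := succ_iff.1 ⟨hk, h0⟩
    rw [hS _ _ (nn_mem_omega k), num_nn] at hq
    refine pair_ex.2 ⟨stV N B, ?_, isS_iff.2 rfl⟩
    rw [hS _ _ hn, num_nn, Dn_succ, mem_rep]
    exact ⟨B, hq, rfl⟩

theorem unS_iff {S : V} (h : ∀ (m : ℕ) (A : V), ZFSet.pair (nn m) A ∈ S ↔ A ∈ Dn N m) (m : ℕ) :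
    UnS ZFSet.omega E1s E2s (RB N) S (nn m) ↔ UN N (Dn N m) := by
  unfold UnS UN
  rw [pair_all]
  refine forall_congr' fun A => ?_
  rw [h]
  refine imp_congr_right fun _ => ?_
  rw [pair_ex]
  refine exists_congr fun F => ?_
  rw [h]
  refine and_congr_right fun _ => and_congr ?_ ?_
  · refine forall_congr' fun x => imp_congr_right fun hx => forall_congr' fun y =>
      imp_congr_right fun hy => ?_
    constructor
    · intro h1 h2
      exact h1 (Jn x y) (Jn_mem hx hy) ((isJ_RB hx hy (Jn_mem hx hy)).2 rfl) h2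
    · intro h1 z hz h2 h3
      rw [(isJ_RB hx hy hz).1 h2] at h3 ⊢
      exact h1 h3
  · refine forall_congr' fun x => imp_congr_right fun hx => imp_congr ?_ ?_
    · exact exists_congr fun y => and_congr_right fun hy => ex_J hx hy
    · refine exists_congr fun y => and_congr_right fun hy => and_congr (ex_J hx hy) ?_
      exact forall_congr' fun y' => imp_congr_right fun hy' => imp_congr (ex_J hx hy') Iff.rfl

/-- The parameters. -/
noncomputable def par : G5 := ((((ZFSet.omega, Es), Ts), E1s), E2s)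

theorem par_inM : InM N par :=
  inM_prod.2 ⟨inM_prod.2 ⟨inM_prod.2 ⟨inM_prod.2 ⟨inM_V.2 ZFm.omega_mem, Es_mem⟩, Ts_mem⟩,
    E1s_mem⟩, E2s_mem⟩

theorem bas_iff (hp : Pow N) (m : ℕ) : Bas N (par, nn m) ↔ UN N (Dn N m) := by
  have hR : ∀ R ∈ N, (∀ x ∈ N, (x ∈ R ↔ MapD ZFSet.omega x)) → R = RB N := by
    intro R hR h
    ext x
    rw [mem_RB]
    constructor
    · intro hx
      have hxN := TrC.trans hR hx
      exact ⟨hxN, mapD_iff.1 ((h x hxN).1 hx)⟩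
    · rintro ⟨hxN, hx⟩
      exact (h x hxN).2 (mapD_iff.2 hx)
  constructor
  · rintro ⟨R, hRN, S, hSN, h1, h2, h3⟩
    obtain rfl := hR R hRN h1
    exact (unS_iff (fun m => hierS_spec h2 m) m).1 h3
  · intro h
    obtain ⟨S, hS, h2⟩ := hierS_exists (N := N) hp
    refine ⟨RB N, RB_mem hp, S, hS, fun x hx => ?_, h2, ?_⟩
    · rw [mem_RB]
      exact ⟨fun h => mapD_iff.2 h.2, fun h => ⟨hx, mapD_iff.1 h⟩⟩
    · exact (unS_iff (fun m => hierS_spec h2 m) m).2 h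

end

/-- One formula with fixed parameters expresses uniformization in all transitive models. -/
theorem uni_thm : ∃ (k : ℕ) (c : Fin k → V) (φ : Fm Empty (k + 1)), ∀ (N : Set V) [ZFm N],
    Pow N → (∀ i, c i ∈ N) ∧ ∀ m : ℕ,
      (φ.Sat N (fun x y => x ∈ y) Empty.elim (Fin.snoc c (nn m)) ↔ Unif (Baire N) m) := by
  obtain ⟨φ, h⟩ := bas_udf
  refine ⟨Ctx.n G5, Ctx.get par, φ, fun N _ hp => ⟨par_inM, fun m => ?_⟩⟩
  have h1 := h N (par, nn m) (inM_prod.2 ⟨par_inM, nn_mem m⟩)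
  rw [← UN_iff, ← bas_iff hp]
  exact h1

end Pool.Agent.GMD
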