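import Pool.Agent.GMD.TRA
import Pool.Agent.GMD.UNI

/-!
Generic extensions in the sense of `Pub2` are those of the library.
-/

set_option autoImplicit false

namespace Pool.Agent.GMD

open Pool.Agent.CTM

theorem toFm_iff (N : Set V) {n : ℕ} (φ : SetFormula n) :
    ∀ v : Fin n → V, φ.Holds N v ↔ (toFm φ).Sat N (fun x y => x ∈ y) Empty.elim v := by
  induction φ with
  | mem i j => intro v; exact Iff.rfl
  | eq i j => intro v; exact Iff.rfl
  | not φ ih => intro v; exact not_congr (ih v)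
  | and φ ψ ih ih' => intro v; exact and_congr (ih v) (ih' v)
  | all φ ih => intro v; exact forall_congr' fun x => imp_congr Iff.rfl (ih _)

/-- The models of the library are models. -/
theorem model_of (N : Set V) [ZFCm N] : ModelZFC N where
  transitive := (CTM.modelZFC N).transitive
  extensionality := (CTM.modelZFC N).extensionality
  foundation := (CTM.modelZFC N).foundation
  pairing := (CTM.modelZFC N).pairing
  union := (CTM.modelZFC N).union
  power := (CTM.modelZFC N).power
  infinity := (CTM.modelZFC N).infinity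
  separation n φ v hv x hx := by
    simp only [toFm_iff]
    exact (CTM.modelZFC N).separation n (toFm φ) v hv x hx
  replacement n φ v hv a ha h := by
    simp only [toFm_iff] at h ⊢
    exact (CTM.modelZFC N).replacement n (toFm φ) v hv a ha h
  choice := (CTM.modelZFC N).choice

/-- Replacement for definable functions. -/
theorem rep_of {N : Set V} (h : ModelZFC N) {F : V → V} (hF : DMap N N F) {a : V} (ha : a ∈ N) :
    rep a F ∈ N := by
  obtain ⟨φ, hφ⟩ := hF.graph
  obtain ⟨k, τ, ψ, hψ⟩ := elim_const N (fun x y : V => x ∈ y)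
    (fun a : (N ∩ N : Set V) => a.1) φ
  have key : ∀ x ∈ N, ∀ y ∈ N, ((ofFm ψ).Holds N (Fin.snoc (Fin.snoc (fun i => (τ i).1) x :
      Fin (k + 1) → V) y) ↔ y = F x) := by
    intro x hx y hy
    rw [ofFm_iff]
    have h1 := hφ (Fin.snoc (fun _ : Fin 1 => x) y : Fin 2 → V) (fun i => by
      refine Fin.lastCases (n := 1) ?_ (fun i => ?_) i
      · rw [Fin.snoc_last]
        exact hy
      · rw [Fin.snoc_castSucc]
        exact hx)
    have h2 := hψ (Fin.snoc (fun _ : Fin 1 => x) y : Fin 2 → V)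
    rw [append_two] at h2
    refine h2.symm.trans (h1.trans ?_)
    exact Iff.rfl
  obtain ⟨b, hb, e⟩ := h.replacement k (ofFm ψ) (fun i => (τ i).1) (fun i => (τ i).2.1) a ha
    (fun x hx _ => by
      have hFx : F x ∈ N := hF.mem (inM_V.2 hx)
      exact ⟨F x, ⟨hFx, (key x hx _ hFx).2 rfl⟩, fun y hy => (key x hx y hy.1).1 hy.2⟩)
  have e' : b = rep a F := by
    ext y
    rw [mem_rep]
    constructor
    · intro hy
      have hyN := h.transitive b hb y hy
      obtain ⟨x, hx, hxa, h3⟩ := (e y hyN).1 hy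
      exact ⟨x, hxa, ((key x hx y hyN).1 h3).symm⟩
    · rintro ⟨x, hxa, rfl⟩
      have hx := h.transitive a ha x hxa
      have hFx : F x ∈ N := hF.mem (inM_V.2 hx)
      exact (e _ hFx).2 ⟨x, hx, hxa, (key x hx _ hFx).2 rfl⟩
  rw [← e']
  exact hb

/-- Models of ZFC satisfy the scheme of collection. -/
theorem toC (hCOL : Stmt_COL) {N : Set V} (h : ModelZFC N) : ModelC N := by
  have hB : ModelB N := ⟨h.transitive, h.pairing, h.union, h.power, h.infinity, h.separation⟩
  refine ⟨hB, ?_, h.choice⟩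
  intro n φ v hv a ha hex
  simp only [toFm_iff] at hex ⊢
  have h1 : Dfn N N (fun p : V × V =>
      CTM.Holds N (toFm φ) (Fin.snoc (Fin.snoc v p.1 : Fin (n + 1) → V) p.2)) := by
    have h1 := dp_inst (k := 2) (dp_holds N N (toFm φ)) hv
    refine DP.congr h1 fun u _ => ?_
    rw [append_two]
    rfl
  obtain ⟨b, hb, hb'⟩ := hCOL N (trC hB) (empty_mem hB) (fun _ _ hx hy => upair_mem hB hx hy)
    (fun _ hx => sUnion_mem hB hx) (omega_mem hB) (fun _ hP _ ha => sep_mem hB hP ha)
    (fun _ hx => power_mem hB hx) (fun _ hF _ ha => rep_of h hF ha)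
    (fun x y => CTM.Holds N (toFm φ) (Fin.snoc (Fin.snoc v x : Fin (n + 1) → V) y)) h1 a ha
    (fun x hx => hex x (h.transitive a ha x hx) hx)
  refine ⟨b, hb, fun x _ hx => ?_⟩
  obtain ⟨y, hy, h2⟩ := hb' x hx
  exact ⟨y, h.transitive b hb y hy, hy, h2⟩

/-- The models are models of the library. -/
theorem zfcm (hZER : Stmt_ZER) {N : Set V} (h : ModelC N) : ZFCm N := by
  have := zfm h
  exact { power_mem := fun hx => power_mem h.toModelB hx
          choice := fun hx => hZER N (fun x hx => power_mem h.toModelB hx) h.choice _ hx }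

section

variable {M : Set V} {P L t : V}

theorem ext_isExtension (hVAL : Stmt_VAL) (hCOL : Stmt_COL) [ZFCm M] (hM : M.Countable) (h : Forcing M P L t)
    {G : V} (hG : GenericFilter M P L G) : IsExtension M G (Ext M (rep G (cd P L t))) := by
  have hG' := generic_img h hG
  have hPc : Pc P L t ∈ M := Pc_mem h.P_mem h.L_mem (TrC.trans h.P_mem h.top_mem)
  obtain ⟨h1, h2, h3, _, _⟩ := stmt_ext M hM (Pc P L t) hPc (empty_mem_Pc h) _ hG'
  have h4 : P ∈ Ext M (rep G (cd P L t)) := h2 h.P_mem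
  refine ⟨model_of _, h2, ?_, fun N' hN' hMN hGN => ?_⟩
  · have := pre_mem (N := Ext M (rep G (cd P L t))) (t := t) h4 (h2 h.L_mem)
      (TrC.trans h4 h.top_mem) h3
    rwa [gen_eq h hG] at this
  · have := zfm (toC hCOL hN')
    exact hVAL M N' _ hMN (img_mem (hMN h.P_mem) (hMN h.L_mem)
      (TrC.trans (hMN h.P_mem) h.top_mem) hGN)

theorem ext_eq (hVAL : Stmt_VAL) (hCOL : Stmt_COL) [ZFCm M] (hM : M.Countable) (h : Forcing M P L t)
    {G : V} (hG : GenericFilter M P L G) {N : Set V} (hN : IsExtension M G N) :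
    N = Ext M (rep G (cd P L t)) := by
  have h1 := ext_isExtension hVAL hCOL hM h hG
  exact Set.Subset.antisymm (hN.least _ h1.model h1.sub h1.gen)
    (h1.least _ hN.model hN.sub hN.gen)

end

/-- **Homogeneous forcing.** -/
theorem homogeneous (hVAL : Stmt_VAL) (hAUT : Stmt_AUT) (hHOM : Stmt_HOM) (hZER : Stmt_ZER)
    (hCOL : Stmt_COL)
    {M : Set V} (hMc : M.Countable) (hM : ModelZFC M) {P L t : V} (h : Forcing M P L t)
    (hW : WeaklyHomogeneous M P L) :
    (∃ G N, GenericFilter M P L G ∧ IsExtension M G N) ∧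
    ∃ r : ℕ → Bool, pcode r ∈ M ∧
      ∀ G N, GenericFilter M P L G → IsExtension M G N → Realizes N r := by
  classical
  have := zfcm hZER (toC hCOL hM)
  have hp : Pow M := fun hx => ZFCm.power_mem hx
  have hPc : Pc P L t ∈ M := Pc_mem h.P_mem h.L_mem (TrC.trans h.P_mem h.top_mem)
  have h0 := empty_mem_Pc h
  obtain ⟨k, c, φ, hφ⟩ := uni_thm
  obtain ⟨h1, h2⟩ := hHOM hVAL hAUT M hMc (Pc P L t) hPc h0 (whom_img h hW) k φ c
    (hφ M hp).1
  obtain ⟨G0, hG0, _⟩ := stmt_generic M hMc (Pc P L t) hPc ∅ h0 h0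
  have hU : ∀ G', Generic M (Pc P L t) G' → ∀ m : ℕ,
      (φ.Sat (Ext M G') (fun x y => x ∈ y) Empty.elim (Fin.snoc c (nn m)) ↔
        Unif (Baire (Ext M G')) m) := by
    intro G' hG'
    have hE : ZFCm (Ext M G') := (stmt_ext M hMc (Pc P L t) hPc h0 G' hG').1
    exact (hφ (Ext M G') (fun hx => ZFCm.power_mem hx)).2
  refine ⟨?_, ?_⟩
  · obtain ⟨hG, hG2⟩ := generic_pre h hG0
    exact ⟨_, _, hG, ext_isExtension hVAL hCOL hMc h hG⟩
  refine ⟨fun m => decide (Unif (Baire (Ext M G0)) m), ?_, fun G N hG hN m _ => ?_⟩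
  · have h3 := h2 G0 hG0 ZFSet.omega ZFm.omega_mem
    set X : V := ZFSet.sep (fun z => φ.Sat (Ext M G0) (fun x y => x ∈ y) Empty.elim
      (Fin.snoc c z)) ZFSet.omega with hX
    have hcX : ∀ {Γ : Type 1} [Ctx Γ], DMap M M (fun _ : Γ => X) := DMap.const h3 h3
    have h4 : DMap M M (fun _ : V => gr (fun n => if n ∈ X then nn 1 else nn 0)
        ZFSet.omega) := by
      refine DMap.gr (F := fun _ n => if n ∈ X then nn 1 else nn 0) DMap.omega
        (DMap.ite (Dfn.mem (DMap.snd DMap.id) hcX) (DMap.nn 1) (DMap.nn 0))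
    have h5 := h4.mem (γ := ∅) (inM_V.2 ZFm.empty_mem)
    have e : gr (fun n => if n ∈ X then nn 1 else nn 0) ZFSet.omega =
        pcode (fun m => decide (Unif (Baire (Ext M G0)) m)) := by
      unfold pcode
      rw [code_eq]
      refine fn_ext (isFn_gr _ _) (isFn_gr _ _) ?_ ?_
      · rw [dom_gr, dom_gr]
      · intro x hx
        rw [dom_gr] at hx
        obtain ⟨n, rfl⟩ := mem_omega.1 hx
        rw [app_gr hx, app_gr hx, num_nn]
        have h6 : nn n ∈ X ↔ Unif (Baire (Ext M G0)) n := by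
          rw [hX, ZFSet.mem_sep, hU G0 hG0]
          exact ⟨fun h => h.2, fun h => ⟨hx, h⟩⟩
        by_cases h7 : Unif (Baire (Ext M G0)) n
        · rw [if_pos (h6.2 h7)]
          show nn 1 = nn (decide (Unif (Baire (Ext M G0)) n)).toNat
          rw [decide_eq_true h7]
          rfl
        · rw [if_neg (fun h8 => h7 (h6.1 h8))]
          show nn 0 = nn (decide (Unif (Baire (Ext M G0)) n)).toNat
          rw [decide_eq_false h7]
          rfl
    rw [← e]
    exact h5
  · rw [ext_eq hVAL hCOL hMc h hG hN, decide_eq_true_iff, ← hU _ (generic_img h hG), ← hU G0 hG0]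
    exact h1 _ _ (generic_img h hG) hG0 (nn m) (nn_mem m)

end Pool.Agent.GMD
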