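import Pool.Agent.GMD.Stmts

/-!
MP_3241a1_lc, module HOM of the project GMD: weakly homogeneous forcing decides all statements
about elements of the ground model, and the ground model contains the sets defined in the
extension from elements of the ground model.
-/

set_option autoImplicit false

namespace Pool.Agent.GMD

open Pool.Agent.CTM

namespace HOMM

theorem aut_inj {M : Set V} {P : V} {π : V → V} (h : IsAut M P π) {p q : V} (hp : p ∈ P)
    (hq : q ∈ P) (e : π p = π q) : p = q := by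
  have h1 : p ⊆ q := (h.sub_iff p hp q hq).1 (fun _ hx => e ▸ hx)
  have h2 : q ⊆ p := (h.sub_iff q hq p hp).1 (fun _ hx => e ▸ hx)
  exact ZFSet.ext fun z => ⟨fun hz => h1 hz, fun hz => h2 hz⟩

/-- The inverse automorphism. -/
theorem exists_inv {M : Set V} [ZFm M] {P : V} (hP : P ∈ M) {π : V → V} (h : IsAut M P π) :
    ∃ σ : V → V, IsAut M P σ ∧ (∀ p ∈ P, σ (π p) = p) := by
  classical
  choose! σ hσ hσ' using h.surj
  have h1 : ∀ p ∈ P, σ (π p) = p := fun p hp =>
    aut_inj h (hσ _ (h.maps p hp)) hp (hσ' _ (h.maps p hp))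
  refine ⟨σ, ⟨?_, hσ, ?_, ?_⟩, h1⟩
  · have hcP : ∀ {Γ : Type 1} [Ctx Γ], DMap M M (fun _ : Γ => P) := DMap.const hP hP
    have hcg : ∀ {Γ : Type 1} [Ctx Γ], DMap M M (fun _ : Γ => gr π P) :=
      DMap.const h.gr_mem h.gr_mem
    have h2 : ZFSet.sep (fun z => ∃ a ∈ P, ∃ b ∈ P, z = ZFSet.pair b a ∧
        ZFSet.pair a b ∈ gr π P) (ExtPf.pr P P) ∈ M := by
      refine ZFm.sep_mem ?_ (ExtPf.pr_mem hP hP)
      apply_rules (transparency := .reducible) (maxDepth := 999) only [hcP, hcg] using is_poly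
    have e : gr σ P = ZFSet.sep (fun z => ∃ a ∈ P, ∃ b ∈ P, z = ZFSet.pair b a ∧
        ZFSet.pair a b ∈ gr π P) (ExtPf.pr P P) := by
      ext z
      rw [mem_gr, ZFSet.mem_sep]
      constructor
      · rintro ⟨q, hq, rfl⟩
        exact ⟨ExtPf.pair_mem_pr.2 ⟨hq, hσ q hq⟩, σ q, hσ q hq, q, hq, rfl,
          Chk.pair_mem_gr.2 ⟨hσ q hq, (hσ' q hq).symm⟩⟩
      · rintro ⟨_, a, ha, b, hb, rfl, h3⟩
        have h4 := (Chk.pair_mem_gr.1 h3).2
        refine ⟨b, hb, ?_⟩
        rw [h4, h1 a ha]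
    rw [e]
    exact h2
  · intro p hp
    exact ⟨π p, h.maps p hp, h1 p hp⟩
  · intro p hp q hq
    rw [← h.sub_iff _ (hσ p hp) _ (hσ q hq), hσ' p hp, hσ' q hq]

theorem snoc_mem {M : Set V} {n : ℕ} {v : Fin n → V} (hv : ∀ i, v i ∈ M) {z : V} (hz : z ∈ M)
    (i : Fin (n + 1)) : (Fin.snoc v z : Fin (n + 1) → V) i ∈ M := by
  refine Fin.lastCases ?_ (fun i => ?_) i
  · simpa using hz
  · simpa using hv i

theorem val_snoc {G : V} (h0 : ∅ ∈ G) {n : ℕ} (w : Fin n → V) :
    (fun i => val G (chk (w i))) = w := by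
  funext i
  exact val_chk h0 _

theorem chk_mem {M : Set V} [ZFm M] {x : V} (hx : x ∈ M) : chk x ∈ M :=
  (DMap_chk M M).mem (γ := x) (inM_V.2 hx)

theorem init_append {n : ℕ} (ν : Fin n → V) (w : Fin (1 + 1) → V) :
    Fin.init (n := n + 1) (Fin.append ν w : Fin (n + (1 + 1)) → V) =
      Fin.append ν (Fin.init w) := by
  conv_lhs => rw [← Fin.snoc_init_self w]
  rw [ExtPf.append_snoc, Fin.init_snoc]

/-- One direction of the first part. -/
theorem part1 (hV : Stmt_VAL) (hA : Stmt_AUT) {M : Set V} [ZFCm M] (hM : M.Countable) {P : V}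
    (hP : P ∈ M) (h0 : ∅ ∈ P) (hw : WHom M P) {n : ℕ} (φ : Fm Empty n) {w : Fin n → V}
    (hwM : ∀ i, w i ∈ M) {G G' : V} (hG : Generic M P G) (hG' : Generic M P G')
    (h : φ.Sat (Ext M G) (fun x y => x ∈ y) Empty.elim w) :
    φ.Sat (Ext M G') (fun x y => x ∈ y) Empty.elim w := by
  by_contra hn
  have hτ : ∀ i, chk (w i) ∈ M := fun i => chk_mem (hwM i)
  obtain ⟨p, hp, hpF⟩ := (stmt_forcing M hM P hP h0 n φ).2 G hG (fun i => chk (w i)) hτ (by
    rw [val_snoc hG.empty_mem]; exact h)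
  obtain ⟨q, hq, hqF⟩ := (stmt_forcing M hM P hP h0 n φ.neg).2 G' hG' (fun i => chk (w i)) hτ (by
    rw [val_snoc hG'.empty_mem]; exact hn)
  obtain ⟨π, hπ, s, hs, hs1, hs2⟩ := hw p (hG.sub hp) q (hG'.sub hq)
  obtain ⟨H, hH, hsH⟩ := stmt_generic M hM P hP s hs h0
  have hqH : q ∈ H := hH.down s hsH q (hG'.sub hq) hs2
  have hpH : π p ∈ H := hH.down s hsH (π p) (hπ.maps p (hG.sub hp)) hs1
  obtain ⟨σ, hσ, hσπ⟩ := exists_inv hP hπ
  obtain ⟨h1, h2, h3⟩ := hA hV M hM P hP h0 σ hσ H hH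
  have hpH' : p ∈ rep H σ := by
    have := (h3 (π p) (hπ.maps p (hG.sub hp))).2 hpH
    rwa [hσπ p (hG.sub hp)] at this
  have h4 := hpF _ h1 hpH'
  have h5 := hqF _ hH hqH
  rw [val_snoc h1.empty_mem, h2] at h4
  rw [val_snoc hH.empty_mem] at h5
  exact h5 h4

end HOMM

open HOMM in
/-- **Module HOM.** -/
theorem HOM_thm : Stmt_HOM := by
  intro hV hA M _ hM P hP h0 hw n φ v hv
  refine ⟨fun G G' hG hG' z hz =>
    ⟨part1 hV hA hM hP h0 hw φ (snoc_mem hv hz) hG hG',
      part1 hV hA hM hP h0 hw φ (snoc_mem hv hz) hG' hG⟩, fun G hG a ha => ?_⟩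
  -- definability of the forcing relation
  have hd := (stmt_forcing M hM P hP h0 (n + 1) φ).1
  have h1 : Dfn M M (fun q : V × V => q.2 ∈ P ∧ Frc M P q.2 φ
      (Fin.snoc (fun i => chk (v i)) q.1 : Fin (n + 1) → V)) := by
    have h3 := ExtPf.DP_inst (k := n) (n := 2) hd (ν := fun i => chk (v i))
      (fun i => chk_mem (hv i))
    refine DP.congr h3 fun w _ => ?_
    have e1 : (Fin.append (fun i => chk (v i)) w : Fin (n + (1 + 1)) → V)
        (Fin.last (n + 1)) = w (Fin.last 1) := by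
      have e : (Fin.last (n + 1) : Fin (n + (1 + 1))) = Fin.natAdd n (Fin.last 1) := rfl
      rw [e, Fin.append_right]
    have e2 : Fin.init (n := n + 1) (Fin.append (fun i => chk (v i)) w :
        Fin (n + (1 + 1)) → V) = Fin.append (fun i => chk (v i)) (Fin.init w) := by
      exact init_append (fun i => chk (v i)) w
    have e3 : (Fin.append (fun i => chk (v i)) (Fin.init w) : Fin (n + 1) → V) =
        Fin.snoc (fun i => chk (v i)) (w 0) := by
      funext i
      refine Fin.lastCases ?_ (fun i => ?_) i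
      · have e : (Fin.last n : Fin (n + 1)) = Fin.natAdd n (0 : Fin 1) := rfl
        rw [Fin.snoc_last, e, Fin.append_right]
        rfl
      · have e : (i.castSucc : Fin (n + 1)) = Fin.castAdd 1 i := rfl
        rw [Fin.snoc_castSucc, e, Fin.append_left]
    rw [e1, e2, e3]
    exact Iff.rfl
  have hc : DMap M M chk := DMap_chk M M
  have h2 : Dfn M M (fun q : V × V => q.2 ∈ P ∧ Frc M P q.2 φ
      (Fin.snoc (fun i => chk (v i)) (chk q.1) : Fin (n + 1) → V)) :=
    h1.comp (g := fun q : V × V => (chk q.1, q.2))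
      (DMap.prodMk (hc.comp (DMap.fst DMap.id)) (DMap.snd DMap.id))
  have h3 : Dfn M M (fun z : V => ∃ p ∈ M, (p ∈ P ∧ Frc M P p φ
      (Fin.snoc (fun i => chk (v i)) (chk z) : Fin (n + 1) → V))) :=
    Dfn.ex (P := fun z p => p ∈ P ∧ Frc M P p φ
      (Fin.snoc (fun i => chk (v i)) (chk z) : Fin (n + 1) → V)) h2
  have h4 := ZFm.sep_mem h3 ha
  have e : ZFSet.sep (fun z => φ.Sat (Ext M G) (fun x y => x ∈ y) Empty.elim (Fin.snoc v z)) a =
      ZFSet.sep (fun z : V => ∃ p ∈ M, (p ∈ P ∧ Frc M P p φ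
      (Fin.snoc (fun i => chk (v i)) (chk z) : Fin (n + 1) → V))) a := by
    ext z
    rw [ZFSet.mem_sep, ZFSet.mem_sep]
    refine and_congr_right fun hz => ?_
    have hzM : z ∈ M := TrC.trans ha hz
    have e5 : (Fin.snoc (fun i => chk (v i)) (chk z) : Fin (n + 1) → V) =
        fun i => chk ((Fin.snoc v z : Fin (n + 1) → V) i) := by
      funext i
      refine Fin.lastCases ?_ (fun i => ?_) i
      · simp
      · simp
    rw [e5]
    constructor
    · intro h
      obtain ⟨p, hp, hpF⟩ := (stmt_forcing M hM P hP h0 (n + 1) φ).2 G hG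
        (fun i => chk ((Fin.snoc v z : Fin (n + 1) → V) i))
        (fun i => chk_mem (snoc_mem hv hzM i)) (by rw [val_snoc hG.empty_mem]; exact h)
      exact ⟨p, TrC.trans hP (hG.sub hp), hG.sub hp, hpF⟩
    · rintro ⟨p, _, hp, hpF⟩
      obtain ⟨H, hH, hpH⟩ := stmt_generic M hM P hP p hp h0
      have h6 := hpF H hH hpH
      rw [val_snoc hH.empty_mem] at h6
      exact part1 hV hA hM hP h0 hw φ (snoc_mem hv hzM) hH hG h6
  rw [e]
  exact h4

end Pool.Agent.GMD
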