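import Pool.Agent.GMD.Stmts

/-!
Module VAL of the project GMD: every transitive model that contains `G` and includes `M` includes
`M[G]`.
-/

set_option autoImplicit false

namespace Pool.Agent.GMD

open Pool.Agent.CTM

namespace VALM

/-- The recursion step for the values of names. -/
theorem val_step (G τ : V) : val G τ =
    rep (ZFSet.sep (fun σ => ∃ p ∈ G, ZFSet.pair σ p ∈ τ) (dom τ))
      (fun σ => app (gr (val G) (dom τ)) σ) := by
  rw [val]
  refine Chk.rep_congr fun σ hσ => ?_
  have hd : σ ∈ dom τ := (ZFSet.mem_sep.1 hσ).1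
  rw [dif_pos hd, Chk.app_gr hd]

/-- The value map is definable in every transitive model that contains `G`. -/
theorem dmap_val (N : Set V) [ZFm N] {G : V} (hG : G ∈ N) : DMap N N (val G) := by
  have hc : ∀ {Γ : Type 1} [Ctx Γ], DMap N N (fun _ : Γ => G) := DMap.const hG hG
  refine DMap.recV (D := dom) (H := fun τ g =>
      rep (ZFSet.sep (fun σ => ∃ p ∈ G, ZFSet.pair σ p ∈ τ) (dom τ)) (fun σ => app g σ))
    (DMap.dom DMap.id) ?_ (fun τ _ => val_step G τ)
    (fun σ τ => ZFSet.rank σ < ZFSet.rank τ) (InvImage.wf ZFSet.rank wellFounded_lt)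
    (fun τ _ σ h => dom_wf h)
  apply_rules (transparency := .reducible) (maxDepth := 999) only [hc] using is_poly

end VALM

/-- **Module VAL.** -/
theorem VAL_thm : Stmt_VAL := by
  intro M N _ G hMN hG x hx
  obtain ⟨τ, hτ, rfl⟩ := hx
  exact (VALM.dmap_val N hG).mem (inM_V.2 (hMN hτ))

end Pool.Agent.GMD
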