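import Pool.Agent.GMD.Stmts

/-!
# Module ZER: the well-ordering theorem inside a model, from choice for disjoint families
-/

set_option autoImplicit false

namespace Pool.Agent.GMD

open Pool.Agent.CTM

namespace ZERM

section

variable {Γ : Type 1} [Ctx Γ] {A M : Set V}

theorem dmap_ite [ZFm M] {P : Γ → Prop} [∀ γ, Decidable (P γ)] {f g : Γ → V} (hP : Dfn A M P)
    (hf : DMap A M f) (hg : DMap A M g) : DMap A M (fun γ => if P γ then f γ else g γ) := by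
  have h1 : DMap A M (fun γ => (ZFSet.sep (fun _ => P γ) (f γ) : V) ∪
      ZFSet.sep (fun _ => ¬ P γ) (g γ)) := by
    refine DMap.union (DMap.sep (P := fun γ _ => P γ) hf ?_)
      (DMap.sep (P := fun γ _ => ¬ P γ) hg ?_)
    · exact hP.comp (DMap.fst DMap.id)
    · exact (hP.comp (DMap.fst DMap.id)).not
  refine h1.congr fun γ _ => ?_
  ext z
  by_cases h : P γ
  · simp [h]
  · simp [h]

end

/-- The chosen element of `s`. -/
noncomputable def ch (c s : V) : V :=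
  ZFSet.sUnion (ZFSet.sep (fun z => ZFSet.pair s z ∈ c) s)

open Classical in
/-- The next element, when the elements of `r` are used. -/
noncomputable def stp (c x r : V) : V :=
  if x \ r = ∅ then {x} else ch c (x \ r)

open Classical in
/-- The enumeration. -/
noncomputable def g (c x a : V) : V :=
  stp c x (rep a (fun y => if _h : y ∈ a then g c x y else ∅))
termination_by ZFSet.rank a
decreasing_by all_goals exact ZFSet.rank_lt_of_mem _h

theorem g_eq (c x a : V) : g c x a = stp c x (rep a (g c x)) := by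
  rw [g]
  congr 1
  ext z
  rw [mem_rep, mem_rep]
  constructor
  · rintro ⟨y, hy, rfl⟩
    exact ⟨y, hy, by rw [dif_pos hy]⟩
  · rintro ⟨y, hy, rfl⟩
    exact ⟨y, hy, by rw [dif_pos hy]⟩

theorem ran_gr (F : V → V) (a : V) : ran (gr F a) = rep a F := by
  ext z
  rw [mem_ran, mem_rep]
  constructor
  · rintro ⟨y, hy⟩
    obtain ⟨w, hw, e⟩ := mem_gr.1 hy
    obtain ⟨rfl, rfl⟩ := ZFSet.pair_injective e
    exact ⟨w, hw, rfl⟩
  · rintro ⟨w, hw, rfl⟩
    exact ⟨w, mem_gr.2 ⟨w, hw, rfl⟩⟩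

section

variable {Γ : Type 1} [Ctx Γ] {N : Set V} [ZFm N]

theorem dmap_ch {c : V} (hc : c ∈ N) : DMap N N (fun s : V => ch c s) := by
  unfold ch
  refine DMap.sUnion (DMap.sep DMap.id (Dfn.mem (DMap.pair (DMap.fst DMap.id)
    (DMap.snd DMap.id)) (DMap.const hc hc)))

theorem dmap_stp {c x : V} (hc : c ∈ N) (hx : x ∈ N) : DMap N N (fun r : V => stp c x r) := by
  classical
  have h1 : DMap N N (fun r : V => x \ r) := DMap.diff (DMap.const hx hx) DMap.id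
  have h2 : DMap N N (fun r : V => ch c (x \ r)) := (dmap_ch hc).comp h1
  have h3 : DMap N N (fun _ : V => ({x} : V)) := DMap.sing (DMap.const hx hx)
  exact (dmap_ite (Dfn.eq h1 DMap.empty) h3 h2).congr fun r _ => by
    unfold stp
    split_ifs <;> rfl

theorem dmap_g {c x : V} (hc : c ∈ N) (hx : x ∈ N) : DMap N N (fun a : V => g c x a) := by
  refine DMap.recMem (H := fun _ h => stp c x (ran h)) ?_ ?_
  · exact (dmap_stp hc hx).comp (DMap.ran (DMap.snd DMap.id))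
  · intro a _
    rw [ran_gr]
    exact g_eq c x a

end

theorem mem_dif {x y z : V} : z ∈ x \ y ↔ z ∈ x ∧ z ∉ y := by
  simp

theorem sUnion_sing (z : V) : (ZFSet.sUnion ({z} : V) : V) = z := by
  ext w
  rw [ZFSet.mem_sUnion]
  constructor
  · rintro ⟨y, hy, hw⟩
    rw [ZFSet.mem_singleton] at hy
    exact hy ▸ hw
  · intro hw
    exact ⟨z, ZFSet.mem_singleton.2 rfl, hw⟩

end ZERM

open ZERM in
theorem ZER_thm : Stmt_ZER := by
  classical
  intro N _ hpow hac x hx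
  -- the nonempty subsets
  have hQ' : ZFSet.sep (fun s : V => s ≠ ∅)
      (ZFSet.sep (fun y => y ∈ N) (ZFSet.powerset x)) ∈ N :=
    ZFm.sep_mem (Dfn.not (Dfn.eq DMap.id DMap.empty)) (hpow x hx)
  obtain ⟨Q, hQd⟩ : ∃ Q : V, Q = ZFSet.sep (fun s : V => s ≠ ∅)
      (ZFSet.sep (fun y => y ∈ N) (ZFSet.powerset x)) := ⟨_, rfl⟩
  have hQ : Q ∈ N := hQd ▸ hQ'
  have memQ : ∀ s, s ∈ Q ↔ s ∈ N ∧ s ⊆ x ∧ s ≠ ∅ := by
    intro s
    rw [hQd, ZFSet.mem_sep, ZFSet.mem_sep, ZFSet.mem_powerset]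
    tauto
  -- the family
  have hT : DMap N N (fun s : V => rep s fun z => ZFSet.pair s z) :=
    DMap.rep DMap.id (DMap.pair (DMap.fst DMap.id) (DMap.snd DMap.id))
  have hFam : rep Q (fun s => rep s fun z => ZFSet.pair s z) ∈ N := ZFm.rep_mem hT hQ
  obtain ⟨c, hc, hch⟩ := hac _ hFam (by
    intro y _ hy
    obtain ⟨s, hs, rfl⟩ := mem_rep.1 hy
    obtain ⟨h1, h2, h3⟩ := (memQ s).1 hs
    obtain ⟨z, hz⟩ : ∃ z, z ∈ s := by
      by_contra hcon
      push Not at hcon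
      exact h3 ((ZFSet.eq_empty s).2 hcon)
    refine ⟨ZFSet.pair s z, pair_mem_iff.2 ⟨h1, TrC.trans h1 hz⟩, mem_rep.2 ⟨z, hz, rfl⟩⟩) (by
    intro y _ y' _ hy hy' ⟨z, _, hz, hz'⟩
    obtain ⟨s, hs, rfl⟩ := mem_rep.1 hy
    obtain ⟨s', hs', rfl⟩ := mem_rep.1 hy'
    obtain ⟨w, hw, rfl⟩ := mem_rep.1 hz
    obtain ⟨w', hw', e⟩ := mem_rep.1 hz'
    obtain ⟨rfl, rfl⟩ := ZFSet.pair_injective e
    rfl)
  -- the choice function
  have hchm : ∀ s ∈ Q, ch c s ∈ s := by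
    intro s hs
    have hsN := ((memQ s).1 hs).1
    have hTs : (rep s fun z => ZFSet.pair s z) ∈ rep Q (fun s => rep s fun z => ZFSet.pair s z) :=
      mem_rep.2 ⟨s, hs, rfl⟩
    obtain ⟨p, ⟨_, hp2, hp3⟩, hp4⟩ := hch _ (TrC.trans hFam hTs) hTs
    obtain ⟨z, hz, rfl⟩ := mem_rep.1 hp2
    have e : (ZFSet.sep (fun z => ZFSet.pair s z ∈ c) s : V) = {z} := by
      ext w
      rw [ZFSet.mem_sep, ZFSet.mem_singleton]
      constructor
      · rintro ⟨hw, hwc⟩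
        have h5 := hp4 (ZFSet.pair s w) ⟨pair_mem_iff.2 ⟨hsN, TrC.trans hsN hw⟩,
          mem_rep.2 ⟨w, hw, rfl⟩, hwc⟩
        exact (ZFSet.pair_injective h5).2
      · rintro rfl
        exact ⟨hz, hp3⟩
    unfold ch
    rw [e, sUnion_sing]
    exact hz
  have hg := dmap_g hc hx
  have hgN : ∀ a ∈ N, g c x a ∈ N := fun a ha => hg.mem (inM_V.2 ha)
  have hran : ∀ a ∈ N, rep a (g c x) ∈ N := fun a ha => ZFm.rep_mem hg ha
  -- values
  have hval1 : ∀ a ∈ N, g c x a ∈ x → g c x a ∉ rep a (g c x) := by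
    intro a ha h1 h2
    have h3 := g_eq c x a
    unfold stp at h3
    by_cases h4 : x \ rep a (g c x) = ∅
    · rw [if_pos h4] at h3
      rw [h3] at h1
      exact ZFSet.mem_asymm h1 (ZFSet.mem_singleton.2 rfl)
    · rw [if_neg h4] at h3
      have h5 : x \ rep a (g c x) ∈ Q := by
        rw [memQ]
        refine ⟨?_, fun z hz => (mem_dif.1 hz).1, h4⟩
        exact (DMap.diff (A := N) (M := N) (DMap.const hx hx) DMap.id).mem
          (γ := (rep a (g c x) : V)) (inM_V.2 (hran a ha))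
      have h6 := hchm _ h5
      rw [← h3] at h6
      exact (mem_dif.1 h6).2 h2
  have hval2 : ∀ a ∈ N, g c x a ∉ x → ∀ y ∈ x, y ∈ rep a (g c x) := by
    intro a ha h1 y hy
    by_contra h2
    have h3 := g_eq c x a
    unfold stp at h3
    have h4 : x \ rep a (g c x) ≠ ∅ := by
      intro h5
      have h6 : y ∈ x \ rep a (g c x) := mem_dif.2 ⟨hy, h2⟩
      rw [h5] at h6
      exact ZFSet.notMem_empty _ h6
    rw [if_neg h4] at h3
    have h5 : x \ rep a (g c x) ∈ Q := by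
      rw [memQ]
      refine ⟨?_, fun z hz => (mem_dif.1 hz).1, h4⟩
      exact (DMap.diff (A := N) (M := N) (DMap.const hx hx) DMap.id).mem
        (γ := (rep a (g c x) : V)) (inM_V.2 (hran a ha))
    have h6 := hchm _ h5
    rw [← h3] at h6
    exact h1 (mem_dif.1 h6).1
  have hinj : ∀ a ∈ N, ∀ b ∈ N, a.IsOrdinal → b.IsOrdinal → g c x a ∈ x →
      g c x a = g c x b → a = b := by
    intro a ha b hb oa ob h1 h2
    rcases oa.mem_trichotomous ob with h3 | h3 | h3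
    · exfalso
      have h4 : g c x b ∈ x := h2 ▸ h1
      exact hval1 b hb h4 (mem_rep.2 ⟨a, h3, h2⟩)
    · exact h3
    · exfalso
      exact hval1 a ha h1 (mem_rep.2 ⟨b, h3, h2.symm⟩)
  -- some value is not in `x`
  have hex : ∃ a ∈ N, a.IsOrdinal ∧ g c x a ∉ x := by
    by_contra hno
    push Not at hno
    have hdfn : Dfn N N (fun p : V × V => p.2.IsOrdinal ∧ g c x p.2 = p.1) :=
      Dfn.and (D0.isOrdinal (Prj.snd Prj.id)).dfn
        (Dfn.eq (hg.comp (DMap.snd DMap.id)) (DMap.fst DMap.id))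
    have hR : ZFSet.sep (fun y => ∃ a ∈ N, a.IsOrdinal ∧ g c x a = y) x ∈ N := by
      refine ZFm.sep_mem (Dfn.ex (P := fun y a => a.IsOrdinal ∧ g c x a = y) ?_) hx
      exact hdfn
    obtain ⟨b, hb, hb2⟩ := ZFm.coll (M := N) (P := fun y a => a.IsOrdinal ∧ g c x a = y) hdfn hR
      (fun y hy => (ZFSet.mem_sep.1 hy).2)
    have hall : ∀ a ∈ N, a.IsOrdinal → a ∈ b := by
      intro a ha oa
      obtain ⟨a', ha', oa', e⟩ := hb2 (g c x a) (ZFSet.mem_sep.2 ⟨hno a ha oa, a, ha, oa, rfl⟩)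
      have h1 := hinj a ha a' (TrC.trans hb ha') oa oa' (hno a ha oa) e.symm
      rw [h1]
      exact ha'
    have hO : ZFSet.sep (fun a : V => a.IsOrdinal) b ∈ N :=
      ZFm.sep_mem (D0.isOrdinal Prj.id).dfn hb
    have hOo : (ZFSet.sep (fun a : V => a.IsOrdinal) b : V).IsOrdinal := by
      rw [ZFSet.isOrdinal_iff_forall_mem_isOrdinal]
      refine ⟨fun y hy z hz => ?_, fun y hy => (ZFSet.mem_sep.1 hy).2⟩
      obtain ⟨h1, h2⟩ := ZFSet.mem_sep.1 hy
      have oz : z.IsOrdinal := h2.mem hz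
      exact ZFSet.mem_sep.2 ⟨hall z (TrC.trans (TrC.trans hb h1) hz) oz, oz⟩
    exact ZFSet.mem_irrefl _ (ZFSet.mem_sep.2 ⟨hall _ hO hOo, hOo⟩)
  -- the least one
  obtain ⟨a, ⟨haN, oa, hax⟩, hmin⟩ := ZFSet.mem_wf.has_min
    {a : V | a ∈ N ∧ a.IsOrdinal ∧ g c x a ∉ x} (by
      obtain ⟨a, h1, h2, h3⟩ := hex
      exact ⟨a, h1, h2, h3⟩)
  have hlt : ∀ b ∈ a, b ∈ N ∧ b.IsOrdinal ∧ g c x b ∈ x := by
    intro b hb
    have hbN : b ∈ N := TrC.trans haN hb
    have ob : b.IsOrdinal := oa.mem hb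
    refine ⟨hbN, ob, ?_⟩
    by_contra h
    exact hmin b ⟨hbN, ob, h⟩ hb
  have hfN : rep a (fun b => ZFSet.pair (g c x b) b) ∈ N :=
    ZFm.rep_mem (DMap.pair hg DMap.id) haN
  set f : V := rep a (fun b => ZFSet.pair (g c x b) b) with hf
  have hmem : ∀ y b, ZFSet.pair y b ∈ f ↔ b ∈ a ∧ g c x b = y := by
    intro y b
    rw [hf, mem_rep]
    constructor
    · rintro ⟨b', hb', e⟩
      obtain ⟨rfl, rfl⟩ := ZFSet.pair_injective e
      exact ⟨hb', rfl⟩
    · rintro ⟨h1, rfl⟩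
      exact ⟨b, h1, rfl⟩
  have hfn : IsFn f := by
    refine ⟨fun p hp => ?_, fun y b b' h1 h2 => ?_⟩
    · obtain ⟨b, _, rfl⟩ := mem_rep.1 hp
      exact ⟨_, _, rfl⟩
    · obtain ⟨h3, h4⟩ := (hmem _ _).1 h1
      obtain ⟨h5, h6⟩ := (hmem _ _).1 h2
      obtain ⟨k1, k2, k3⟩ := hlt b h3
      obtain ⟨l1, l2, _⟩ := hlt b' h5
      exact hinj b k1 b' l1 k2 l2 k3 (h4.trans h6.symm)
  have hdom : dom f = x := by
    ext y
    rw [mem_dom]
    constructor
    · rintro ⟨b, hb⟩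
      obtain ⟨h1, rfl⟩ := (hmem _ _).1 hb
      exact (hlt b h1).2.2
    · intro hy
      obtain ⟨b, hb, e⟩ := mem_rep.1 (hval2 a haN hax y hy)
      exact ⟨b, (hmem _ _).2 ⟨hb, e⟩⟩
  have happ : ∀ y ∈ x, ∃ b ∈ a, g c x b = y ∧ app f y = b := by
    intro y hy
    rw [← hdom, mem_dom] at hy
    obtain ⟨b, hb⟩ := hy
    obtain ⟨h1, h2⟩ := (hmem _ _).1 hb
    exact ⟨b, h1, h2, hfn.app_eq hb⟩
  refine ⟨f, hfN, hfn, hdom, ?_, ?_⟩
  · intro y hy y' hy' e
    rw [hdom] at hy hy'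
    obtain ⟨b, _, h1, h2⟩ := happ y hy
    obtain ⟨b', _, h3, h4⟩ := happ y' hy'
    rw [h2, h4] at e
    rw [← h1, ← h3, e]
  · intro y hy
    obtain ⟨b, hb, _, h2⟩ := happ y hy
    rw [h2]
    exact (hlt b hb).2.1

end Pool.Agent.GMD
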