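import Pool.Agent.GMD.EXT
import Pool.Agent.GMD.COL
import Pool.Agent.GMD.ZER
import Pool.Agent.GMD.VAL
import Pool.Agent.GMD.AUT
import Pool.Agent.GMD.HOM
import Pool.Agent.GMD.DIC

/-!
Assembly of the results on patterns (MP_3241a1_lc).
-/

set_option autoImplicit false

namespace Pool.Agent.GMD

open Pool.Agent.CTM

theorem part1 {N : Set V} (h : ModelZFC N) {r : ℕ → Bool} (hr : Realizes N r) :
    pcode r ∈ N ∧ ∃ φ : SetFormula 1, ∀ x ∈ N, φ.Holds N (fun _ => x) ↔ x = pcode r :=
  pattern_definable (toC COL_thm h) hr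

theorem part2 (α : Ordinal.{0}) (hα : (Set.Iio α).Countable) :
    ∃ f : (ℕ → Bool) → (ℕ → Bool), Continuous f ∧ Function.Injective f ∧
      ∀ s, f s 1 = false ∧ f s 2 = true ∧
        ∀ N : Set ZFSet.{0}, ModelZFC N → Realizes N (f s) → α.toZFSet ∈ N := by
  obtain ⟨f, h1, h2, h3⟩ := ordinal_pattern α hα
  exact ⟨f, h1, h2, fun s => ⟨(h3 s).1, (h3 s).2.1, fun N hN =>
    (h3 s).2.2 N (toC COL_thm hN)⟩⟩

theorem part2' (M : Set ZFSet.{0}) (hM : M.Countable) :
    ∃ f : (ℕ → Bool) → (ℕ → Bool), Continuous f ∧ Function.Injective f ∧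
      ∀ s, f s 1 = false ∧ f s 2 = true ∧
        ∀ N : Set ZFSet.{0}, ModelZFC N → (∀ x ∈ N, x.IsOrdinal → x ∈ M) →
          ¬ Realizes N (f s) := by
  obtain ⟨f, h1, h2, h3⟩ := height_pattern M hM
  exact ⟨f, h1, h2, fun s => ⟨(h3 s).1, (h3 s).2.1, fun N hN =>
    (h3 s).2.2 N (toC COL_thm hN)⟩⟩

/-- Generic extensions have no new ordinals. -/
theorem no_new_ordinals {M : Set V} (hMc : M.Countable) (hM : ModelZFC M) {P L t G : V}
    (h : Forcing M P L t) (hG : GenericFilter M P L G) {N : Set V} (hN : IsExtension M G N) :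
    ∀ x ∈ N, x.IsOrdinal → x ∈ M := by
  have := zfcm ZER_thm (toC COL_thm hM)
  have hPc : Pc P L t ∈ M := Pc_mem h.P_mem h.L_mem (TrC.trans h.P_mem h.top_mem)
  rw [ext_eq VAL_thm COL_thm hMc h hG hN]
  exact (stmt_ext M hMc (Pc P L t) hPc (empty_mem_Pc h) _ (generic_img h hG)).2.2.2.2

theorem part2'' (M : Set ZFSet.{0}) (hMc : M.Countable) :
    ∃ f : (ℕ → Bool) → (ℕ → Bool), Continuous f ∧ Function.Injective f ∧
      ∀ s, f s 1 = false ∧ f s 2 = true ∧
        (∀ N : Set ZFSet.{0}, ModelZFC N → (∀ x ∈ N, x.IsOrdinal → x ∈ M) →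
          ¬ Realizes N (f s)) ∧
        (ModelZFC M → ∀ P L t G : ZFSet.{0}, ∀ N : Set ZFSet.{0}, Forcing M P L t →
          GenericFilter M P L G → IsExtension M G N → ¬ Realizes N (f s)) := by
  obtain ⟨f, h1, h2, h3⟩ := part2' M hMc
  exact ⟨f, h1, h2, fun s => ⟨(h3 s).1, (h3 s).2.1, (h3 s).2.2, fun hM P L t G N h hG hN =>
    (h3 s).2.2 N hN.model (no_new_ordinals hMc hM h hG hN)⟩⟩

theorem part3 {M : Set V} (hMc : M.Countable) (hM : ModelZFC M) {P L t : V}
    (h : Forcing M P L t) (hW : WeaklyHomogeneous M P L) :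
    (∃ G N, GenericFilter M P L G ∧ IsExtension M G N) ∧
    ∃ r : ℕ → Bool, pcode r ∈ M ∧
      ∀ G N, GenericFilter M P L G → IsExtension M G N → Realizes N r :=
  homogeneous VAL_thm AUT_thm HOM_thm ZER_thm COL_thm hMc hM h hW

/-- The dichotomy for the patterns realized by the generic extensions for one forcing notion. -/
theorem part4 {M : Set V} (hMc : M.Countable) (hM : ModelZFC M) {P L t : V}
    (h : Forcing M P L t) :
    (∀ G N r, GenericFilter M P L G → IsExtension M G N → Realizes N r → pcode r ∈ M) ∨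
    ∃ f : (ℕ → Bool) → (ℕ → Bool), Continuous f ∧ Function.Injective f ∧
      ∀ s, ∃ G N, GenericFilter M P L G ∧ IsExtension M G N ∧ Realizes N (f s) := by
  classical
  have := zfcm ZER_thm (toC COL_thm hM)
  have hp : Pow M := fun hx => ZFCm.power_mem hx
  have hPc : Pc P L t ∈ M := Pc_mem h.P_mem h.L_mem (TrC.trans h.P_mem h.top_mem)
  have h0 := empty_mem_Pc h
  obtain ⟨k, c, φ, hφ⟩ := uni_thm
  have hU : ∀ G', Generic M (Pc P L t) G' → ∀ m : ℕ,
      (φ.Sat (Ext M G') (fun x y => x ∈ y) Empty.elim (Fin.snoc c (nn m)) ↔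
        Unif (Baire (Ext M G')) m) := by
    intro G' hG'
    have hE : ZFCm (Ext M G') := (stmt_ext M hMc (Pc P L t) hPc h0 G' hG').1
    exact (hφ (Ext M G') (fun hx => ZFCm.power_mem hx)).2
  rcases DIC_thm M hMc (Pc P L t) hPc h0 k φ c (hφ M hp).1 with h1 | ⟨F, hF, h2, h3⟩
  · left
    intro G N r hG hN hr
    have hG' := generic_img h hG
    have h4 := h1 _ hG'
    rw [ext_eq VAL_thm COL_thm hMc h hG hN] at hr
    set G' : V := rep G (cd P L t) with hG'd
    set X : V := ZFSet.sep (fun z => φ.Sat (Ext M G') (fun x y => x ∈ y) Empty.elim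
      (Fin.snoc c z)) ZFSet.omega with hX
    have hcX : ∀ {Γ : Type 1} [Ctx Γ], DMap M M (fun _ : Γ => X) := DMap.const h4 h4
    have h5 : DMap M M (fun _ : V => gr (fun n => if n = ∅ then nn (r 0).toNat else
        if n ∈ X then nn 1 else nn 0) ZFSet.omega) := by
      refine DMap.gr (F := fun _ n => if n = ∅ then nn (r 0).toNat else
        if n ∈ X then nn 1 else nn 0) DMap.omega
        (DMap.ite (Dfn.eq (DMap.snd DMap.id) DMap.empty) (DMap.nn _)
          (DMap.ite (Dfn.mem (DMap.snd DMap.id) hcX) (DMap.nn 1) (DMap.nn 0)))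
    have h6 := h5.mem (γ := ∅) (inM_V.2 ZFm.empty_mem)
    have e : gr (fun n => if n = ∅ then nn (r 0).toNat else
        if n ∈ X then nn 1 else nn 0) ZFSet.omega = pcode r := by
      unfold pcode
      rw [code_eq]
      refine fn_ext (isFn_gr _ _) (isFn_gr _ _) ?_ ?_
      · rw [dom_gr, dom_gr]
      · intro x hx
        rw [dom_gr] at hx
        obtain ⟨n, rfl⟩ := mem_omega.1 hx
        rw [app_gr hx, app_gr hx, num_nn]
        cases n with
        | zero => rw [if_pos (nn_eq_empty.2 rfl)]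
        | succ n =>
          rw [if_neg (fun h' => Nat.succ_ne_zero n (nn_eq_empty.1 h'))]
          have h7 : nn (n + 1) ∈ X ↔ r (n + 1) = true := by
            rw [hX, ZFSet.mem_sep, hU G' hG', ← hr (n + 1) (by omega)]
            exact ⟨fun h => h.2, fun h => ⟨hx, h⟩⟩
          by_cases h8 : r (n + 1) = true
          · rw [if_pos (h7.2 h8), h8]
            rfl
          · rw [if_neg (fun h' => h8 (h7.1 h'))]
            rw [Bool.not_eq_true] at h8
            rw [h8]
            rfl
    rw [← e]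
    exact h6
  · right
    have hdec : ∀ (x : ℕ → Bool) (m : ℕ),
        (φ.Sat (Ext M (F x)) (fun x y => x ∈ y) Empty.elim (Fin.snoc c (nn m)) ↔
          Unif (Baire (Ext M (F x))) m) := fun x m => hU _ (hF x) m
    refine ⟨fun x m => decide (Unif (Baire (Ext M (F x))) m), ?_, ?_, ?_⟩
    · refine continuous_pi fun m => ?_
      rw [continuous_iff_continuousAt]
      intro x
      obtain ⟨k', hk⟩ := h2 x m
      have hopen : IsOpen {y : ℕ → Bool | ∀ i < k', y i = x i} := by
        have : {y : ℕ → Bool | ∀ i < k', y i = x i} =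
            ⋂ i ∈ Finset.range k', {y : ℕ → Bool | y i = x i} := by
          ext y
          simp
        rw [this]
        refine isOpen_biInter_finset fun i _ => ?_
        show IsOpen ((fun y : ℕ → Bool => y i) ⁻¹' {x i})
        exact (isOpen_discrete ({x i} : Set Bool)).preimage (continuous_apply i)
      refine ContinuousAt.congr (f := fun _ => decide (Unif (Baire (Ext M (F x))) m))
        continuousAt_const ?_
      filter_upwards [hopen.mem_nhds (show x ∈ {y : ℕ → Bool | ∀ i < k', y i = x i} from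
        fun i _ => rfl)] with y hy
      have h4 := hk y hy
      rw [hdec, hdec] at h4
      exact decide_eq_decide.2 h4.symm
    · intro x y hxy
      refine h3 x y fun m => ?_
      rw [hdec, hdec]
      exact decide_eq_decide.1 (congrFun hxy m)
    · intro s
      obtain ⟨hG, hG2⟩ := generic_pre h (hF s)
      refine ⟨_, _, hG, ext_isExtension VAL_thm COL_thm hMc h hG, fun m _ => ?_⟩
      rw [hG2, decide_eq_true_iff]

end Pool.Agent.GMD
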