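import Pool.Agent.GMD.Comp

/-!
The lightface projective hierarchy inside a transitive model.
-/

set_option autoImplicit false

namespace Pool.Agent.GMD

open Pool.Agent.CTM Pool.Agent.CTM.SO1

/-! ### Computable functions -/

theorem dmap_comp {N : Set V} [ZFm N] {f : ℕ → ℕ} (hf : Computable f) {Γ : Type 1} [Ctx Γ]
    {g : Γ → V} (hg : DMap ∅ N g) : DMap ∅ N (fun γ => nn (f (num (g γ)))) := by
  have h1 : Nat.Partrec (fun n => Part.some (f n)) := Partrec.nat_iff.1 hf.partrec
  have h2 := (pd_of_partrec (N := N) h1).app hg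
  refine (DMap.sUnion h2).congr fun γ _ => ?_
  show ZFSet.sUnion (pv (Part.some (f (num (g γ))))) = _
  rw [pv_some, ZFSet.sUnion_singleton]

theorem computable_half : Computable (fun n : ℕ => n / 2) :=
  (Primrec.nat_div.comp Primrec.id (Primrec.const 2)).to_comp

theorem computable_parity : Computable (fun n : ℕ => n % 2) :=
  (Primrec.nat_mod.comp Primrec.id (Primrec.const 2)).to_comp

theorem computable_dbl : Computable (fun n : ℕ => 2 * n) :=
  (Primrec.nat_mul.comp (Primrec.const 2) Primrec.id).to_comp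

theorem computable_dbl1 : Computable (fun n : ℕ => 2 * n + 1) :=
  (Primrec.succ.comp (Primrec.nat_mul.comp (Primrec.const 2) Primrec.id)).to_comp

/-- The universal partial function. -/
def uni (n : ℕ) : Part ℕ := (Denumerable.ofNat Nat.Partrec.Code n.unpair.1).eval n.unpair.2

theorem uni_partrec : Nat.Partrec uni := by
  refine Partrec.nat_iff.1 ?_
  exact Nat.Partrec.Code.eval_part.comp
    ((Computable.ofNat Nat.Partrec.Code).comp (Computable.fst.comp Computable.unpair))
    (Computable.snd.comp Computable.unpair)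

/-- The entries of the list with the number `m`. -/
def ent (n : ℕ) : Part ℕ := Part.ofOption ((Denumerable.ofNat (List ℕ) n.unpair.1)[n.unpair.2]?)

theorem ent_partrec : Nat.Partrec ent := by
  refine Partrec.nat_iff.1 (Computable.ofOption ?_)
  exact Computable.list_getElem?.comp
    ((Computable.ofNat (List ℕ)).comp (Computable.fst.comp Computable.unpair))
    (Computable.snd.comp Computable.unpair)

/-! ### Reals -/

theorem code_eq (f : ℕ → ℕ) : code f = gr (fun n => nn (f (num n))) ZFSet.omega := by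
  ext p
  rw [mem_gr]
  show p ∈ ZFSet.range _ ↔ _
  rw [ZFSet.mem_range]
  constructor
  · rintro ⟨n, rfl⟩
    exact ⟨nn n, nn_mem_omega n, by rw [num_nn, numeral_eq, numeral_eq]⟩
  · rintro ⟨x, hx, rfl⟩
    obtain ⟨n, rfl⟩ := mem_omega.1 hx
    exact ⟨n, by show ZFSet.pair (numeral n) (numeral (f n)) = _; rw [num_nn, numeral_eq,
      numeral_eq]⟩

theorem isFn_code (f : ℕ → ℕ) : IsFn (code f) := by
  rw [code_eq]
  exact isFn_gr _ _

theorem dom_code (f : ℕ → ℕ) : dom (code f) = ZFSet.omega := by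
  rw [code_eq, dom_gr]

theorem app_code (f : ℕ → ℕ) (n : ℕ) : app (code f) (nn n) = nn (f n) := by
  rw [code_eq, app_gr (nn_mem_omega n), num_nn]

theorem pair_mem_code {f : ℕ → ℕ} {i j : ℕ} : ZFSet.pair (nn i) (nn j) ∈ code f ↔ f i = j := by
  rw [code_eq, mem_gr]
  constructor
  · rintro ⟨x, _, e⟩
    obtain ⟨rfl, e⟩ := ZFSet.pair_injective e
    rw [num_nn] at e
    exact nn_inj e
  · rintro rfl
    exact ⟨nn i, nn_mem_omega i, by rw [num_nn]⟩

theorem code_inj : Function.Injective code := by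
  intro f g h
  funext n
  have h1 := app_code f n
  rw [h, app_code] at h1
  exact (nn_inj h1).symm

/-- The function coded by `x`. -/
noncomputable def dec (x : V) : ℕ → ℕ := fun n => num (app x (nn n))

theorem isMap_code (f : ℕ → ℕ) : IsMap (code f) ZFSet.omega ZFSet.omega := by
  refine ⟨isFn_code f, dom_code f, fun x hx => ?_⟩
  obtain ⟨n, rfl⟩ := mem_omega.1 hx
  rw [app_code]
  exact nn_mem_omega _

theorem code_dec {x : V} (h : IsMap x ZFSet.omega ZFSet.omega) : code (dec x) = x := by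
  refine fn_ext (isFn_code _) h.1 ?_ ?_
  · rw [dom_code, h.2.1]
  · intro y hy
    rw [dom_code] at hy
    obtain ⟨n, rfl⟩ := mem_omega.1 hy
    rw [app_code]
    exact nn_num (h.2.2 _ hy)

/-- The class of the codes of reals. -/
theorem isMap_iff {x : V} : IsMap x ZFSet.omega ZFSet.omega ↔ ∃ f, x = code f := by
  constructor
  · intro h
    exact ⟨dec x, (code_dec h).symm⟩
  · rintro ⟨f, rfl⟩
    exact isMap_code f

/-- The set of the reals of `N`. -/
noncomputable def RB (N : Set V) : V :=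
  ZFSet.sep (fun x => x ∈ N ∧ IsMap x ZFSet.omega ZFSet.omega)
    (ZFSet.powerset (ZFSet.prod ZFSet.omega ZFSet.omega))

theorem mem_RB {N : Set V} {x : V} : x ∈ RB N ↔ x ∈ N ∧ IsMap x ZFSet.omega ZFSet.omega := by
  unfold RB
  rw [ZFSet.mem_sep, ZFSet.mem_powerset]
  constructor
  · exact fun h => h.2
  · intro h
    refine ⟨fun p hp => ?_, h⟩
    obtain ⟨f, rfl⟩ := isMap_iff.1 h.2
    rw [code_eq, mem_gr] at hp
    obtain ⟨n, hn, rfl⟩ := hp
    rw [ZFSet.pair_mem_prod]
    exact ⟨hn, nn_mem_omega _⟩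

theorem code_mem_RB {N : Set V} {f : ℕ → ℕ} : code f ∈ RB N ↔ f ∈ Baire N := by
  rw [mem_RB]
  exact ⟨fun h => h.1, fun h => ⟨h, isMap_code f⟩⟩

theorem ex_of_mem_RB {N : Set V} {x : V} (h : x ∈ RB N) : ∃ f ∈ Baire N, x = code f := by
  obtain ⟨f, rfl⟩ := isMap_iff.1 (mem_RB.1 h).2
  exact ⟨f, code_mem_RB.1 h, rfl⟩

/-- Closure under power sets. -/
def Pow (N : Set V) : Prop :=
  ∀ {x : V}, x ∈ N → ZFSet.sep (fun y => y ∈ N) (ZFSet.powerset x) ∈ N

section

variable {N : Set V} [ZFm N]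

theorem RB_mem (hp : Pow N) : RB N ∈ N := by
  have hprod : (ZFSet.prod ZFSet.omega ZFSet.omega : V) ∈ N := by
    have : DMap ∅ N (fun _ : PUnit.{2} => (ZFSet.prod ZFSet.omega ZFSet.omega : V)) := by
      apply_rules (transparency := .reducible) (maxDepth := 999) only [DMap.omega, DMap.prod] using is_poly
    exact this.mem (γ := PUnit.unit) inM_unit
  have h1 := hp hprod
  have h2 : Dfn ∅ N (fun x : V => IsMap x ZFSet.omega ZFSet.omega) :=
    Dfn.isMap DMap.id DMap.omega DMap.omega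
  have h3 := ZFm.sep_mem' h2 h1
  have e : ZFSet.sep (fun x : V => IsMap x ZFSet.omega ZFSet.omega)
      (ZFSet.sep (fun y => y ∈ N) (ZFSet.powerset (ZFSet.prod ZFSet.omega ZFSet.omega))) = RB N := by
    ext x
    unfold RB
    rw [ZFSet.mem_sep, ZFSet.mem_sep, ZFSet.mem_sep]
    tauto
  rw [← e]
  exact h3

theorem dmap_RB (hp : Pow N) {Γ : Type 1} [Ctx Γ] : DMap ∅ N (fun _ : Γ => RB N) := by
  refine DMap.of_graph (fun _ _ => RB_mem hp) ?_
  refine Dfn.congr' (P := fun p : Γ × V => ∀ x ∈ N, (x ∈ p.2 ↔ IsMap x ZFSet.omega ZFSet.omega))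
    (fun p hp' => ?_) ?_
  · have hpN : p.2 ∈ N := (inM_prod.1 hp').2
    constructor
    · intro e x hx
      rw [e, mem_RB]
      exact ⟨fun h => h.2, fun h => ⟨hx, h⟩⟩
    · intro h
      ext x
      rw [mem_RB]
      constructor
      · intro hx
        have hxN := TrC.trans hpN hx
        exact ⟨hxN, (h x hxN).1 hx⟩
      · rintro ⟨hxN, hx⟩
        exact (h x hxN).2 hx
  · refine Dfn.all (Dfn.iff (Dfn.mem (DMap.snd DMap.id) (DMap.snd (DMap.fst DMap.id))) ?_)
    exact Dfn.isMap (DMap.snd DMap.id) DMap.omega DMap.omega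

end

/-! ### The join -/

/-- The join, on codes. -/
noncomputable def Jn (x y : V) : V := open Classical in
  gr (fun n => if nn (num n % 2) = ∅ then app x (nn (num n / 2)) else app y (nn (num n / 2)))
    ZFSet.omega

theorem nn_eq_empty {n : ℕ} : nn n = ∅ ↔ n = 0 := by
  constructor
  · intro h
    exact nn_inj (h.trans (rfl : (∅ : V) = nn 0))
  · rintro rfl
    rfl

theorem Jn_code (f g : ℕ → ℕ) : Jn (code f) (code g) = code (join f g) := by
  unfold Jn
  refine fn_ext (isFn_gr _ _) (isFn_code _) ?_ ?_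
  · rw [dom_gr, dom_code]
  · intro x hx
    rw [dom_gr] at hx
    obtain ⟨n, rfl⟩ := mem_omega.1 hx
    rw [app_gr hx, app_code, num_nn, app_code, app_code]
    unfold join
    by_cases h : n % 2 = 0
    · rw [if_pos (nn_eq_empty.2 h), if_pos h]
    · rw [if_neg (fun h' => h (nn_eq_empty.1 h')), if_neg h]

section

variable {N : Set V} [ZFm N]

theorem dmap_par : DMap ∅ N (fun p : (V × V) × V => nn (num p.2 % 2)) :=
  dmap_comp (f := fun n => n % 2) computable_parity (DMap.snd DMap.id)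

theorem dmap_half : DMap ∅ N (fun p : (V × V) × V => nn (num p.2 / 2)) :=
  dmap_comp (f := fun n => n / 2) computable_half (DMap.snd DMap.id)

open Classical in
theorem dmap_Jn_ite : DMap ∅ N (fun p : (V × V) × V => if nn (num p.2 % 2) = ∅
    then app p.1.1 (nn (num p.2 / 2)) else app p.1.2 (nn (num p.2 / 2))) :=
  DMap.ite (Dfn.eq dmap_par DMap.empty) (DMap.app (DMap.fst (DMap.fst DMap.id)) dmap_half)
    (DMap.app (DMap.snd (DMap.fst DMap.id)) dmap_half)

open Classical in
theorem dmap_Jn0 : DMap ∅ N (fun p : V × V => Jn p.1 p.2) :=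
  DMap.gr (F := fun (p : V × V) n => if nn (num n % 2) = ∅
    then app p.1 (nn (num n / 2)) else app p.2 (nn (num n / 2))) DMap.omega dmap_Jn_ite

theorem dmap_Jn {Γ : Type 1} [Ctx Γ] {f g : Γ → V} (hf : DMap ∅ N f)
    (hg : DMap ∅ N g) : DMap ∅ N (fun γ => Jn (f γ) (g γ)) := by
  have h1 := DMap.comp (f := fun p : V × V => Jn p.1 p.2) dmap_Jn0 (g := fun γ => (f γ, g γ))
    (hf.prodMk hg)
  exact h1

end

/-- The two parts of a real. -/
def lft (z : ℕ → ℕ) : ℕ → ℕ := fun n => z (2 * n)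
def rgt (z : ℕ → ℕ) : ℕ → ℕ := fun n => z (2 * n + 1)

theorem join_lr (z : ℕ → ℕ) : join (lft z) (rgt z) = z := by
  funext n
  unfold join lft rgt
  by_cases h : n % 2 = 0
  · rw [if_pos h]
    congr 1
    omega
  · rw [if_neg h]
    congr 1
    omega

theorem lft_join (x y : ℕ → ℕ) : lft (join x y) = x := by
  funext n
  unfold join lft
  show (if 2 * n % 2 = 0 then x (2 * n / 2) else y (2 * n / 2)) = x n
  rw [if_pos (by omega)]
  congr 1
  omega

theorem rgt_join (x y : ℕ → ℕ) : rgt (join x y) = y := by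
  funext n
  unfold join rgt
  show (if (2 * n + 1) % 2 = 0 then x ((2 * n + 1) / 2) else y ((2 * n + 1) / 2)) = y n
  rw [if_neg (by omega)]
  congr 1
  omega

theorem join_inj {x y x' y' : ℕ → ℕ} (h : join x y = join x' y') : x = x' ∧ y = y' := by
  constructor
  · rw [← lft_join x y, h, lft_join]
  · rw [← rgt_join x y, h, rgt_join]

section

variable {N : Set V} [ZFm N]

theorem join_mem {x y : ℕ → ℕ} (hx : x ∈ Baire N) (hy : y ∈ Baire N) : join x y ∈ Baire N := by
  have h : DMap ∅ N (fun p : V × V => Jn p.1 p.2) :=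
    dmap_Jn (DMap.fst DMap.id) (DMap.snd DMap.id)
  have h1 := h.mem (γ := (code x, code y)) (inM_prod.2 ⟨inM_V.2 hx, hy⟩)
  show code (join x y) ∈ N
  rw [← Jn_code]
  exact h1

theorem sub_mem {f : ℕ → ℕ} (hf : Computable f) {z : ℕ → ℕ} (hz : z ∈ Baire N) :
    (fun n => z (f n)) ∈ Baire N := by
  have h : DMap ∅ N (fun x : V => gr (fun n => app x (nn (f (num n)))) ZFSet.omega) := by
    refine DMap.gr DMap.omega (DMap.app (DMap.fst DMap.id) ?_)
    exact dmap_comp hf (DMap.snd DMap.id)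
  have h1 := h.mem (γ := code z) (inM_V.2 hz)
  have e : gr (fun n => app (code z) (nn (f (num n)))) ZFSet.omega = code (fun n => z (f n)) := by
    refine fn_ext (isFn_gr _ _) (isFn_code _) ?_ ?_
    · rw [dom_gr, dom_code]
    · intro x hx
      rw [dom_gr] at hx
      obtain ⟨n, rfl⟩ := mem_omega.1 hx
      rw [app_gr hx, app_code, num_nn, app_code]
  show code _ ∈ N
  rw [← e]
  exact h1

theorem lft_mem {z : ℕ → ℕ} (hz : z ∈ Baire N) : lft z ∈ Baire N := sub_mem computable_dbl hz
theorem rgt_mem {z : ℕ → ℕ} (hz : z ∈ Baire N) : rgt z ∈ Baire N := sub_mem computable_dbl1 hz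

end

end Pool.Agent.GMD
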