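import Pool.Agent.GMD.Hier

/-!
The lightface projective hierarchy inside a transitive model, second part.
-/

set_option autoImplicit false

namespace Pool.Agent.GMD

open Pool.Agent.CTM Pool.Agent.CTM.SO1

/-- The set of the codes of the elements of `A`. -/
noncomputable def sc (N : Set V) (A : Set (ℕ → ℕ)) : V :=
  ZFSet.sep (fun x => ∃ f ∈ A, x = code f) (RB N)

theorem mem_sc {N : Set V} {A : Set (ℕ → ℕ)} {z : V} :
    z ∈ sc N A ↔ ∃ f ∈ A, f ∈ Baire N ∧ z = code f := by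
  unfold sc
  rw [ZFSet.mem_sep]
  constructor
  · rintro ⟨h, f, hf, rfl⟩
    exact ⟨f, hf, code_mem_RB.1 h, rfl⟩
  · rintro ⟨f, hf, hN, rfl⟩
    exact ⟨code_mem_RB.2 hN, f, hf, rfl⟩

theorem code_mem_sc {N : Set V} {A : Set (ℕ → ℕ)} {f : ℕ → ℕ} :
    code f ∈ sc N A ↔ f ∈ A ∧ f ∈ Baire N := by
  rw [mem_sc]
  constructor
  · rintro ⟨g, hg, hN, e⟩
    rw [code_inj e]
    exact ⟨hg, hN⟩
  · rintro ⟨h1, h2⟩
    exact ⟨f, h1, h2, rfl⟩

theorem sc_congr {N : Set V} {A B : Set (ℕ → ℕ)} (h : ∀ f ∈ Baire N, (f ∈ A ↔ f ∈ B)) :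
    sc N A = sc N B := by
  ext z
  rw [mem_sc, mem_sc]
  constructor
  · rintro ⟨f, h1, h2, rfl⟩
    exact ⟨f, (h f h2).1 h1, h2, rfl⟩
  · rintro ⟨f, h1, h2, rfl⟩
    exact ⟨f, (h f h2).2 h1, h2, rfl⟩

theorem sc_inj {N : Set V} {A B : Set (ℕ → ℕ)} (hA : A ⊆ Baire N) (hB : B ⊆ Baire N)
    (h : sc N A = sc N B) : A = B := by
  ext f
  constructor
  · intro hf
    have : code f ∈ sc N A := code_mem_sc.2 ⟨hf, hA hf⟩
    rw [h] at this
    exact (code_mem_sc.1 this).1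
  · intro hf
    have : code f ∈ sc N B := code_mem_sc.2 ⟨hf, hB hf⟩
    rw [← h] at this
    exact (code_mem_sc.1 this).1

/-- The effectively open set with the index `e`. -/
def U (e : ℕ) : Set (ℕ → ℕ) :=
  {x | ∃ k, (uni (Nat.pair e (Encodable.encode ((List.range k).map x)))).Dom}

theorem effOpen_U (e : ℕ) : EffOpen (U e) := by
  refine ⟨fun l => (uni (Nat.pair e (Encodable.encode l))).Dom, ?_, fun x => Iff.rfl⟩
  have h : Partrec (fun l : List ℕ => uni (Nat.pair e (Encodable.encode l))) :=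
    (Partrec.nat_iff.2 uni_partrec).comp
      ((Primrec₂.natPair.comp (Primrec.const e) Primrec.encode).to_comp)
  exact h.dom_re

theorem effOpen_iff {A : Set (ℕ → ℕ)} : EffOpen A ↔ ∃ e, A = U e := by
  constructor
  · rintro ⟨W, hW, h⟩
    have hW' : Nat.Partrec fun n => Part.bind (Encodable.decode (α := List ℕ) n) fun a =>
        (Part.assert (W a) fun _ => Part.some ()).map Encodable.encode := hW
    obtain ⟨c, hc⟩ := Nat.Partrec.Code.exists_code.1 hW'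
    refine ⟨Encodable.encode c, ?_⟩
    ext x
    rw [h]
    refine exists_congr fun k => ?_
    show _ ↔ ((Denumerable.ofNat Nat.Partrec.Code (Nat.pair (Encodable.encode c)
      (Encodable.encode ((List.range k).map x))).unpair.1).eval
      (Nat.pair (Encodable.encode c) (Encodable.encode ((List.range k).map x))).unpair.2).Dom
    rw [Nat.unpair_pair, Denumerable.ofNat_encode, hc]
    simp [Part.assert, Part.bind]
  · rintro ⟨e, rfl⟩
    exact effOpen_U e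

/-- The effectively open set with the index `e`, inside `N`. -/
noncomputable def U0 (N : Set V) (e : V) : V :=
  ZFSet.sep (fun x => ∃ m ∈ (ZFSet.omega : V),
    ¬ pv (uni (num (nn (Nat.pair (num e) (num m))))) = ∅ ∧
    ∀ i ∈ (ZFSet.omega : V), ∀ j ∈ pv (ent (num (nn (Nat.pair (num m) (num i))))),
      ZFSet.pair i j ∈ x) (RB N)

theorem pv_eq_empty {o : Part ℕ} : pv o = ∅ ↔ ¬ o.Dom := by
  rw [ZFSet.eq_empty]
  constructor
  · intro h hd
    exact h (nn (o.get hd)) (nn_mem_pv.2 (Part.get_mem hd))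
  · intro h z hz
    obtain ⟨m, hm, _⟩ := mem_pv.1 hz
    exact h (Part.dom_iff_mem.2 ⟨m, hm⟩)

theorem mem_ent {m i j : ℕ} :
    j ∈ ent (Nat.pair m i) ↔ (Denumerable.ofNat (List ℕ) m)[i]? = some j := by
  unfold ent
  rw [Nat.unpair_pair, Part.mem_ofOption]
  exact Iff.rfl

theorem map_range_eq {l : List ℕ} {x : ℕ → ℕ} (h : ∀ i j, l[i]? = some j → x i = j) :
    (List.range l.length).map x = l := by
  apply List.ext_getElem
  · simp
  · intro i h1 h2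
    have := h i l[i] (by rw [List.getElem?_eq_getElem])
    simp [this]

theorem U0_eq {N : Set V} (e : ℕ) : U0 N (nn e) = sc N (U e) := by
  ext z
  unfold U0
  rw [ZFSet.mem_sep, mem_sc]
  constructor
  · rintro ⟨hz, m, hm, h1, h2⟩
    obtain ⟨f, hf, rfl⟩ := ex_of_mem_RB hz
    obtain ⟨m, rfl⟩ := mem_omega.1 hm
    refine ⟨f, ?_, hf, rfl⟩
    rw [pv_eq_empty, not_not, num_nn, num_nn, num_nn] at h1
    refine ⟨(Denumerable.ofNat (List ℕ) m).length, ?_⟩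
    rw [map_range_eq (l := Denumerable.ofNat (List ℕ) m) (x := f), Denumerable.encode_ofNat]
    · exact h1
    · intro i j hij
      have h3 := h2 (nn i) (nn_mem_omega i) (nn j) (by
        rw [num_nn, num_nn, num_nn]
        exact nn_mem_pv.2 (mem_ent.2 hij))
      exact pair_mem_code.1 h3
  · rintro ⟨f, ⟨k, hk⟩, hf, rfl⟩
    refine ⟨code_mem_RB.2 hf, nn (Encodable.encode ((List.range k).map f)), nn_mem_omega _, ?_, ?_⟩
    · rw [pv_eq_empty, not_not, num_nn, num_nn, num_nn]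
      exact hk
    · intro i hi j hj
      obtain ⟨i, rfl⟩ := mem_omega.1 hi
      obtain ⟨j, hj', rfl⟩ := mem_pv.1 hj
      rw [num_nn, num_nn, num_nn, mem_ent, Denumerable.ofNat_encode] at hj'
      rw [pair_mem_code]
      rw [List.getElem?_map, Option.map_eq_some_iff] at hj'
      obtain ⟨a, ha, rfl⟩ := hj'
      obtain ⟨_, e⟩ := List.getElem?_eq_some_iff.1 ha
      rw [List.getElem_range] at e
      rw [e]

/-- The family of the effectively open sets. -/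
noncomputable def D0s (N : Set V) : V := rep ZFSet.omega (U0 N)

/-- The step of the hierarchy. -/
noncomputable def Gs (N : Set V) (D : V) : V :=
  rep D fun B => ZFSet.sep (fun x => ∃ y ∈ RB N, ¬ Jn x y ∈ B) (RB N)

/-- The hierarchy. -/
noncomputable def Dn (N : Set V) (n : ℕ) : V := (Gs N)^[n] (D0s N)

theorem Sigma_sub {R : Set (ℕ → ℕ)} {n : ℕ} {A : Set (ℕ → ℕ)} (h : Sigma R n A) : A ⊆ R := by
  cases n with
  | zero =>
    obtain ⟨U, _, rfl⟩ := h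
    exact Set.inter_subset_right
  | succ n =>
    obtain ⟨B, _, rfl⟩ := h
    exact fun x hx => hx.1

theorem mem_Dn {N : Set V} [ZFm N] (n : ℕ) {z : V} :
    z ∈ Dn N n ↔ ∃ A, Sigma (Baire N) n A ∧ z = sc N A := by
  induction n generalizing z with
  | zero =>
    show z ∈ rep ZFSet.omega (U0 N) ↔ _
    rw [mem_rep]
    constructor
    · rintro ⟨e, he, rfl⟩
      obtain ⟨e, rfl⟩ := mem_omega.1 he
      refine ⟨U e ∩ Baire N, ⟨U e, effOpen_U e, rfl⟩, ?_⟩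
      rw [U0_eq]
      exact sc_congr fun f hf => ⟨fun h => ⟨h, hf⟩, fun h => h.1⟩
    · rintro ⟨A, ⟨W, hW, rfl⟩, rfl⟩
      obtain ⟨e, rfl⟩ := effOpen_iff.1 hW
      refine ⟨nn e, nn_mem_omega e, ?_⟩
      rw [U0_eq]
      exact sc_congr fun f hf => ⟨fun h => ⟨h, hf⟩, fun h => h.1⟩
  | succ n ih =>
    have e : Dn N (n + 1) = Gs N (Dn N n) := Function.iterate_succ_apply' _ _ _
    rw [e]
    unfold Gs
    rw [mem_rep]
    have key : ∀ B, B ⊆ Baire N → ZFSet.sep (fun x => ∃ y ∈ RB N, ¬ Jn x y ∈ sc N B) (RB N) =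
        sc N {x | x ∈ Baire N ∧ ∃ y ∈ Baire N, join x y ∉ B} := by
      intro B hB
      ext z
      rw [ZFSet.mem_sep, mem_sc]
      constructor
      · rintro ⟨hz, y, hy, h1⟩
        obtain ⟨f, hf, rfl⟩ := ex_of_mem_RB hz
        obtain ⟨g, hg, rfl⟩ := ex_of_mem_RB hy
        rw [Jn_code, code_mem_sc] at h1
        exact ⟨f, ⟨hf, g, hg, fun h2 => h1 ⟨h2, join_mem hf hg⟩⟩, hf, rfl⟩
      · rintro ⟨f, ⟨hf, g, hg, h1⟩, _, rfl⟩
        refine ⟨code_mem_RB.2 hf, code g, code_mem_RB.2 hg, ?_⟩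
        rw [Jn_code, code_mem_sc]
        exact fun h2 => h1 h2.1
    constructor
    · rintro ⟨B, hB, rfl⟩
      obtain ⟨B', hB', rfl⟩ := ih.1 hB
      exact ⟨_, ⟨B', hB', rfl⟩, key B' (Sigma_sub hB')⟩
    · rintro ⟨A, ⟨B, hB, rfl⟩, rfl⟩
      exact ⟨sc N B, ih.2 ⟨B, hB, rfl⟩, key B (Sigma_sub hB)⟩

/-! ### Uniformization -/

/-- Uniformization for the family `D`, inside `N`. -/
def UN (N : Set V) (D : V) : Prop :=
  ∀ A ∈ D, ∃ F ∈ D, (∀ x ∈ RB N, ∀ y ∈ RB N, Jn x y ∈ F → Jn x y ∈ A) ∧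
    ∀ x ∈ RB N, (∃ y ∈ RB N, Jn x y ∈ A) →
      ∃ y ∈ RB N, Jn x y ∈ F ∧ ∀ y' ∈ RB N, Jn x y' ∈ F → y' = y

/-- The plane set with the code `A`. -/
def pl (R A : Set (ℕ → ℕ)) : Set ((ℕ → ℕ) × (ℕ → ℕ)) :=
  {p | p.1 ∈ R ∧ p.2 ∈ R ∧ join p.1 p.2 ∈ A}

theorem pl_join {N : Set V} [ZFm N] {A : Set (ℕ → ℕ)} (hA : A ⊆ Baire N) :
    {z | ∃ p ∈ pl (Baire N) A, z = join p.1 p.2} = A := by
  ext z
  constructor
  · rintro ⟨p, hp, rfl⟩
    exact hp.2.2
  · intro hz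
    refine ⟨(lft z, rgt z), ⟨lft_mem (hA hz), rgt_mem (hA hz), ?_⟩, (join_lr z).symm⟩
    rw [join_lr]
    exact hz

theorem UN_iff {N : Set V} [ZFm N] (n : ℕ) : UN N (Dn N n) ↔ Unif (Baire N) n := by
  constructor
  · intro h A hA
    set A' : Set (ℕ → ℕ) := {z | ∃ p ∈ A, z = join p.1 p.2} with hA'
    have hAj : ∀ x y, join x y ∈ A' ↔ (x, y) ∈ A := by
      intro x y
      constructor
      · rintro ⟨p, hp, e⟩
        obtain ⟨rfl, rfl⟩ := join_inj e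
        exact hp
      · intro hxy
        exact ⟨(x, y), hxy, rfl⟩
    obtain ⟨F, hF, h1, h2⟩ := h (sc N A') ((mem_Dn n).2 ⟨A', hA.2, rfl⟩)
    obtain ⟨F', hF', rfl⟩ := (mem_Dn n).1 hF
    have hFs := Sigma_sub hF'
    refine ⟨pl (Baire N) F', ⟨fun p hp => ⟨hp.1, hp.2.1⟩, ?_⟩, ?_, ?_⟩
    · rw [pl_join hFs]
      exact hF'
    · rintro ⟨x, y⟩ ⟨hx, hy, hxy⟩
      have h3 := h1 (code x) (code_mem_RB.2 hx) (code y) (code_mem_RB.2 hy) (by
        rw [Jn_code, code_mem_sc]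
        exact ⟨hxy, hFs hxy⟩)
      rw [Jn_code, code_mem_sc, hAj] at h3
      exact h3.1
    · rintro x ⟨y, hxy⟩
      obtain ⟨hx, hy⟩ := hA.1 _ hxy
      obtain ⟨y', hy', h3, h4⟩ := h2 (code x) (code_mem_RB.2 hx) ⟨code y, code_mem_RB.2 hy, by
        rw [Jn_code, code_mem_sc, hAj]
        exact ⟨hxy, join_mem hx hy⟩⟩
      obtain ⟨w, hw, rfl⟩ := ex_of_mem_RB hy'
      rw [Jn_code, code_mem_sc] at h3
      refine ⟨w, ⟨hx, hw, h3.1⟩, ?_⟩
      rintro w' ⟨_, hw', h5⟩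
      refine code_inj (h4 (code w') (code_mem_RB.2 hw') ?_)
      rw [Jn_code, code_mem_sc]
      exact ⟨h5, hFs h5⟩
  · intro h A hA
    obtain ⟨A', hA', rfl⟩ := (mem_Dn n).1 hA
    have hAs := Sigma_sub hA'
    obtain ⟨F, hF, h1, h2⟩ := h (pl (Baire N) A') ⟨fun p hp => ⟨hp.1, hp.2.1⟩, by
      rw [pl_join hAs]
      exact hA'⟩
    set F' : Set (ℕ → ℕ) := {z | ∃ p ∈ F, z = join p.1 p.2} with hF'
    have hFj : ∀ x y, join x y ∈ F' ↔ (x, y) ∈ F := by
      intro x y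
      constructor
      · rintro ⟨p, hp, e⟩
        obtain ⟨rfl, rfl⟩ := join_inj e
        exact hp
      · intro hxy
        exact ⟨(x, y), hxy, rfl⟩
    refine ⟨sc N F', (mem_Dn n).2 ⟨F', hF.2, rfl⟩, ?_, ?_⟩
    · intro x hx y hy hxy
      obtain ⟨f, hf, rfl⟩ := ex_of_mem_RB hx
      obtain ⟨g, hg, rfl⟩ := ex_of_mem_RB hy
      rw [Jn_code, code_mem_sc, hFj] at hxy
      rw [Jn_code, code_mem_sc]
      exact ⟨(h1 hxy.1).2.2, hxy.2⟩
    · rintro x hx ⟨y, hy, hxy⟩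
      obtain ⟨f, hf, rfl⟩ := ex_of_mem_RB hx
      obtain ⟨g, hg, rfl⟩ := ex_of_mem_RB hy
      rw [Jn_code, code_mem_sc] at hxy
      obtain ⟨w, hw, hu⟩ := h2 f ⟨g, hf, hg, hxy.1⟩
      have hw' := hF.1 _ hw
      refine ⟨code w, code_mem_RB.2 hw'.2, ?_, ?_⟩
      · rw [Jn_code, code_mem_sc, hFj]
        exact ⟨hw, join_mem hf hw'.2⟩
      · intro y' hy' h3
        obtain ⟨g', hg', rfl⟩ := ex_of_mem_RB hy'
        rw [Jn_code, code_mem_sc, hFj] at h3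
        rw [hu g' h3.1]

end Pool.Agent.GMD
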