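import Pool.Agent.GMD.Pat

/-!
A pattern that codes a countable ordinal is realized only by models that contain this ordinal.
-/

set_option autoImplicit false

namespace Pool.Agent.GMD

open Pool.Agent.CTM Pool.Agent.CTM.SO1

/-- The relation on `ℕ` coded by the pattern `r`. -/
def prel (r : ℕ → Bool) (i j : ℕ) : Prop := r (2 * Nat.pair i j + 4) = true

theorem computable_idx : Computable (fun n : ℕ => 2 * n + 4) :=
  (Primrec.nat_add.comp (Primrec.nat_mul.comp (Primrec.const 2) Primrec.id)
    (Primrec.const 4)).to_comp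

/-- If the relation coded by `r` is the copy of `α` by an injection, then `α` belongs to every
model that contains `r`. -/
theorem collapse {N : Set V} [ZFm N] {r : ℕ → Bool} (hr : pcode r ∈ N) {α : Ordinal.{0}}
    (e : Set.Iio α → ℕ) (he : Function.Injective e)
    (h : ∀ i j, prel r i j ↔ ∃ γ δ : Set.Iio α, γ < δ ∧ e γ = i ∧ e δ = j) :
    α.toZFSet ∈ N := by
  classical
  rcases eq_or_ne α 0 with rfl | hα
  · have : (0 : Ordinal.{0}).toZFSet = ∅ := by simp
    rw [this]
    exact ZFm.empty_mem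
  have h0 : (0 : Ordinal.{0}) < α := pos_iff_ne_zero.2 hα
  -- the collapse
  let vf : ℕ → V := fun i => if hi : ∃ δ, e δ = i then (hi.choose.1).toZFSet else ∅
  have hvf : ∀ δ, vf (e δ) = δ.1.toZFSet := by
    intro δ
    have hi : ∃ δ', e δ' = e δ := ⟨δ, rfl⟩
    show (if hi : ∃ δ', e δ' = e δ then (hi.choose.1).toZFSet else ∅) = _
    rw [dif_pos hi, he hi.choose_spec]
  have hvf' : ∀ i, (¬ ∃ δ, e δ = i) → vf i = ∅ := fun i hi => dif_neg hi
  have hc : ∀ {Γ : Type 1} [Ctx Γ], DMap N N (fun _ : Γ => pcode r) := DMap.const hr hr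
  have happ : ∀ n, app (pcode r) (nn n) = nn 1 ↔ r n = true := by
    intro n
    unfold pcode
    rw [app_code]
    cases hn : r n
    · simp only [Bool.toNat_false, reduceCtorEq, iff_false]
      intro h'
      exact absurd (nn_inj h') (by norm_num)
    · simp
  have hidx : DMap N N (fun p : V × V => nn (2 * Nat.pair (num p.2) (num p.1) + 4)) := by
    have h1 : DMap ∅ N (fun p : V × V => nn (Nat.pair (num p.2) (num p.1))) :=
      dmap_natpair (DMap.snd DMap.id) (DMap.fst DMap.id)
    have h2 := dmap_comp (f := fun n => 2 * n + 4) computable_idx h1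
    exact (h2.congr fun p _ => by rw [num_nn]).mono (Set.empty_subset _)
  have hD : DMap N N (fun x : V => ZFSet.sep (fun j =>
      app (pcode r) (nn (2 * Nat.pair (num j) (num x) + 4)) = nn 1) ZFSet.omega) :=
    DMap.sep (P := fun x j => app (pcode r) (nn (2 * Nat.pair (num j) (num x) + 4)) = nn 1)
      DMap.omega (Dfn.eq (DMap.app hc hidx) (DMap.nn 1))
  have hmem : ∀ x j : V, j ∈ ZFSet.sep (fun j =>
      app (pcode r) (nn (2 * Nat.pair (num j) (num x) + 4)) = nn 1)
      ZFSet.omega ↔ ∃ k, j = nn k ∧ prel r k (num x) := by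
    intro x j
    rw [ZFSet.mem_sep, happ]
    constructor
    · rintro ⟨hj, h1⟩
      obtain ⟨k, rfl⟩ := mem_omega.1 hj
      rw [num_nn] at h1
      exact ⟨k, rfl, h1⟩
    · rintro ⟨k, rfl, h1⟩
      rw [num_nn]
      exact ⟨nn_mem_omega k, h1⟩
  have hwf : WellFounded (fun j x : V => prel r (num j) (num x)) := by
    have h1 : WellFounded (prel r) := by
      rw [WellFounded.wellFounded_iff_has_min]
      rintro s ⟨i0, hi0⟩
      by_cases hs : ∃ δ, e δ ∈ s
      · have hwf' : WellFounded (fun a b : Set.Iio α => a < b) := wellFounded_lt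
        obtain ⟨δ, hδ, hmin⟩ := hwf'.has_min {δ | e δ ∈ s} hs
        refine ⟨e δ, hδ, fun k hk hkr => ?_⟩
        obtain ⟨γ, δ', hlt, rfl, h2⟩ := (h _ _).1 hkr
        rw [he h2] at hlt
        exact hmin γ hk hlt
      · refine ⟨i0, hi0, fun k hk hkr => ?_⟩
        obtain ⟨γ, δ', _, rfl, _⟩ := (h _ _).1 hkr
        exact hs ⟨γ, hk⟩
    exact InvImage.wf num h1
  have hF : DMap N N (fun x : V => vf (num x)) := by
    refine DMap.recV (H := fun _ g => ran g) hD ?_ ?_ _ hwf ?_
    · exact DMap.ran (DMap.snd DMap.id)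
    · intro x _
      ext z
      rw [mem_ran]
      constructor
      · intro hz
        by_cases hi : ∃ δ, e δ = num x
        · obtain ⟨δ, hδ⟩ := hi
          rw [← hδ, hvf] at hz
          obtain ⟨γ, hγ, rfl⟩ := Ordinal.mem_toZFSet_iff.1 hz
          have hγα : γ < α := hγ.trans δ.2
          refine ⟨nn (e ⟨γ, hγα⟩), mem_gr.2 ⟨nn (e ⟨γ, hγα⟩), (hmem _ _).2
            ⟨_, rfl, (h _ _).2 ⟨⟨γ, hγα⟩, δ, hγ, rfl, hδ⟩⟩, ?_⟩⟩
          rw [num_nn, hvf]
        · rw [hvf' _ hi] at hz
          exact absurd hz (ZFSet.notMem_empty _)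
      · rintro ⟨y, hy⟩
        obtain ⟨j, hj, e1⟩ := mem_gr.1 hy
        obtain ⟨k, rfl, hk⟩ := (hmem _ _).1 hj
        obtain ⟨rfl, rfl⟩ := ZFSet.pair_injective e1
        obtain ⟨γ, δ, hlt, rfl, hδ⟩ := (h _ _).1 hk
        rw [num_nn, hvf, ← hδ, hvf]
        exact Ordinal.mem_toZFSet_iff.2 ⟨γ.1, hlt, rfl⟩
    · intro x _ y hy
      obtain ⟨k, rfl, hk⟩ := (hmem _ _).1 hy
      show prel r (num (nn k)) (num x)
      rw [num_nn]
      exact hk
  have h2 := ZFm.rep_mem hF (a := ZFSet.omega) ZFm.omega_mem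
  have h3 : rep ZFSet.omega (fun x : V => vf (num x)) = α.toZFSet := by
    ext z
    rw [mem_rep, Ordinal.mem_toZFSet_iff]
    constructor
    · rintro ⟨x, _, rfl⟩
      by_cases hi : ∃ δ, e δ = num x
      · obtain ⟨δ, hδ⟩ := hi
        refine ⟨δ.1, δ.2, ?_⟩
        rw [← hδ, hvf]
      · refine ⟨0, h0, ?_⟩
        show _ = vf (num x)
        rw [hvf' _ hi]
        simp
    · rintro ⟨δ, hδ, rfl⟩
      refine ⟨nn (e ⟨δ, hδ⟩), nn_mem_omega _, ?_⟩
      show vf (num (nn (e ⟨δ, hδ⟩))) = _
      rw [num_nn, hvf]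
  rw [← h3]
  exact h2

/-- For every countable ordinal there is a perfect set of patterns that are realized only by
transitive models that contain the ordinal. -/
theorem ordinal_pattern (α : Ordinal.{0}) (hα : (Set.Iio α).Countable) :
    ∃ f : (ℕ → Bool) → (ℕ → Bool), Continuous f ∧ Function.Injective f ∧
      ∀ s, f s 1 = false ∧ f s 2 = true ∧
        ∀ N : Set ZFSet.{0}, ModelC N → Realizes N (f s) → α.toZFSet ∈ N := by
  classical
  have : Countable (Set.Iio α) := hα.to_subtype
  obtain ⟨e, he⟩ := exists_injective_nat (Set.Iio α)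
  let R : ℕ → ℕ → Prop := fun i j => ∃ γ δ : Set.Iio α, γ < δ ∧ e γ = i ∧ e δ = j
  let f : (ℕ → Bool) → (ℕ → Bool) := fun s n => if n = 2 then true else if n < 3 then false else
    if n % 2 = 1 then s ((n - 3) / 2) else decide (R ((n - 4) / 2).unpair.1 ((n - 4) / 2).unpair.2)
  refine ⟨f, ?_, ?_, fun s => ⟨rfl, rfl, fun N hN hr => ?_⟩⟩
  · refine continuous_pi fun n => ?_
    show Continuous fun s : ℕ → Bool => if n = 2 then true else if n < 3 then false else
      if n % 2 = 1 then s ((n - 3) / 2) else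
        decide (R ((n - 4) / 2).unpair.1 ((n - 4) / 2).unpair.2)
    by_cases h1 : n = 2
    · simp only [if_pos h1]
      exact continuous_const
    simp only [if_neg h1]
    by_cases h2 : n < 3
    · simp only [if_pos h2]
      exact continuous_const
    simp only [if_neg h2]
    by_cases h3 : n % 2 = 1
    · simp only [if_pos h3]
      exact continuous_apply _
    · simp only [if_neg h3]
      exact continuous_const
  · intro s s' h
    funext n
    have h1 := congrFun h (2 * n + 3)
    have h2 : ∀ u : ℕ → Bool, f u (2 * n + 3) = u n := by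
      intro u
      show (if 2 * n + 3 = 2 then true else if 2 * n + 3 < 3 then false else
        if (2 * n + 3) % 2 = 1 then u ((2 * n + 3 - 3) / 2) else
          decide (R ((2 * n + 3 - 4) / 2).unpair.1 ((2 * n + 3 - 4) / 2).unpair.2)) = u n
      rw [if_neg (by omega), if_neg (by omega), if_pos (by omega)]
      congr 1
      omega
    rwa [h2, h2] at h1
  · have := zfm hN
    refine collapse (pattern_definable hN hr).1 e he fun i j => ?_
    show (if 2 * Nat.pair i j + 4 = 2 then true else if 2 * Nat.pair i j + 4 < 3 then false else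
      if (2 * Nat.pair i j + 4) % 2 = 1 then s ((2 * Nat.pair i j + 4 - 3) / 2) else
        decide (R ((2 * Nat.pair i j + 4 - 4) / 2).unpair.1
          ((2 * Nat.pair i j + 4 - 4) / 2).unpair.2)) = true ↔ _
    rw [if_neg (by omega), if_neg (by omega), if_neg (by omega), decide_eq_true_iff,
      show (2 * Nat.pair i j + 4 - 4) / 2 = Nat.pair i j by omega, Nat.unpair_pair]

/-- For every countable set `M` there is a perfect set of patterns that are not realized by any
transitive model all of whose ordinals belong to `M`. -/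
theorem height_pattern (M : Set ZFSet.{0}) (hM : M.Countable) :
    ∃ f : (ℕ → Bool) → (ℕ → Bool), Continuous f ∧ Function.Injective f ∧
      ∀ s, f s 1 = false ∧ f s 2 = true ∧
        ∀ N : Set ZFSet.{0}, ModelC N → (∀ x ∈ N, x.IsOrdinal → x ∈ M) → ¬ Realizes N (f s) := by
  have h1 : {δ : Ordinal.{0} | δ.toZFSet ∈ M}.Countable := by
    refine Set.Countable.preimage_of_injOn hM ?_
    intro a _ b _ hab
    exact Ordinal.toZFSet_injective hab
  have h2 : ∃ δ : Ordinal.{0}, δ ∉ {δ : Ordinal.{0} | δ.toZFSet ∈ M} := by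
    by_contra hcon
    push Not at hcon
    exact Set.not_countable_univ (h1.mono fun δ _ => hcon δ)
  have hwf : WellFounded (fun a b : Ordinal.{0} => a < b) := wellFounded_lt
  obtain ⟨α, hα, hmin⟩ := hwf.has_min {δ : Ordinal.{0} | δ ∉ {δ : Ordinal.{0} | δ.toZFSet ∈ M}} h2
  obtain ⟨f, hf1, hf2, hf⟩ := ordinal_pattern α (h1.mono fun δ hδ => by
    by_contra hcon
    exact hmin δ hcon hδ)
  exact ⟨f, hf1, hf2, fun s => ⟨(hf s).1, (hf s).2.1, fun N hN hNM hreal =>
    hα (hNM _ ((hf s).2.2 N hN hreal) (ZFSet.isOrdinal_toZFSet α))⟩⟩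

end Pool.Agent.GMD
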