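import Pool.Agent.GMD.Hier2

/-!
The pattern of a transitive model is definable in the model.
-/

set_option autoImplicit false

namespace Pool.Agent.GMD

open Pool.Agent.CTM Pool.Agent.CTM.SO1

section

variable {N : Set V} [ZFm N]

theorem dmap_U0 (hp : Pow N) : DMap ∅ N (fun e : V => U0 N e) := by
  have h1 : DMap ∅ N (fun p : (V × V) × V =>
      pv (uni (num (nn (Nat.pair (num p.1.1) (num p.2)))))) :=
    (pd_of_partrec uni_partrec).app (dmap_natpair (DMap.fst (DMap.fst DMap.id))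
      (DMap.snd DMap.id))
  have h2 : DMap ∅ N (fun p : ((V × V) × V) × V =>
      pv (ent (num (nn (Nat.pair (num p.1.2) (num p.2)))))) :=
    (pd_of_partrec ent_partrec).app (dmap_natpair (DMap.snd (DMap.fst DMap.id))
      (DMap.snd DMap.id))
  have h3 : Dfn ∅ N (fun p : V × V => ∃ m ∈ (ZFSet.omega : V),
      ¬ pv (uni (num (nn (Nat.pair (num p.1) (num m))))) = ∅ ∧
      ∀ i ∈ (ZFSet.omega : V), ∀ j ∈ pv (ent (num (nn (Nat.pair (num m) (num i))))),
        ZFSet.pair i j ∈ p.2) := by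
    refine Dfn.ex_mem DMap.omega (Dfn.and (Dfn.not (Dfn.eq h1 DMap.empty))
      (Dfn.all_mem DMap.omega (Dfn.all_mem h2 (Dfn.mem (DMap.pair ?_ (DMap.snd DMap.id)) ?_))))
    · exact DMap.snd (DMap.fst DMap.id)
    · exact DMap.snd (DMap.fst (DMap.fst (DMap.fst DMap.id)))
  exact DMap.sep (P := fun e x => ∃ m ∈ (ZFSet.omega : V),
    ¬ pv (uni (num (nn (Nat.pair (num e) (num m))))) = ∅ ∧
    ∀ i ∈ (ZFSet.omega : V), ∀ j ∈ pv (ent (num (nn (Nat.pair (num m) (num i))))),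
      ZFSet.pair i j ∈ x) (dmap_RB hp) h3

theorem dmap_D0s (hp : Pow N) {Γ : Type 1} [Ctx Γ] : DMap ∅ N (fun _ : Γ => D0s N) := by
  have h := DMap.comp (f := fun e : V => U0 N e) (dmap_U0 hp) (g := fun p : Γ × V => p.2)
    (DMap.snd DMap.id)
  exact DMap.rep (F := fun _ e => U0 N e) DMap.omega h

theorem dmap_Gs (hp : Pow N) {Γ : Type 1} [Ctx Γ] : DMap ∅ N (fun p : Γ × V => Gs N p.2) := by
  have h1 : Dfn ∅ N (fun p : ((Γ × V) × V) × V => ∃ y ∈ RB N, ¬ Jn p.2 y ∈ p.1.2) := by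
    refine Dfn.ex_mem (dmap_RB hp) (Dfn.not (Dfn.mem (dmap_Jn ?_ (DMap.snd DMap.id)) ?_))
    · exact DMap.snd (DMap.fst DMap.id)
    · exact DMap.snd (DMap.fst (DMap.fst DMap.id))
  have h2 : DMap ∅ N (fun p : (Γ × V) × V =>
      ZFSet.sep (fun x => ∃ y ∈ RB N, ¬ Jn x y ∈ p.2) (RB N)) :=
    DMap.sep (P := fun (p : (Γ × V) × V) x => ∃ y ∈ RB N, ¬ Jn x y ∈ p.2) (dmap_RB hp) h1
  exact DMap.rep (F := fun _ B => ZFSet.sep (fun x => ∃ y ∈ RB N, ¬ Jn x y ∈ B) (RB N))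
    (DMap.snd DMap.id) h2

theorem dmap_Dn (hp : Pow N) {Γ : Type 1} [Ctx Γ] {k : Γ → V} (hk : DMap ∅ N k) :
    DMap ∅ N (fun γ => Dn N (num (k γ))) :=
  DMap.iter (G := fun _ D => Gs N D) (x := fun _ => D0s N) (dmap_Gs hp) (dmap_D0s hp) hk

theorem dfn_UN (hp : Pow N) : Dfn ∅ N (fun D : V => UN N D) := by
  have hR : ∀ {Γ : Type 1} [Ctx Γ], DMap ∅ N (fun _ : Γ => RB N) := dmap_RB hp
  have hJ : ∀ {Γ : Type 1} [Ctx Γ] {f g : Γ → V}, DMap ∅ N f → DMap ∅ N g →
    DMap ∅ N (fun γ => Jn (f γ) (g γ)) := dmap_Jn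
  unfold UN
  apply_rules (transparency := .reducible) (maxDepth := 999) only [hR, hJ] using is_poly

open Classical in
/-- The pattern, computed inside `N`. -/
noncomputable def pat (N : Set V) (c : ℕ) : V :=
  gr (fun n => if n = ∅ then nn c else if UN N (Dn N (num n)) then nn 1 else nn 0) ZFSet.omega

open Classical in
theorem dmap_pat (hp : Pow N) (c : ℕ) {Γ : Type 1} [Ctx Γ] : DMap ∅ N (fun _ : Γ => pat N c) := by
  have h1 : Dfn ∅ N (fun p : Γ × V => UN N (Dn N (num p.2))) :=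
    Dfn.comp (P := fun D : V => UN N D) (dfn_UN hp) (g := fun p : Γ × V => Dn N (num p.2))
      (dmap_Dn hp (DMap.snd DMap.id))
  have h2 : DMap ∅ N (fun p : Γ × V => if UN N (Dn N (num p.2)) then nn 1 else nn 0) :=
    DMap.ite h1 (DMap.nn 1) (DMap.nn 0)
  have h3 : DMap ∅ N (fun p : Γ × V => if p.2 = ∅ then nn c else
      if UN N (Dn N (num p.2)) then nn 1 else nn 0) :=
    DMap.ite (Dfn.eq (DMap.snd DMap.id) DMap.empty) (DMap.nn c) h2
  exact DMap.gr (F := fun _ n => if n = ∅ then nn c else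
    if UN N (Dn N (num n)) then nn 1 else nn 0) DMap.omega h3

theorem pat_eq {r : ℕ → Bool} (h : Realizes N r) : pat N (r 0).toNat = pcode r := by
  classical
  unfold pat pcode
  rw [code_eq]
  refine fn_ext (isFn_gr _ _) (isFn_gr _ _) ?_ ?_
  · rw [dom_gr, dom_gr]
  · intro x hx
    rw [dom_gr] at hx
    obtain ⟨n, rfl⟩ := mem_omega.1 hx
    rw [app_gr hx, app_gr hx, num_nn]
    cases n with
    | zero => rw [if_pos (nn_eq_empty.2 rfl)]
    | succ n =>
      rw [if_neg (fun h' => Nat.succ_ne_zero n (nn_eq_empty.1 h'))]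
      have h1 := (UN_iff (N := N) (n + 1)).trans (h (n + 1) (by omega))
      by_cases h2 : r (n + 1) = true
      · rw [if_pos (h1.2 h2), h2]
        rfl
      · rw [if_neg (fun h' => h2 (h1.1 h'))]
        rw [Bool.not_eq_true] at h2
        rw [h2]
        rfl

end

/-- Formulas without constants. -/
theorem ex_formula {N : Set V} {P : V → Prop} (h : Dfn ∅ N P) :
    ∃ φ : SetFormula 1, ∀ x ∈ N, φ.Holds N (fun _ => x) ↔ P x := by
  obtain ⟨φ, hφ⟩ := h
  let g : (∅ ∩ N : Set V) → Empty := fun a => absurd a.2.1 (Set.notMem_empty _)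
  refine ⟨ofFm (φ.mapC g), fun x hx => ?_⟩
  rw [ofFm_iff, Fm.sat_mapC]
  have e : (Empty.elim ∘ g : (∅ ∩ N : Set V) → V) = fun a => a.1 := by
    funext a
    exact absurd a.2.1 (Set.notMem_empty _)
  rw [e]
  exact hφ (fun _ => x) (fun _ => hx)

/-- The pattern that a transitive model realizes is a parameter-free definable element of the
model. -/
theorem pattern_definable {N : Set V} (h : ModelC N) {r : ℕ → Bool} (hr : Realizes N r) :
    pcode r ∈ N ∧ ∃ φ : SetFormula 1, ∀ x ∈ N, φ.Holds N (fun _ => x) ↔ x = pcode r := by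
  have := zfm h
  have hp : Pow N := fun hx => power_mem h.toModelB hx
  rw [← pat_eq hr]
  have h1 : DMap ∅ N (fun _ : V => pat N (r 0).toNat) := dmap_pat hp _
  refine ⟨h1.mem (γ := ∅) (inM_V.2 ZFm.empty_mem), ex_formula ?_⟩
  exact Dfn.eq DMap.id h1

end Pool.Agent.GMD
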