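import Pool.Agent.GMD.Defs

/-!
Transitive models of ZFC, with the scheme of collection instead of replacement.
-/

set_option autoImplicit false

namespace Pool.Agent.GMD

/-- The axioms without collection and choice. -/
structure ModelB (N : Set ZFSet.{0}) : Prop where
  transitive : ∀ x ∈ N, ∀ y ∈ x, y ∈ N
  pairing : ∀ x ∈ N, ∀ y ∈ N, ∃ z ∈ N, ∀ t ∈ N, t ∈ z ↔ t = x ∨ t = y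
  union : ∀ x ∈ N, ∃ u ∈ N, ∀ t ∈ N, t ∈ u ↔ ∃ z ∈ N, z ∈ x ∧ t ∈ z
  power : ∀ x ∈ N, ∃ p ∈ N, ∀ t ∈ N, t ∈ p ↔ ∀ z ∈ N, z ∈ t → z ∈ x
  infinity : ∃ x ∈ N, (∃ e ∈ N, (∀ z ∈ N, z ∉ e) ∧ e ∈ x) ∧
    ∀ y ∈ N, y ∈ x → ∃ s ∈ N, s ∈ x ∧ ∀ t ∈ N, t ∈ s ↔ t ∈ y ∨ t = y
  separation : ∀ (n : ℕ) (φ : SetFormula (n + 1)) (v : Fin n → ZFSet.{0}), (∀ i, v i ∈ N) →
    ∀ x ∈ N, ∃ y ∈ N, ∀ t ∈ N, t ∈ y ↔ t ∈ x ∧ φ.Holds N (Fin.snoc v t)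

/-- The axioms, with collection. -/
structure ModelC (N : Set ZFSet.{0}) : Prop extends ModelB N where
  collection : ∀ (n : ℕ) (φ : SetFormula (n + 2)) (v : Fin n → ZFSet.{0}), (∀ i, v i ∈ N) →
    ∀ a ∈ N, (∀ x ∈ N, x ∈ a → ∃ y ∈ N,
      φ.Holds N (Fin.snoc (Fin.snoc v x : Fin (n + 1) → ZFSet.{0}) y)) →
    ∃ b ∈ N, ∀ x ∈ N, x ∈ a → ∃ y ∈ N, y ∈ b ∧
      φ.Holds N (Fin.snoc (Fin.snoc v x : Fin (n + 1) → ZFSet.{0}) y)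
  choice : ∀ x ∈ N, (∀ y ∈ N, y ∈ x → ∃ z ∈ N, z ∈ y) →
    (∀ y ∈ N, ∀ y' ∈ N, y ∈ x → y' ∈ x → (∃ z ∈ N, z ∈ y ∧ z ∈ y') → y = y') →
    ∃ c ∈ N, ∀ y ∈ N, y ∈ x → ∃! z, z ∈ N ∧ z ∈ y ∧ z ∈ c

end Pool.Agent.GMD
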