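import Pool.Agent.GMD.Mos
import Pool.Agent.CTM.Ext
import Pool.Agent.CTM.Gen

/-!
Statements of the modules of the project GMD (MP_3241a1_lc). Namespace of the module `XXX`:
`Pool.Agent.GMD`, theorem `XXX_thm : Stmt_XXX`, helper lemmas in the namespace
`Pool.Agent.GMD.XXXM`. The library `Pool/Agent/CTM` (read `Base.lean`, `Tac.lean`, `ZF.lean`,
`Rec.lean`, `Nat1.lean`, `Nat2.lean`, `Nat3.lean` first) contains the calculus of definable
predicates `Dfn A M P` and functions `DMap A M f`, the tactic call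
`apply_rules (transparency := .reducible) (maxDepth := 999) only [..] using is_poly`, and the
recursion theorem `DMap.recΓ`, `DMap.recV`, `DMap.recMem`.
-/

set_option autoImplicit false

namespace Pool.Agent.GMD

open Pool.Agent.CTM

/-- COL. Replacement implies collection, with power sets. All the classes `[ZFm N]` of the library
assume collection (`ZFm.coll`), so the lemmas of `ZF.lean` and `Rec.lean` cannot be used for `N`
as they are; copy the ones you need (`DMap.sep`, `DMap.rep`, `DMap.upair`, `DMap.pair`,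
`DMap.sUnion`, `DMap.union`, `DMap.insert`, `DMap.dom`, `DMap.app`, ..) with a class `ZFr` that has
replacement instead of collection (`rep_mem` is then an axiom); `Base.lean`, `Tac.lean` and
`Nat1.lean` need no axioms. PROOF. Work with ordinals `γ ∈ N`. Let
`H γ := {x ∈ N : rank x < γ}` (externally a set, by induction: `H γ = ⋃_{δ < γ} P^N(H δ)`).
(i) By induction on `γ ∈ N`: `H γ ∈ N` and `S γ := {(δ, H δ) : δ ≤ γ} ∈ N`. For `δ < γ` the set
`H δ` is defined in `N` by: there is a function `S ∈ N` with domain `δ + 1`,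
`S ε = ⋃_{ζ < ε} P^N(S ζ)` for all `ε ≤ δ` and `S δ = H δ` (such an `S` is unique by induction and
exists by the induction hypothesis; `P^N(y)` is defined by `∀ t ∈ N, t ∈ z ↔ t ⊆ y`). So
`δ ↦ H δ` is a definable function on `γ`, and replacement, union and power set give `H γ`, `S γ`.
(ii) Every `x ∈ N` is in some `H γ`, `γ ∈ N`: by `∈`-induction; for `y ∈ x` let `f y` be the least
`γ ∈ N` with `y ∈ H γ` (definable by (i)); replacement gives the set of the `f y`, its union `β` is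
an ordinal of `N` and `x ⊆ H β`, `x ∈ H (β + 1)`.
(iii) For `x ∈ a` let `f x` be the least `γ ∈ N` with `∃ y ∈ H γ, P x y`; `β` the union of the
`f x`, `x ∈ a`; `b = H β`. -/
def Stmt_COL : Prop := ∀ (N : Set V), TrC N → (∅ : V) ∈ N →
  (∀ x y : V, x ∈ N → y ∈ N → ({x, y} : V) ∈ N) → (∀ x ∈ N, (ZFSet.sUnion x : V) ∈ N) →
  (ZFSet.omega : V) ∈ N → (∀ P : V → Prop, Dfn N N P → ∀ a ∈ N, ZFSet.sep P a ∈ N) →
  (∀ x ∈ N, ZFSet.sep (fun y => y ∈ N) (ZFSet.powerset x) ∈ N) →
  (∀ F : V → V, DMap N N F → ∀ a ∈ N, rep a F ∈ N) →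
  ∀ P : V → V → Prop, Dfn N N (fun p : V × V => P p.1 p.2) → ∀ a ∈ N,
    (∀ x ∈ a, ∃ y ∈ N, P x y) → ∃ b ∈ N, ∀ x ∈ a, ∃ y ∈ b, P x y

/-- ZER. The well-ordering theorem inside `N`, from the axiom of choice for disjoint families.
PROOF. Let `x ∈ N`, `Q = {s ∈ N : s ⊆ x, s ≠ ∅} ∈ N` (power set, separation). The family
`{ {s} × s : s ∈ Q }` is in `N`; its elements are non-empty and pairwise disjoint; let `c ∈ N` be a
choice set. For `s ∈ Q` let `ch s` be the unique `z` with `(s, z) ∈ c ∩ ({s} × s)`, so `ch s ∈ s`.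
Define, for ordinals `α ∈ N`, by recursion (`DMap.recMem` or `DMap.recV`, `D α = α`):
`g α = ch (x \ ran (g ↾ α))` if `x \ ran (g ↾ α) ≠ ∅`, and `g α = {x}` (not an element of `x`)
otherwise. `g` is injective on the set of the `α` with `g α ∈ x`. If `g α ∈ x` for all ordinals
`α ∈ N`, then the inverse of `g` is a definable function on the subset `ran g` of `x`, and
replacement (`ZFm.rep_mem`) gives a set in `N` that contains all ordinals of `N`, a contradiction
(its union plus one is an ordinal of `N`). So there is a least `α ∈ N` with `ran (g ↾ α) = x`; `f` is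
the inverse of `g ↾ α`. -/
def Stmt_ZER : Prop := ∀ (N : Set V) [ZFm N],
  (∀ x ∈ N, ZFSet.sep (fun y => y ∈ N) (ZFSet.powerset x) ∈ N) →
  (∀ x ∈ N, (∀ y ∈ N, y ∈ x → ∃ z ∈ N, z ∈ y) →
    (∀ y ∈ N, ∀ y' ∈ N, y ∈ x → y' ∈ x → (∃ z ∈ N, z ∈ y ∧ z ∈ y') → y = y') →
    ∃ c ∈ N, ∀ y ∈ N, y ∈ x → ∃! z, z ∈ N ∧ z ∈ y ∧ z ∈ c) →
  ∀ x ∈ N, ∃ f ∈ N, IsFn f ∧ dom f = x ∧ IsInjF f ∧ ∀ y ∈ x, (app f y).IsOrdinal

/-- `π` is an automorphism of `(P, ⊆)` that belongs to `M`. -/
structure IsAut (M : Set V) (P : V) (π : V → V) : Prop where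
  gr_mem : gr π P ∈ M
  maps : ∀ p ∈ P, π p ∈ P
  surj : ∀ q ∈ P, ∃ p ∈ P, π p = q
  sub_iff : ∀ p ∈ P, ∀ q ∈ P, (π p ⊆ π q ↔ p ⊆ q)

/-- `P` is weakly homogeneous in `M`. -/
def WHom (M : Set V) (P : V) : Prop :=
  ∀ p ∈ P, ∀ q ∈ P, ∃ π, IsAut M P π ∧ ∃ s ∈ P, π p ⊆ s ∧ q ⊆ s

/-- VAL. Every transitive model that contains `G` and includes `M` includes `M[G]`. PROOF. `val G`
is a definable function on `N` (recursion theorem `DMap.recV` with `D τ = dom τ`:
`val G τ = rep {σ ∈ dom τ : ∃ p ∈ G, (σ, p) ∈ τ} (val G)`; `dom_wf`, `mem_val`). -/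
def Stmt_VAL : Prop := ∀ (M N : Set V) [ZFm N] (G : V), M ⊆ N → G ∈ N → Ext M G ⊆ N

/-- AUT. Automorphisms in `M` do not change the generic extension. PROOF. The image `G'` of a
generic filter `G` is a generic filter (for a dense `D ∈ M` the preimage under `π` is dense and in
`M`; `π ∅ = ∅` as `∅` is the least element of `(P, ⊆)`). Both `G' ∈ M[G]` (`π ∈ M ⊆ M[G]`, `G ∈ M[G]`,
and `M[G]` is a model, `stmt_ext`) and `G ∈ M[G']`; use VAL twice. -/
def Stmt_AUT : Prop := Stmt_VAL → ∀ (M : Set V) [ZFCm M], M.Countable → ∀ P ∈ M, ∅ ∈ P →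
  ∀ π, IsAut M P π → ∀ G, Generic M P G →
    Generic M P (rep G π) ∧ Ext M (rep G π) = Ext M G ∧
    ∀ p ∈ P, (π p ∈ rep G π ↔ p ∈ G)

/-- HOM. Weakly homogeneous forcing decides all statements about elements of `M`. PROOF. First part:
suppose that `φ(v)` is true in `M[G]` and false in `M[G']`. By the forcing theorem (`stmt_forcing`,
with the check names of the `v i`, `val_chk`) there are `p ∈ G` that forces `φ(v)` and `q ∈ G'` that
forces `¬ φ(v)`. Take `π`, `s` for `p`, `q`, a generic `H` that contains `s` (`stmt_generic`); `q ∈ H` as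
`q ⊆ s`, so `φ(v)` is false in `M[H]`. Let `H'` be the preimage of `H` under `π` (the image under the
inverse automorphism); `π p ∈ H`, so `p ∈ H'` and `φ(v)` is true in `M[H'] = M[H]`, by AUT, a
contradiction. Second part: by the forcing theorem and the first part, `φ(v, z)` is true in `M[G]`
if and only if there is `p ∈ P` that forces it, and this is definable in `M`. -/
def Stmt_HOM : Prop := Stmt_VAL → Stmt_AUT → ∀ (M : Set V) [ZFCm M], M.Countable → ∀ P ∈ M,
  ∅ ∈ P → WHom M P → ∀ (n : ℕ) (φ : Fm Empty (n + 1)) (v : Fin n → V), (∀ i, v i ∈ M) →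
  (∀ G G', Generic M P G → Generic M P G' → ∀ z ∈ M,
    (φ.Sat (Ext M G) (fun x y => x ∈ y) Empty.elim (Fin.snoc v z) ↔
      φ.Sat (Ext M G') (fun x y => x ∈ y) Empty.elim (Fin.snoc v z))) ∧
  ∀ G, Generic M P G → ∀ a ∈ M,
    ZFSet.sep (fun z => φ.Sat (Ext M G) (fun x y => x ∈ y) Empty.elim (Fin.snoc v z)) a ∈ M

end Pool.Agent.GMD
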