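import Pool.Agent.GMD.Stmts

/-!
Statements of the modules of the project GMD, second part (MP_3241a1_lc).
-/

set_option autoImplicit false

namespace Pool.Agent.GMD

open Pool.Agent.CTM

/-- DIC. A dichotomy for the reals defined in generic extensions by one formula: either they all
belong to `M`, or there are perfectly many. PROOF. Write `U(G) = {m : M[G] ⊨ φ(v, m)}`. By the forcing
theorem (`stmt_forcing`, names `chk (v i)`, `chk (nn m)`, `val_chk`) the relations `p ⊩ φ(m)`,
`p ⊩ ¬ φ(m)` (for `p ∈ P`, `m ∈ ω`) are definable in `M`; `q` decides `m` if one of them holds. Suppose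
that `U(G) ∉ M` for one generic `G`. Let `Q ∈ M` be the set of the `q ∈ P` that decide all `m`. The set
of the `q` that are in `Q` or have no extension in `Q` is dense and in `M`; if `q ∈ G ∩ Q` then
`U(G) = {m : q ⊩ φ(m)} ∈ M`, a contradiction. So there is `p ∈ G` with no extension in `Q`: every `q ⊇ p`
leaves some `m` undecided, and then there are `q0, q1 ⊇ q` in `P` with `q0 ⊩ ¬ φ(m)`, `q1 ⊩ φ(m)` (a
generic filter that contains `q` and a condition in it that forces the opposite; take a common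
extension). Enumerate the dense sets `D_n ∈ M` (`M` is countable; compare `Gen.lean`: `step`, `seq`).
Define `p_s ∈ P` for finite sequences `s` of bits: `p_∅ = p`; given `p_s` take `q ⊇ p_s` in `D_{|s|}`, the
least undecided `m = m_s` of `q`, and `p_{s0}`, `p_{s1}` as above. For `x : ℕ → Bool` the filter
`f x = {q ∈ P : ∃ n, q ⊆ p_{x|n}}` is generic; `m_{x|n} ∈ U(f x)` if and only if `x n = 1`, so `x ↦ U(f x)`
is injective; the set of the conditions that decide `m` is one of the `D_n`, so `U(f x)` depends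
continuously on `x`. -/
def Stmt_DIC : Prop := ∀ (M : Set V) [ZFCm M], M.Countable → ∀ P ∈ M, ∅ ∈ P →
  ∀ (n : ℕ) (φ : Fm Empty (n + 1)) (v : Fin n → V), (∀ i, v i ∈ M) →
  (∀ G, Generic M P G → ZFSet.sep (fun z =>
    φ.Sat (Ext M G) (fun x y => x ∈ y) Empty.elim (Fin.snoc v z)) ZFSet.omega ∈ M) ∨
  ∃ f : (ℕ → Bool) → V, (∀ x, Generic M P (f x)) ∧
    (∀ (x : ℕ → Bool) (m : ℕ), ∃ k : ℕ, ∀ y : ℕ → Bool, (∀ i < k, y i = x i) →
      (φ.Sat (Ext M (f y)) (fun x y => x ∈ y) Empty.elim (Fin.snoc v (nn m)) ↔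
        φ.Sat (Ext M (f x)) (fun x y => x ∈ y) Empty.elim (Fin.snoc v (nn m)))) ∧
    ∀ x y : ℕ → Bool, (∀ m : ℕ,
      (φ.Sat (Ext M (f x)) (fun x y => x ∈ y) Empty.elim (Fin.snoc v (nn m)) ↔
        φ.Sat (Ext M (f y)) (fun x y => x ∈ y) Empty.elim (Fin.snoc v (nn m)))) → x = y

end Pool.Agent.GMD
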