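import Pool.Agent.GMD.Stmts2
import Pool.Agent.GMD.Pub2

/-!
Translation of forcing notions: preorders with a largest element are represented by sets ordered
by inclusion.
-/

set_option autoImplicit false

namespace Pool.Agent.GMD

open Pool.Agent.CTM

/-- The condition `p`, as the set of the weaker conditions that are not largest elements. -/
noncomputable def cd (P L t p : V) : V :=
  ZFSet.sep (fun q => ZFSet.pair p q ∈ L ∧ ¬ ZFSet.pair t q ∈ L) P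

theorem mem_cd {P L t p q : V} :
    q ∈ cd P L t p ↔ q ∈ P ∧ ZFSet.pair p q ∈ L ∧ ¬ ZFSet.pair t q ∈ L := ZFSet.mem_sep

/-- The set of the new conditions. -/
noncomputable def Pc (P L t : V) : V := rep P (cd P L t)

section

variable {M : Set V} {P L t : V}

theorem cd_sub_iff (h : Forcing M P L t) {p q : V} (hp : p ∈ P) (hq : q ∈ P) :
    cd P L t q ⊆ cd P L t p ↔ ZFSet.pair p q ∈ L := by
  constructor
  · intro hs
    by_cases h1 : ZFSet.pair t q ∈ L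
    · exact h.trans p hp t h.top_mem q hq (h.top p hp) h1
    · exact (mem_cd.1 (hs (mem_cd.2 ⟨hq, h.refl q hq, h1⟩))).2.1
  · intro hpq u hu
    obtain ⟨hu1, hu2, hu3⟩ := mem_cd.1 hu
    exact mem_cd.2 ⟨hu1, h.trans p hp q hq u hu1 hpq hu2, hu3⟩

theorem cd_top : cd P L t t = ∅ := by
  rw [ZFSet.eq_empty]
  intro u hu
  obtain ⟨_, h1, h2⟩ := mem_cd.1 hu
  exact h2 h1

theorem empty_mem_Pc (h : Forcing M P L t) : ∅ ∈ Pc P L t :=
  mem_rep.2 ⟨t, h.top_mem, cd_top⟩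

theorem cd_eq (h : Forcing M P L t) {p q : V} (hp : p ∈ P) (hq : q ∈ P)
    (e : cd P L t p = cd P L t q) : ZFSet.pair p q ∈ L ∧ ZFSet.pair q p ∈ L :=
  ⟨(cd_sub_iff h hp hq).1 (fun _ hx => e ▸ hx), (cd_sub_iff h hq hp).1 (fun _ hx => e ▸ hx)⟩

section

variable {N : Set V} [ZFm N]

theorem dmap_cd (hP : P ∈ N) (hL : L ∈ N) (ht : t ∈ N) {Γ : Type 1} [Ctx Γ] {f : Γ → V}
    (hf : DMap N N f) : DMap N N (fun γ => cd P L t (f γ)) := by
  have hcP : ∀ {Γ : Type 1} [Ctx Γ], DMap N N (fun _ : Γ => P) := DMap.const hP hP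
  have hcL : ∀ {Γ : Type 1} [Ctx Γ], DMap N N (fun _ : Γ => L) := DMap.const hL hL
  have hct : ∀ {Γ : Type 1} [Ctx Γ], DMap N N (fun _ : Γ => t) := DMap.const ht ht
  have h : DMap N N (fun p : V => cd P L t p) := by
    unfold cd
    apply_rules (transparency := .reducible) (maxDepth := 999) only [hcP, hcL, hct] using is_poly
  exact DMap.comp (f := fun p : V => cd P L t p) h (g := f) hf

theorem Pc_mem (hP : P ∈ N) (hL : L ∈ N) (ht : t ∈ N) : Pc P L t ∈ N :=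
  ZFm.rep_mem (dmap_cd hP hL ht DMap.id) hP

/-- The images and preimages of subsets of `P`. -/
theorem img_mem (hP : P ∈ N) (hL : L ∈ N) (ht : t ∈ N) {G : V} (hG : G ∈ N) :
    rep G (cd P L t) ∈ N :=
  ZFm.rep_mem (dmap_cd hP hL ht DMap.id) hG

theorem pre_mem (hP : P ∈ N) (hL : L ∈ N) (ht : t ∈ N) {D : V} (hD : D ∈ N) :
    ZFSet.sep (fun p => cd P L t p ∈ D) P ∈ N := by
  refine ZFm.sep_mem (M := N) ?_ hP
  exact Dfn.mem (dmap_cd hP hL ht DMap.id) (DMap.const hD hD)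

end

theorem top_mem_gen (h : Forcing M P L t) {G : V} (hG : GenericFilter M P L G) : t ∈ G := by
  obtain ⟨p, hp⟩ := hG.nonempty
  exact hG.up p hp t h.top_mem (h.top p (hG.sub hp))

theorem generic_img [ZFm M] (h : Forcing M P L t) {G : V} (hG : GenericFilter M P L G) :
    Generic M (Pc P L t) (rep G (cd P L t)) where
  sub := by
    intro x hx
    obtain ⟨p, hp, rfl⟩ := mem_rep.1 hx
    exact mem_rep.2 ⟨p, hG.sub hp, rfl⟩
  empty_mem := mem_rep.2 ⟨t, top_mem_gen h hG, cd_top⟩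
  down := by
    intro x hx y hy hyx
    obtain ⟨p, hp, rfl⟩ := mem_rep.1 hx
    obtain ⟨q, hq, rfl⟩ := mem_rep.1 hy
    exact mem_rep.2 ⟨q, hG.up p hp q hq ((cd_sub_iff h (hG.sub hp) hq).1 hyx), rfl⟩
  dir := by
    intro x hx y hy
    obtain ⟨p, hp, rfl⟩ := mem_rep.1 hx
    obtain ⟨q, hq, rfl⟩ := mem_rep.1 hy
    obtain ⟨s, hs, h1, h2⟩ := hG.dir p hp q hq
    exact ⟨cd P L t s, mem_rep.2 ⟨s, hs, rfl⟩, (cd_sub_iff h (hG.sub hs) (hG.sub hp)).2 h1,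
      (cd_sub_iff h (hG.sub hs) (hG.sub hq)).2 h2⟩
  meets := by
    intro D hD hDd
    obtain ⟨p, hp, hpD⟩ := hG.meets (ZFSet.sep (fun p => cd P L t p ∈ D) P)
      (pre_mem h.P_mem h.L_mem (TrC.trans h.P_mem h.top_mem) hD)
      (fun x hx => (ZFSet.mem_sep.1 hx).1) (fun p hp => by
        obtain ⟨x, hx, hpx⟩ := hDd.2 (cd P L t p) (mem_rep.2 ⟨p, hp, rfl⟩)
        obtain ⟨q, hq, rfl⟩ := mem_rep.1 (hDd.1 hx)
        exact ⟨q, ZFSet.mem_sep.2 ⟨hq, hx⟩, (cd_sub_iff h hq hp).1 hpx⟩)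
    exact ⟨cd P L t p, (ZFSet.mem_sep.1 hpD).2, mem_rep.2 ⟨p, hp, rfl⟩⟩

theorem gen_eq (h : Forcing M P L t) {G : V} (hG : GenericFilter M P L G) :
    ZFSet.sep (fun p => cd P L t p ∈ rep G (cd P L t)) P = G := by
  ext p
  rw [ZFSet.mem_sep, mem_rep]
  constructor
  · rintro ⟨hp, q, hq, e⟩
    exact hG.up q hq p hp (cd_eq h (hG.sub hq) hp e).1
  · intro hp
    exact ⟨hG.sub hp, p, hp, rfl⟩

theorem generic_pre [ZFm M] (h : Forcing M P L t) {G' : V} (hG : Generic M (Pc P L t) G') :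
    GenericFilter M P L (ZFSet.sep (fun p => cd P L t p ∈ G') P) ∧
      rep (ZFSet.sep (fun p => cd P L t p ∈ G') P) (cd P L t) = G' := by
  constructor
  · refine ⟨fun x hx => (ZFSet.mem_sep.1 hx).1, ⟨t, ?_⟩, ?_, ?_, ?_⟩
    · rw [ZFSet.mem_sep, cd_top]
      exact ⟨h.top_mem, hG.empty_mem⟩
    · intro p hp q hq hpq
      rw [ZFSet.mem_sep] at hp ⊢
      exact ⟨hq, hG.down _ hp.2 _ (mem_rep.2 ⟨q, hq, rfl⟩) ((cd_sub_iff h hp.1 hq).2 hpq)⟩
    · intro p hp q hq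
      rw [ZFSet.mem_sep] at hp hq
      obtain ⟨x, hx, h1, h2⟩ := hG.dir _ hp.2 _ hq.2
      obtain ⟨s, hs, rfl⟩ := mem_rep.1 (hG.sub hx)
      exact ⟨s, ZFSet.mem_sep.2 ⟨hs, hx⟩, (cd_sub_iff h hs hp.1).1 h1,
        (cd_sub_iff h hs hq.1).1 h2⟩
    · intro D hD hDP hDd
      have hD' := img_mem (N := M) h.P_mem h.L_mem (TrC.trans h.P_mem h.top_mem) hD
      obtain ⟨x, hx, hxG⟩ := hG.meets _ hD' ⟨fun x hx => by
          obtain ⟨p, hp, rfl⟩ := mem_rep.1 hx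
          exact mem_rep.2 ⟨p, hDP hp, rfl⟩, fun x hx => by
          obtain ⟨p, hp, rfl⟩ := mem_rep.1 hx
          obtain ⟨q, hq, hqp⟩ := hDd p hp
          exact ⟨cd P L t q, mem_rep.2 ⟨q, hq, rfl⟩, (cd_sub_iff h (hDP hq) hp).2 hqp⟩⟩
      obtain ⟨p, hp, rfl⟩ := mem_rep.1 hx
      exact ⟨p, ZFSet.mem_sep.2 ⟨hDP hp, hxG⟩, hp⟩
  · ext x
    rw [mem_rep]
    constructor
    · rintro ⟨p, hp, rfl⟩
      exact (ZFSet.mem_sep.1 hp).2
    · intro hx
      obtain ⟨p, hp, rfl⟩ := mem_rep.1 (hG.sub hx)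
      exact ⟨p, ZFSet.mem_sep.2 ⟨hp, hx⟩, rfl⟩

/-- Weak homogeneity of the representation. -/
theorem whom_img [ZFm M] (h : Forcing M P L t) (hW : WeaklyHomogeneous M P L) :
    WHom M (Pc P L t) := by
  classical
  intro x hx y hy
  obtain ⟨p, hp, rfl⟩ := mem_rep.1 hx
  obtain ⟨q, hq, rfl⟩ := mem_rep.1 hy
  obtain ⟨π, hπ, s, hs, h1, h2⟩ := hW p hp q hq
  -- the induced automorphism
  let ch : V → V := fun x => if hx : ∃ p ∈ P, cd P L t p = x then hx.choose else t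
  have hch : ∀ p ∈ P, ch (cd P L t p) ∈ P ∧ cd P L t (ch (cd P L t p)) = cd P L t p := by
    intro p hp
    have hx : ∃ p' ∈ P, cd P L t p' = cd P L t p := ⟨p, hp, rfl⟩
    have : ch (cd P L t p) = hx.choose := dif_pos hx
    rw [this]
    exact hx.choose_spec
  let π' : V → V := fun x => cd P L t (π (ch x))
  have hπ' : ∀ p ∈ P, π' (cd P L t p) = cd P L t (π p) := by
    intro p hp
    obtain ⟨h3, h4⟩ := hch p hp
    obtain ⟨h5, h6⟩ := cd_eq h h3 hp h4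
    apply ZFSet.ext
    intro u
    constructor
    · exact fun hu => (cd_sub_iff h (hπ.maps _ hp) (hπ.maps _ h3)).2
        ((hπ.le_iff _ hp _ h3).2 h6) hu
    · exact fun hu => (cd_sub_iff h (hπ.maps _ h3) (hπ.maps _ hp)).2
        ((hπ.le_iff _ h3 _ hp).2 h5) hu
  refine ⟨π', ⟨?_, ?_, ?_, ?_⟩, cd P L t s, mem_rep.2 ⟨s, hs, rfl⟩, ?_,
    (cd_sub_iff h hs hq).2 h2⟩
  · obtain ⟨f, hf, hfz⟩ := hπ.mem
    have hfn : IsFn f := by
      refine ⟨fun z hz => ?_, fun x y z hy hz => ?_⟩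
      · obtain ⟨p, _, rfl⟩ := (hfz z).1 hz
        exact ⟨p, π p, rfl⟩
      · obtain ⟨p, _, e⟩ := (hfz _).1 hy
        obtain ⟨p', _, e'⟩ := (hfz _).1 hz
        obtain ⟨rfl, rfl⟩ := ZFSet.pair_injective e
        obtain ⟨rfl, rfl⟩ := ZFSet.pair_injective e'
        rfl
    have happ : ∀ p ∈ P, app f p = π p := fun p hp => hfn.app_eq ((hfz _).2 ⟨p, hp, rfl⟩)
    have ht := TrC.trans h.P_mem h.top_mem
    have hcf : ∀ {Γ : Type 1} [Ctx Γ], DMap M M (fun _ : Γ => f) := DMap.const hf hf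
    have hF : DMap M M (fun p : V => ZFSet.pair (cd P L t p) (cd P L t (app f p))) :=
      DMap.pair (dmap_cd h.P_mem h.L_mem ht DMap.id)
        (dmap_cd h.P_mem h.L_mem ht (DMap.app hcf DMap.id))
    have h3 := ZFm.rep_mem hF h.P_mem
    have e : rep P (fun p : V => ZFSet.pair (cd P L t p) (cd P L t (app f p))) =
        gr π' (Pc P L t) := by
      ext z
      rw [mem_rep, mem_gr]
      constructor
      · rintro ⟨p, hp, rfl⟩
        exact ⟨cd P L t p, mem_rep.2 ⟨p, hp, rfl⟩, by rw [hπ' p hp, happ p hp]⟩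
      · rintro ⟨x, hx, rfl⟩
        obtain ⟨p, hp, rfl⟩ := mem_rep.1 hx
        exact ⟨p, hp, by rw [hπ' p hp, happ p hp]⟩
    rw [← e]
    exact h3
  · intro x hx
    obtain ⟨p, hp, rfl⟩ := mem_rep.1 hx
    rw [hπ' p hp]
    exact mem_rep.2 ⟨π p, hπ.maps p hp, rfl⟩
  · intro x hx
    obtain ⟨q, hq, rfl⟩ := mem_rep.1 hx
    obtain ⟨p, hp, rfl⟩ := hπ.surj q hq
    exact ⟨cd P L t p, mem_rep.2 ⟨p, hp, rfl⟩, hπ' p hp⟩
  · intro x hx y hy
    obtain ⟨p, hp, rfl⟩ := mem_rep.1 hx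
    obtain ⟨q, hq, rfl⟩ := mem_rep.1 hy
    rw [hπ' p hp, hπ' q hq, cd_sub_iff h (hπ.maps q hq) (hπ.maps p hp), hπ.le_iff q hq p hp,
      cd_sub_iff h hq hp]
  · rw [hπ' p hp]
    exact (cd_sub_iff h hs (hπ.maps p hp)).2 h1

end

end Pool.Agent.GMD
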